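import Mathlib

/-!
# Dual-critical graphs and nondegenerate weightings
-/

namespace Pool.Agent.H203

open Finset

variable {V : Type*} [DecidableEq V]

/-- `DC c r S`: beginning with `r`, the vertices of `S` can be added one after the other, each with an
odd number of edges (modulo `2`, the adjacency is given by `c`) to the earlier ones. -/
inductive DC (c : V → V → ZMod 2) (r : V) : Finset V → Prop
  | base : DC c r {r}
  | add (S : Finset V) (v : V) (hv : v ∉ S) (h : ∑ u ∈ S, c v u = 1) : DC c r S → DC c r (insert v S)

theorem DC.congr {c c' : V → V → ZMod 2} {r : V} {S : Finset V} (h : DC c r S) :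
    (∀ u ∈ S, ∀ v ∈ S, c u v = c' u v) → DC c' r S := by
  induction h with
  | base => intro _; exact DC.base
  | add S v hv hs _ ih =>
    intro hc
    refine DC.add S v hv ?_ (ih fun u hu w hw => hc u (mem_insert_of_mem hu) w (mem_insert_of_mem hw))
    rw [← hs]
    exact sum_congr rfl fun u hu => (hc v (mem_insert_self v S) u (mem_insert_of_mem hu)).symm

/-- contraction of `a` into `b` -/
def ctr (c : V → V → ZMod 2) (a b : V) (u v : V) : ZMod 2 :=
  c u v + (if u = b then c a v else 0) + (if v = b then c u a else 0)

theorem zmod2_cases (x : ZMod 2) : x = 0 ∨ x = 1 := by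
  revert x; decide

theorem zmod2_add_one {x y : ZMod 2} (h : x + y = 1) : (x = 1 ∧ y = 0) ∨ (x = 0 ∧ y = 1) := by
  revert x y; decide

theorem dc_uncontract {c : V → V → ZMod 2} (hsym : ∀ u v, c u v = c v u) {a b r : V} {S : Finset V}
    (h : DC (ctr c a b) r S) : a ∉ S → b ∈ S → c a b = 1 → DC c r (insert a S) := by
  induction h with
  | base =>
    intro ha hb hab
    rw [mem_singleton] at hb
    subst hb
    exact DC.add _ _ ha (by rw [sum_singleton, hab]) DC.base
  | add S v hv hs hS ih =>
    intro ha hb hab
    have hav : a ≠ v := fun e => ha (by rw [e]; exact mem_insert_self v S)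
    have haS : a ∉ S := fun e => ha (mem_insert_of_mem e)
    by_cases hbv : b = v
    · subst hbv
      have h1 : DC c r S := hS.congr (fun u hu w hw => by
        have e1 : u ≠ b := fun e => hv (e ▸ hu)
        have e2 : w ≠ b := fun e => hv (e ▸ hw)
        rw [ctr, if_neg e1, if_neg e2, add_zero, add_zero])
      have h2 : ∑ u ∈ S, c b u + ∑ u ∈ S, c a u = 1 := by
        rw [← hs, ← sum_add_distrib]
        apply sum_congr rfl
        intro u hu
        have e2 : u ≠ b := fun e => hv (e ▸ hu)
        rw [ctr, if_pos rfl, if_neg e2, add_zero]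
      rcases zmod2_add_one h2 with ⟨h3, h4⟩ | ⟨h3, h4⟩
      · refine DC.add _ a ha ?_ (DC.add S b hv h3 h1)
        rw [sum_insert hv, hab, h4, add_zero]
      · rw [insert_comm]
        refine DC.add _ b ?_ ?_ (DC.add S a haS h4 h1)
        · rw [mem_insert, not_or]
          exact ⟨hav.symm, hv⟩
        · rw [sum_insert haS, hsym b a, hab, h3, add_zero]
    · have hbS : b ∈ S := (mem_insert.1 hb).resolve_left hbv
      have h1 := ih haS hbS hab
      rw [insert_comm]
      refine DC.add _ v ?_ ?_ h1
      · rw [mem_insert, not_or]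
        exact ⟨hav.symm, hv⟩
      · rw [sum_insert haS, ← hs]
        have e1 : ∑ u ∈ S, ctr c a b v u = ∑ u ∈ S, (c v u + if u = b then c v a else 0) := by
          apply sum_congr rfl
          intro u _
          rw [ctr, if_neg (Ne.symm hbv), add_zero]
        rw [e1, sum_add_distrib, sum_ite_eq' S b (fun _ => c v a), if_pos hbS, add_comm]

variable {K : Type*} [Field K]

/-- the solutions of the linear system of a weighting -/
structure Sol (c : V → V → ZMod 2) (S : Finset V) (p : V → K) (x : V → V → K) (f : V → K) : Prop where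
  sym : ∀ u ∈ S, ∀ v ∈ S, x u v = x v u
  supp : ∀ u ∈ S, ∀ v ∈ S, c u v = 0 → x u v = 0
  row : ∀ u ∈ S, ∑ v ∈ S, x u v = 0
  pot : ∀ u ∈ S, ∀ v ∈ S, c u v = 1 → (p u + p v) * x u v = f u + f v

/-- triviality of a solution -/
def Triv (S : Finset V) (x : V → V → K) (f : V → K) : Prop :=
  (∀ u ∈ S, ∀ v ∈ S, x u v = 0) ∧ ∀ u ∈ S, ∀ v ∈ S, f u = f v

/-- a weighting is nondegenerate if all solutions are trivial -/
def ND (c : V → V → ZMod 2) (S : Finset V) (p : V → K) : Prop :=
  ∀ x f, Sol c S p x f → Triv S x f

/-- minimal support argument -/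
theorem min_supp {I : Type*} [DecidableEq I] (Z : Finset I) (τ : I → K)
    (hτ : ∀ i ∈ Z, ∀ j ∈ Z, τ i = τ j → i = j) (P : (I → K) → Prop)
    (hsub : ∀ l m : I → K, P l → P m → ∀ s : K, P (fun i => m i - s * l i))
    (hmul : ∀ l : I → K, P l → P (fun i => τ i * l i))
    (hone : ∀ i ∈ Z, ∀ l : I → K, P l → l i ≠ 0 → (∀ j ∈ Z, j ≠ i → l j = 0) → False) :
    ∀ l, P l → ∀ i ∈ Z, l i = 0 := by
  classical
  have key : ∀ (k : ℕ) (l : I → K), (Z.filter (fun i => l i ≠ 0)).card = k → P l →
      ∀ i ∈ Z, l i = 0 := by
    intro k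
    induction k using Nat.strong_induction_on with
    | _ k ih =>
      intro l hk hP i hi
      by_contra hli
      -- the reduced combination
      have hP' := hsub _ _ hP (hmul l hP) (τ i)
      have hlt : (Z.filter (fun j => τ j * l j - τ i * l j ≠ 0)).card < k := by
        rw [← hk]
        apply card_lt_card
        refine ⟨fun j hj => ?_, fun hno => ?_⟩
        · rw [mem_filter] at hj ⊢
          refine ⟨hj.1, fun h0 => hj.2 ?_⟩
          rw [h0, mul_zero, mul_zero, sub_zero]
        · have := hno (mem_filter.2 ⟨hi, hli⟩)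
          rw [mem_filter] at this
          exact this.2 (sub_self _)
      have h0 := ih _ hlt _ rfl hP'
      refine hone i hi l hP hli ?_
      intro j hj hji
      by_contra hlj
      have h1 : τ j * l j - τ i * l j = 0 := h0 j hj
      rw [← sub_mul] at h1
      have h2 := (mul_eq_zero.1 h1).resolve_right hlj
      exact hji (hτ j hj i hi (sub_eq_zero.1 h2))
  intro l hP
  exact key _ l rfl hP

theorem exists_relation {I J : Type*} (Z : Finset I) (N : Finset J) (M : I → J → K)
    (h : N.card < Z.card) : ∃ l : I → K, (∃ i ∈ Z, l i ≠ 0) ∧ ∀ j ∈ N, ∑ i ∈ Z, l i * M i j = 0 := by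
  classical
  let g : (Z → K) →ₗ[K] (N → K) :=
    { toFun := fun l j => ∑ i : Z, l i * M i j
      map_add' := fun l m => by
        funext j
        simp only [Pi.add_apply, add_mul, sum_add_distrib]
      map_smul' := fun s l => by
        funext j
        simp only [Pi.smul_apply, smul_eq_mul, mul_assoc, mul_sum, RingHom.id_apply] }
  have hni : ¬ Function.Injective g := by
    intro hi
    have := LinearMap.finrank_le_finrank_of_injective hi
    rw [Module.finrank_fintype_fun_eq_card, Module.finrank_fintype_fun_eq_card, Fintype.card_coe,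
      Fintype.card_coe] at this
    omega
  rw [← LinearMap.ker_eq_bot] at hni
  obtain ⟨l, hl, hl0⟩ := Submodule.exists_mem_ne_zero_of_ne_bot hni
  obtain ⟨i, hi⟩ := Function.ne_iff.1 hl0
  refine ⟨fun i => if h : i ∈ Z then l ⟨i, h⟩ else 0, ⟨i, i.2, by simpa using hi⟩, ?_⟩
  intro j hj
  have h1 := congrFun (LinearMap.mem_ker.1 hl) ⟨j, hj⟩
  rw [← sum_coe_sort Z]
  refine Eq.trans ?_ h1
  apply sum_congr rfl
  intro i _
  simp

theorem exists_relation' {I J : Type*} (Z : Finset I) (N : Finset J) (M : I → J → K)
    (h : N.card ≤ Z.card) (hN : N.Nonempty) (hrow : ∀ i ∈ Z, ∑ j ∈ N, M i j = 0) :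
    ∃ l : I → K, (∃ i ∈ Z, l i ≠ 0) ∧ ∀ j ∈ N, ∑ i ∈ Z, l i * M i j = 0 := by
  classical
  obtain ⟨j0, hj0⟩ := hN
  have hlt : (N.erase j0).card < Z.card := by
    have h1 := card_erase_lt_of_mem hj0
    omega
  obtain ⟨l, hl, hl2⟩ := exists_relation Z (N.erase j0) M hlt
  refine ⟨l, hl, fun j hj => ?_⟩
  by_cases hjj : j = j0
  · subst hjj
    have h1 : ∑ k ∈ N, ∑ i ∈ Z, l i * M i k = 0 := by
      rw [sum_comm]
      apply sum_eq_zero
      intro i hi
      rw [← mul_sum, hrow i hi, mul_zero]
    rw [← add_sum_erase _ _ hj, sum_eq_zero hl2, add_zero] at h1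
    exact h1
  · exact hl2 j (mem_erase.2 ⟨hjj, hj⟩)

section char2

variable [CharP K 2]

theorem add_self' (x : K) : x + x = 0 := CharTwo.add_self_eq_zero x

theorem add_ne_of_ne {x y : K} (h : x ≠ y) : x + y ≠ 0 := by
  intro h0
  exact h (CharTwo.add_eq_zero.1 h0)

/-- solutions with `x = 0` have constant `f` -/
theorem triv_of_zero {c : V → V → ZMod 2} {S : Finset V} {p : V → K} (hnd : ND c S p)
    {q : V → K} {x : V → V → K} {f : V → K} (h : Sol c S q x f)
    (hx : ∀ u ∈ S, ∀ v ∈ S, x u v = 0) : Triv S x f := by
  have h1 : Sol c S p (fun _ _ => 0) f := by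
    refine ⟨fun _ _ _ _ => rfl, fun _ _ _ _ _ => rfl, fun _ _ => by simp, fun u hu v hv hc => ?_⟩
    have := h.pot u hu v hv hc
    rw [hx u hu v hv, mul_zero] at this
    rw [mul_zero, this]
  exact ⟨hx, (hnd _ _ h1).2⟩

/-- **Moving one weight.** -/
theorem nd_move {c : V → V → ZMod 2} (hsym : ∀ u v, c u v = c v u) (hdiag : ∀ u, c u u = 0)
    {S : Finset V} {p : V → K} (hnd : ND c S p) {a : V} (ha : a ∈ S) (Z : Finset K)
    (hZa : p a ∉ Z) (hN : (S.filter (fun v => c a v = 1)).Nonempty)
    (hZ : (S.filter (fun v => c a v = 1)).card ≤ Z.card) :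
    ∃ z ∈ Z, ND c S (Function.update p a z) := by
  classical
  set N := S.filter (fun v => c a v = 1) with hNdef
  by_contra hno
  push Not at hno
  have hex : ∀ z : K, ∃ (x : V → V → K) (f : V → K), z ∈ Z →
      Sol c S (Function.update p a z) x f ∧ ¬ Triv S x f := by
    intro z
    by_cases hz : z ∈ Z
    · have h1 := hno z hz
      rw [ND] at h1
      push Not at h1
      obtain ⟨x, f, h2, h3⟩ := h1
      exact ⟨x, f, fun _ => ⟨h2, h3⟩⟩
    · exact ⟨fun _ _ => 0, fun _ => 0, fun h => absurd h hz⟩
  choose x f hxf using hex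
  have hsol : ∀ z ∈ Z, Sol c S (Function.update p a z) (x z) (f z) := fun z hz => (hxf z hz).1
  have hnt : ∀ z ∈ Z, ¬ Triv S (x z) (f z) := fun z hz => (hxf z hz).2
  have hza : ∀ z ∈ Z, p a + z ≠ 0 := fun z hz => add_ne_of_ne fun e => hZa (e ▸ hz)
  -- the invariance
  have key : ∀ l : K → K, (∀ v ∈ N, ∑ z ∈ Z, l z * x z a v = 0) →
      ∀ u ∈ S, ∀ v ∈ S, ∑ z ∈ Z, (l z * (p a + z)⁻¹) * x z u v = 0 := by
    intro l hl
    have hs : Sol c S p (fun u v => ∑ z ∈ Z, (l z * (p a + z)⁻¹) * x z u v)
        (fun u => ∑ z ∈ Z, (l z * (p a + z)⁻¹) * f z u) := by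
      refine ⟨?_, ?_, ?_, ?_⟩
      · intro u hu v hv
        exact sum_congr rfl fun z hz => by rw [(hsol z hz).sym u hu v hv]
      · intro u hu v hv hc
        exact sum_eq_zero fun z hz => by rw [(hsol z hz).supp u hu v hv hc, mul_zero]
      · intro u hu
        rw [sum_comm]
        exact sum_eq_zero fun z hz => by rw [← mul_sum, (hsol z hz).row u hu, mul_zero]
      · have main : ∀ u ∈ S, ∀ v ∈ S, c u v = 1 → v ≠ a →
            (p u + p v) * ∑ z ∈ Z, (l z * (p a + z)⁻¹) * x z u v =
            ∑ z ∈ Z, (l z * (p a + z)⁻¹) * f z u + ∑ z ∈ Z, (l z * (p a + z)⁻¹) * f z v := by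
          intro u hu v hv hc hva
          rw [mul_sum, ← sum_add_distrib]
          by_cases hua : u = a
          · subst hua
            have hvN : v ∈ N := mem_filter.2 ⟨hv, hc⟩
            have h1 : ∑ z ∈ Z, (p u + p v) * (l z * (p u + z)⁻¹ * x z u v) =
                ∑ z ∈ Z, ((l z * (p u + z)⁻¹ * f z u + l z * (p u + z)⁻¹ * f z v) +
                  l z * x z u v) := by
              apply sum_congr rfl
              intro z hz
              have h2 := (hsol z hz).pot u hu v hv hc
              rw [Function.update_self, Function.update_of_ne hva] at h2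
              have h3 := hza z hz
              have h4 : (p u + p v) = (z + p v) + (p u + z) := by
                have := add_self' z
                linear_combination -this
              rw [h4, add_mul, ← mul_add, ← h2]
              congr 1
              · ring
              · field_simp
            rw [h1, sum_add_distrib, hl v hvN, add_zero]
          · apply sum_congr rfl
            intro z hz
            have h2 := (hsol z hz).pot u hu v hv hc
            rw [Function.update_of_ne hua, Function.update_of_ne hva] at h2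
            rw [← mul_add, ← h2]
            ring
        intro u hu v hv hc
        by_cases hva : v = a
        · have hua : u ≠ a := by
            rintro rfl
            rw [hva, hdiag] at hc
            exact zero_ne_one hc
          have h1 := main v hv u hu (by rw [hsym]; exact hc) hua
          rw [add_comm (p u) (p v), add_comm (∑ z ∈ Z, (l z * (p a + z)⁻¹) * f z u)]
          rw [← h1]
          congr 1
          exact sum_congr rfl fun z hz => by rw [(hsol z hz).sym u hu v hv]
        · exact main u hu v hv hc hva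
    exact (hnd _ _ hs).1
  -- independence
  have hind : ∀ l : K → K, (∀ v ∈ N, ∑ z ∈ Z, l z * x z a v = 0) → ∀ z ∈ Z, l z = 0 := by
    apply min_supp Z (fun z => (p a + z)⁻¹)
    · intro i _ j _ hij
      have := inv_injective hij
      exact add_left_cancel this
    · intro l m hl hm s v hv
      simp only [sub_mul, sum_sub_distrib, hm v hv, mul_assoc, ← mul_sum, hl v hv, mul_zero,
        sub_zero]
    · intro l hl v hv
      have h1 := key l hl a ha v (mem_filter.1 hv).1
      rw [← h1]
      exact sum_congr rfl fun z _ => by ring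
    · intro z hz l hl hlz hzero
      apply hnt z hz
      apply triv_of_zero hnd (hsol z hz)
      intro u hu v hv
      have h1 := key l hl u hu v hv
      rw [sum_eq_single z] at h1
      · have h2 : l z * (p a + z)⁻¹ ≠ 0 := mul_ne_zero hlz (inv_ne_zero (hza z hz))
        exact (mul_eq_zero.1 h1).resolve_left h2
      · intro w hw hwz
        rw [hzero w hw hwz, zero_mul, zero_mul]
      · intro h
        exact absurd hz h
  obtain ⟨l, ⟨z, hz, hlz⟩, hl⟩ := exists_relation' Z N (fun z v => x z a v) hZ hN (by
    intro z hz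
    have h1 := (hsol z hz).row a ha
    rw [← h1]
    apply sum_subset (filter_subset _ _)
    intro v hv hvN
    apply (hsol z hz).supp a ha v hv
    rcases zmod2_cases (c a v) with h | h
    · exact h
    · exact absurd (mem_filter.2 ⟨hv, h⟩) hvN)
  exact hlz (hind l hl z hz)

/-- in a nondegenerate graph every vertex has a neighbour -/
theorem nd_nonempty {c : V → V → ZMod 2} (hsym : ∀ u v, c u v = c v u)
    {S : Finset V} {p : V → K} (hnd : ND c S p) {a b : V} (ha : a ∈ S) (hb : b ∈ S) (hab : a ≠ b) :
    (S.filter (fun v => c a v = 1)).Nonempty := by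
  by_contra hno
  rw [not_nonempty_iff_eq_empty] at hno
  have hz : ∀ v ∈ S, c a v ≠ 1 := fun v hv h => by
    have : v ∈ S.filter (fun v => c a v = 1) := mem_filter.2 ⟨hv, h⟩
    rw [hno] at this
    simp at this
  have h1 : Sol c S p (fun _ _ => 0) (fun v => if v = a then 1 else 0) := by
    refine ⟨fun _ _ _ _ => rfl, fun _ _ _ _ _ => rfl, fun _ _ => by simp, fun u hu v hv hc => ?_⟩
    have e1 : u ≠ a := by
      rintro rfl
      exact hz v hv hc
    have e2 : v ≠ a := by
      rintro rfl
      exact hz u hu (by rw [hsym]; exact hc)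
    simp [e1, e2]
  have h2 := (hnd _ _ h1).2 a ha b hb
  simp [hab.symm] at h2

/-- **Contraction.** -/
theorem nd_contract {c : V → V → ZMod 2} (hsym : ∀ u v, c u v = c v u) (hdiag : ∀ u, c u u = 0)
    {S : Finset V} {p : V → K} {a b : V} (ha : a ∈ S) (hb : b ∈ S) (hab : c a b = 1)
    (hp : ∀ v ∈ S, v ≠ a → v ≠ b → p v ≠ p b)
    (hnd : ND c S (Function.update p a (p b))) : ND (ctr c a b) (S.erase a) p := by
  classical
  have hne : a ≠ b := by
    rintro rfl
    rw [hdiag] at hab
    exact zero_ne_one hab
  intro x f h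
  -- the lift
  let q : V → K := fun v => (f b + f v) * (p b + p v)⁻¹
  let g : V → K := fun v => if c a v = 1 then (if c b v = 1 then q v else x b v) else 0
  let k : V → K := fun v => if c b v = 1 then (if c a v = 1 then q v else x b v) else 0
  let R := (S.erase a).erase b
  have hbS : b ∈ S.erase a := mem_erase.2 ⟨hne.symm, hb⟩
  have hR : ∀ v ∈ R, v ∈ S ∧ v ≠ a ∧ v ≠ b ∧ v ∈ S.erase a := by
    intro v hv
    rw [mem_erase, mem_erase] at hv
    exact ⟨hv.2.2, hv.2.1, hv.1, mem_erase.2 hv.2⟩
  have hRm : ∀ v ∈ S, v ≠ a → v ≠ b → v ∈ R := fun v hv h1 h2 =>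
    mem_erase.2 ⟨h2, mem_erase.2 ⟨h1, hv⟩⟩
  have hgk : ∀ v ∈ R, g v + k v = x b v := by
    intro v hv
    obtain ⟨h1, h2, h3, h4⟩ := hR v hv
    have hc : ctr c a b b v = c b v + c a v := by rw [ctr, if_pos rfl, if_neg h3, add_zero]
    rcases zmod2_cases (c a v) with e1 | e1 <;> rcases zmod2_cases (c b v) with e2 | e2
    · rw [h.supp b hbS v h4 (by rw [hc, e1, e2, add_zero])]
      simp only [g, k, e1, e2]
      simp
    · simp only [g, k, e1, e2]
      simp
    · simp only [g, k, e1, e2]
      simp
    · rw [h.supp b hbS v h4 (by rw [hc, e1, e2]; decide)]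
      simp only [g, k, e1, e2, if_true]
      exact add_self' _
  set w : K := ∑ v ∈ R, g v with hw
  let X : V → V → K := fun u v =>
    if u = a then (if v = a then 0 else if v = b then w else g v)
    else if u = b then (if v = a then w else if v = b then 0 else k v)
    else (if v = a then g u else if v = b then k u else x u v)
  let f' : V → K := fun u => if u = a then f b else f u
  have Xaa : X a a = 0 := by simp only [X, if_true]
  have Xab : X a b = w := by simp only [X, if_true, hne.symm, if_false]
  have Xba : X b a = w := by simp only [X, if_true, hne.symm, if_false]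
  have Xbb : X b b = 0 := by simp only [X, if_true, hne.symm, if_false]
  have Xav : ∀ v, v ≠ a → v ≠ b → X a v = g v := by
    intro v h1 h2
    simp only [X, if_true, h1, h2, if_false]
  have Xbv : ∀ v, v ≠ a → v ≠ b → X b v = k v := by
    intro v h1 h2
    simp only [X, if_true, h1, h2, if_false, hne.symm]
  have Xva : ∀ v, v ≠ a → v ≠ b → X v a = g v := by
    intro v h1 h2
    simp only [X, if_true, h1, h2, if_false]
  have Xvb : ∀ v, v ≠ a → v ≠ b → X v b = k v := by
    intro v h1 h2
    simp only [X, if_true, h1, h2, if_false, hne.symm]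
  have Xuv : ∀ u v, u ≠ a → u ≠ b → v ≠ a → v ≠ b → X u v = x u v := by
    intro u v h1 h2 h3 h4
    simp only [X, h1, h2, h3, h4, if_false]
  have cuv : ∀ u v, u ≠ b → v ≠ b → ctr c a b u v = c u v := by
    intro u v h1 h2
    rw [ctr, if_neg h1, if_neg h2, add_zero, add_zero]
  have hsplit : ∀ F : V → K, ∑ v ∈ S, F v = F a + (F b + ∑ v ∈ R, F v) := by
    intro F
    rw [← add_sum_erase S F ha, ← add_sum_erase (S.erase a) F hbS]
  have hsplit' : ∀ F : V → K, ∑ v ∈ S.erase a, F v = F b + ∑ v ∈ R, F v := by
    intro F
    rw [← add_sum_erase (S.erase a) F hbS]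
  have cbb : ctr c a b b b = 0 := by
    simp only [ctr, if_true, hdiag, hsym b a, hab]
    decide
  have hbR : ∑ v ∈ R, x b v = 0 := by
    have h1 := h.row b hbS
    rw [hsplit', h.supp b hbS b hbS cbb, zero_add] at h1
    exact h1
  have hS : Sol c S (Function.update p a (p b)) X f' := by
    refine ⟨?_, ?_, ?_, ?_⟩
    · intro u hu v hv
      by_cases h1 : u = a
      · by_cases h2 : v = a
        · rw [h1, h2]
        · by_cases h3 : v = b
          · rw [h1, h3, Xab, Xba]
          · rw [h1, Xav v h2 h3, Xva v h2 h3]
      · by_cases h4 : u = b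
        · by_cases h2 : v = a
          · rw [h4, h2, Xab, Xba]
          · by_cases h3 : v = b
            · rw [h4, h3]
            · rw [h4, Xbv v h2 h3, Xvb v h2 h3]
        · by_cases h2 : v = a
          · rw [h2, Xva u h1 h4, Xav u h1 h4]
          · by_cases h3 : v = b
            · rw [h3, Xvb u h1 h4, Xbv u h1 h4]
            · rw [Xuv u v h1 h4 h2 h3, Xuv v u h2 h3 h1 h4]
              exact h.sym u (mem_erase.2 ⟨h1, hu⟩) v (mem_erase.2 ⟨h2, hv⟩)
    · intro u hu v hv hc
      by_cases h1 : u = a
      · by_cases h2 : v = a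
        · rw [h1, h2, Xaa]
        · by_cases h3 : v = b
          · rw [h1, h3, hab] at hc
            exact absurd hc one_ne_zero
          · rw [h1] at hc
            rw [h1, Xav v h2 h3]
            simp only [g, hc]
            simp
      · by_cases h4 : u = b
        · by_cases h2 : v = a
          · rw [h4, h2, hsym, hab] at hc
            exact absurd hc one_ne_zero
          · by_cases h3 : v = b
            · rw [h4, h3, Xbb]
            · rw [h4] at hc
              rw [h4, Xbv v h2 h3]
              simp only [k, hc]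
              simp
        · by_cases h2 : v = a
          · rw [h2, hsym] at hc
            rw [h2, Xva u h1 h4]
            simp only [g, hc]
            simp
          · by_cases h3 : v = b
            · rw [h3, hsym] at hc
              rw [h3, Xvb u h1 h4]
              simp only [k, hc]
              simp
            · rw [Xuv u v h1 h4 h2 h3]
              exact h.supp u (mem_erase.2 ⟨h1, hu⟩) v (mem_erase.2 ⟨h2, hv⟩)
                (by rw [cuv u v h4 h3, hc])
    · intro u hu
      rw [hsplit]
      by_cases h1 : u = a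
      · rw [h1, Xaa, Xab, zero_add]
        have : ∑ v ∈ R, X a v = w := by
          rw [hw]
          exact sum_congr rfl fun v hv => Xav v (hR v hv).2.1 (hR v hv).2.2.1
        rw [this]
        exact add_self' _
      · by_cases h4 : u = b
        · rw [h4, Xba, Xbb, zero_add]
          have : ∑ v ∈ R, X b v = ∑ v ∈ R, k v :=
            sum_congr rfl fun v hv => Xbv v (hR v hv).2.1 (hR v hv).2.2.1
          rw [this, hw, ← sum_add_distrib, sum_congr rfl hgk, hbR]
        · rw [Xva u h1 h4, Xvb u h1 h4]
          have : ∑ v ∈ R, X u v = ∑ v ∈ R, x u v :=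
            sum_congr rfl fun v hv => Xuv u v h1 h4 (hR v hv).2.1 (hR v hv).2.2.1
          rw [this, ← add_assoc, hgk u (hRm u hu h1 h4), h.sym b hbS u (mem_erase.2 ⟨h1, hu⟩),
            ← hsplit']
          exact h.row u (mem_erase.2 ⟨h1, hu⟩)
    · -- potentials
      have main : ∀ u ∈ S, ∀ v ∈ S, c u v = 1 → v ≠ a → (u ≠ b ∨ v ≠ b) → (v = b → u = a) →
          (Function.update p a (p b) u + Function.update p a (p b) v) * X u v = f' u + f' v := by
        intro u hu v hv hc hva huv hvb
        have fa : f' a = f b := by simp only [f', if_true]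
        have fv : ∀ y, y ≠ a → f' y = f y := fun y hy => by simp only [f', hy, if_false]
        by_cases h3 : v = b
        · have h1 := hvb h3
          rw [h1, h3, fa, fv b hne.symm, Function.update_self, Function.update_of_ne hne.symm,
            add_self', add_self', zero_mul]
        · have hpb : p b + p v ≠ 0 := add_ne_of_ne (hp v hv hva h3).symm
          have hq : (p b + p v) * q v = f b + f v := by
            simp only [q]
            field_simp
          rw [fv v hva, Function.update_of_ne hva]
          have hvS : v ∈ S.erase a := mem_erase.2 ⟨hva, hv⟩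
          have hcb : ctr c a b b v = c b v + c a v := by rw [ctr, if_pos rfl, if_neg h3, add_zero]
          by_cases h1 : u = a
          · rw [h1] at hc
            rw [h1, fa, Function.update_self, Xav v hva h3]
            rcases zmod2_cases (c b v) with e2 | e2
            · simp only [g, hc, e2, if_true]
              rw [if_neg (by decide)]
              exact h.pot b hbS v hvS (by rw [hcb, hc, e2, zero_add])
            · simp only [g, hc, e2, if_true]
              exact hq
          · rw [fv u h1, Function.update_of_ne h1]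
            by_cases h4 : u = b
            · rw [h4] at hc
              rw [h4, Xbv v hva h3]
              rcases zmod2_cases (c a v) with e2 | e2
              · simp only [k, hc, e2, if_true]
                rw [if_neg (by decide)]
                exact h.pot b hbS v hvS (by rw [hcb, hc, e2, add_zero])
              · simp only [k, hc, e2, if_true]
                exact hq
            · rw [Xuv u v h1 h4 hva h3]
              exact h.pot u (mem_erase.2 ⟨h1, hu⟩) v hvS (by rw [cuv u v h4 h3, hc])
      have symX : ∀ u ∈ S, ∀ v ∈ S, X u v = X v u := by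
        intro u hu v hv
        by_cases h1 : u = a
        · by_cases h2 : v = a
          · rw [h1, h2]
          · by_cases h3 : v = b
            · rw [h1, h3, Xab, Xba]
            · rw [h1, Xav v h2 h3, Xva v h2 h3]
        · by_cases h4 : u = b
          · by_cases h2 : v = a
            · rw [h4, h2, Xab, Xba]
            · by_cases h3 : v = b
              · rw [h4, h3]
              · rw [h4, Xbv v h2 h3, Xvb v h2 h3]
          · by_cases h2 : v = a
            · rw [h2, Xva u h1 h4, Xav u h1 h4]
            · by_cases h3 : v = b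
              · rw [h3, Xvb u h1 h4, Xbv u h1 h4]
              · rw [Xuv u v h1 h4 h2 h3, Xuv v u h2 h3 h1 h4]
                exact h.sym u (mem_erase.2 ⟨h1, hu⟩) v (mem_erase.2 ⟨h2, hv⟩)
      intro u hu v hv hc
      have huv : u ≠ v := by
        rintro rfl
        rw [hdiag] at hc
        exact zero_ne_one hc
      have flip : ∀ (_ : (Function.update p a (p b) v + Function.update p a (p b) u) * X v u =
          f' v + f' u), (Function.update p a (p b) u + Function.update p a (p b) v) * X u v =
          f' u + f' v := by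
        intro e
        rw [add_comm (Function.update p a (p b) u), symX u hu v hv, e, add_comm]
      have hc' : c v u = 1 := by rw [hsym]; exact hc
      by_cases h1 : u = a
      · have h2 : v ≠ a := fun e => huv (h1.trans e.symm)
        exact main u hu v hv hc h2 (Or.inl (by rw [h1]; exact hne)) (fun _ => h1)
      · by_cases h2 : v = a
        · exact flip (main v hv u hu hc' h1 (Or.inl (by rw [h2]; exact hne)) (fun _ => h2))
        · by_cases h3 : v = b
          · have h4 : u ≠ b := fun e => huv (e.trans h3.symm)
            exact flip (main v hv u hu hc' h1 (Or.inr h4) (fun e => absurd e h4))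
          · exact main u hu v hv hc h2 (Or.inr h3) (fun e => absurd e h3)
  obtain ⟨t1, t2⟩ := hnd _ _ hS
  have hff : ∀ u ∈ S.erase a, f u = f' u := by
    intro u hu
    rw [mem_erase] at hu
    simp only [f', hu.1, if_false]
  refine ⟨?_, fun u hu v hv => ?_⟩
  · have hb0 : ∀ v ∈ S.erase a, x b v = 0 := by
      intro v hv
      by_cases h3 : v = b
      · rw [h3]
        exact h.supp b hbS b hbS cbb
      · have hv' := mem_erase.1 hv
        have hvR := hRm v hv'.2 hv'.1 h3
        rw [← hgk v hvR, ← Xav v hv'.1 h3, ← Xbv v hv'.1 h3, t1 a ha v hv'.2, t1 b hb v hv'.2,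
          add_zero]
    intro u hu v hv
    by_cases h4 : u = b
    · rw [h4]
      exact hb0 v hv
    · by_cases h3 : v = b
      · rw [h3, h.sym u hu b hbS]
        exact hb0 u hu
      · have hu' := mem_erase.1 hu
        have hv' := mem_erase.1 hv
        rw [← Xuv u v hu'.1 h4 hv'.1 h3]
        exact t1 u hu'.2 v hv'.2
  · rw [hff u hu, hff v hv]
    exact t2 u (mem_erase.1 hu).2 v (mem_erase.1 hv).2

/-- **Nondegenerate injective weightings give orders.** -/
theorem dc_of_nd_inj : ∀ (n : ℕ) (c : V → V → ZMod 2), (∀ u v, c u v = c v u) → (∀ u, c u u = 0) →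
    ∀ (S : Finset V) (p : V → K) (r : V), S.card = n → r ∈ S →
    (∀ u ∈ S, ∀ v ∈ S, p u = p v → u = v) → ND c S p → DC c r S := by
  classical
  intro n
  induction n with
  | zero =>
    intro c _ _ S p r hS hr
    rw [card_eq_zero] at hS
    subst hS
    simp at hr
  | succ n ih =>
    intro c hsym hdiag S p r hS hr hp hnd
    by_cases h1 : ∃ a ∈ S, a ≠ r
    · obtain ⟨a, ha, har⟩ := h1
      have hN := nd_nonempty hsym hnd ha hr har
      obtain ⟨z, hz, hz2⟩ := nd_move hsym hdiag hnd ha ((S.filter (fun v => c a v = 1)).image p)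
        (by
          intro h
          obtain ⟨b, hb, hpb⟩ := mem_image.1 h
          rw [mem_filter] at hb
          have := hp b hb.1 a ha hpb
          rw [this, hdiag] at hb
          exact zero_ne_one hb.2) hN
        (by
          rw [card_image_of_injOn]
          intro u hu v hv huv
          exact hp u (mem_filter.1 (mem_coe.1 hu)).1 v (mem_filter.1 (mem_coe.1 hv)).1 huv)
      obtain ⟨b, hb, rfl⟩ := mem_image.1 hz
      rw [mem_filter] at hb
      have hba : b ≠ a := by
        rintro rfl
        rw [hdiag] at hb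
        exact zero_ne_one hb.2
      have h2 := nd_contract hsym hdiag ha hb.1 hb.2
        (fun v hv _ hvb e => hvb (hp v hv b hb.1 e)) hz2
      have h3 := ih (ctr c a b) (fun u v => by
          rw [ctr, ctr, hsym u v, hsym a v, hsym u a]
          ring) (fun u => by
          rw [ctr, hdiag, zero_add]
          split
          · rename_i e
            rw [hsym u a]
            generalize c a u = y
            revert y
            decide
          · rfl) (S.erase a) p r (by rw [card_erase_of_mem ha, hS]; rfl)
        (mem_erase.2 ⟨har.symm, hr⟩)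
        (fun u hu v hv e => hp u (mem_erase.1 hu).2 v (mem_erase.1 hv).2 e) h2
      have h4 := dc_uncontract hsym h3 (notMem_erase a S) (mem_erase.2 ⟨hba, hb.1⟩) hb.2
      rwa [insert_erase ha] at h4
    · push Not at h1
      have : S = {r} := by
        ext v
        rw [mem_singleton]
        exact ⟨fun h => h1 v h, fun h => h ▸ hr⟩
      rw [this]
      exact DC.base

/-- over an infinite field, a nondegenerate weighting can be made injective -/
theorem nd_inj [Infinite K] {c : V → V → ZMod 2} (hsym : ∀ u v, c u v = c v u)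
    (hdiag : ∀ u, c u u = 0) {S : Finset V} {p : V → K} (hnd : ND c S p) (h2 : 2 ≤ S.card) :
    ∃ q : V → K, (∀ u ∈ S, ∀ v ∈ S, q u = q v → u = v) ∧ ND c S q := by
  classical
  have key : ∀ T : Finset V, T ⊆ S → ∃ q : V → K, (∀ u ∈ T, ∀ v ∈ S, q u = q v → u = v) ∧
      ND c S q := by
    intro T
    induction T using Finset.induction_on with
    | empty => intro _; exact ⟨p, by simp, hnd⟩
    | insert a T haT ih =>
      intro hT
      obtain ⟨q, hq1, hq2⟩ := ih ((subset_insert a T).trans hT)
      have ha : a ∈ S := hT (mem_insert_self a T)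
      obtain ⟨b, hb, hab⟩ := exists_mem_ne (s := S) (by omega) a
      obtain ⟨Z, hZ2', hZ1⟩ := ((S.image q : Finset K) : Set K).toFinite.infinite_compl.exists_subset_card_eq
        S.card
      have hZ2 : Disjoint Z (S.image q) := by
        rw [disjoint_left]
        intro z hz hz'
        exact hZ2' (mem_coe.2 hz) (mem_coe.2 hz')
      obtain ⟨z, hz, hz2⟩ := nd_move hsym hdiag hq2 ha Z
        (fun h => by
          have := (disjoint_left.1 hZ2) h
          exact this (mem_image_of_mem q ha))
        (nd_nonempty hsym hq2 ha hb hab.symm)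
        ((card_le_card (filter_subset _ _)).trans (by rw [hZ1]))
      have hzS : ∀ v ∈ S, q v ≠ z := fun v hv e => (disjoint_left.1 hZ2) hz
        (mem_image.2 ⟨v, hv, e⟩)
      refine ⟨Function.update q a z, ?_, hz2⟩
      intro u hu v hv huv
      by_cases h1 : u = a
      · subst h1
        by_cases h3 : v = u
        · exact h3.symm
        · rw [Function.update_self, Function.update_of_ne h3] at huv
          exact absurd huv.symm (hzS v hv)
      · have huT : u ∈ T := (mem_insert.1 hu).resolve_left h1
        by_cases h3 : v = a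
        · subst h3
          rw [Function.update_self, Function.update_of_ne h1] at huv
          exact absurd huv (hzS u (hT hu))
        · rw [Function.update_of_ne h1, Function.update_of_ne h3] at huv
          exact hq1 u huT v hv huv
  obtain ⟨q, h3, h4⟩ := key S (Subset.refl S)
  exact ⟨q, h3, h4⟩

/-- **Adding a vertex of odd degree.** -/
theorem nd_add {c : V → V → ZMod 2} (hsym : ∀ u v, c u v = c v u) (hdiag : ∀ u, c u u = 0)
    {S : Finset V} {p : V → K} (hnd : ND c S p) {v : V} (hv : v ∉ S) (hodd : ∑ u ∈ S, c v u = 1)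
    (Z : Finset K) (hZ : S.card < Z.card) :
    ∃ z ∈ Z, ND c (insert v S) (Function.update p v z) := by
  classical
  set N := S.filter (fun u => c v u = 1) with hNdef
  have hNodd : ((N.card : ℕ) : K) = 1 := by
    have h1 : ((N.card : ℕ) : ZMod 2) = 1 := by
      rw [← hodd, ← sum_subset (filter_subset (fun u => c v u = 1) S)]
      · rw [sum_congr rfl (fun u hu => (mem_filter.1 hu).2), sum_const, nsmul_eq_mul, mul_one]
      · intro u hu hun
        rcases zmod2_cases (c v u) with h | h
        · exact h
        · exact absurd (mem_filter.2 ⟨hu, h⟩) hun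
    have h2 : N.card % 2 = 1 := by
      have h3 : ((N.card : ℕ) : ZMod 2) = ((1 : ℕ) : ZMod 2) := by rw [h1]; simp
      rw [ZMod.natCast_eq_natCast_iff] at h3
      exact h3
    rw [← Nat.div_add_mod N.card 2, h2]
    have : (2 : K) = 0 := CharTwo.two_eq_zero
    push_cast
    rw [this, zero_mul, zero_add]
  have hNne : N.Nonempty := by
    by_contra hno
    rw [not_nonempty_iff_eq_empty] at hno
    rw [hno] at hNodd
    simp at hNodd
  by_contra hno
  push Not at hno
  have hex : ∀ z : K, ∃ (x : V → V → K) (f : V → K), z ∈ Z →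
      Sol c (insert v S) (Function.update p v z) x f ∧ ¬ Triv (insert v S) x f := by
    intro z
    by_cases hz : z ∈ Z
    · have h1 := hno z hz
      rw [ND] at h1
      push Not at h1
      obtain ⟨x, f, h2, h3⟩ := h1
      exact ⟨x, f, fun _ => ⟨h2, h3⟩⟩
    · exact ⟨fun _ _ => 0, fun _ => 0, fun h => absurd h hz⟩
  choose x f hxf using hex
  have hsol : ∀ z ∈ Z, Sol c (insert v S) (Function.update p v z) (x z) (f z) :=
    fun z hz => (hxf z hz).1
  have hnt : ∀ z ∈ Z, ¬ Triv (insert v S) (x z) (f z) := fun z hz => (hxf z hz).2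
  have hvm : v ∈ insert v S := mem_insert_self v S
  have hSm : ∀ {u}, u ∈ S → u ∈ insert v S := fun hu => mem_insert_of_mem hu
  have hvN : ∀ z ∈ Z, ∀ u ∈ S, u ∉ N → x z v u = 0 := by
    intro z hz u hu hun
    apply (hsol z hz).supp v hvm u (hSm hu)
    rcases zmod2_cases (c v u) with h | h
    · exact h
    · exact absurd (mem_filter.2 ⟨hu, h⟩) hun
  have hvv : ∀ z ∈ Z, x z v v = 0 := fun z hz => (hsol z hz).supp v hvm v hvm (hdiag v)
  have key : ∀ l : K → K, (∀ u ∈ N, ∑ z ∈ Z, l z * x z v u = 0) →
      (∀ u ∈ N, ∑ z ∈ Z, (l z * z) * x z v u = 0) ∧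
      (∀ u ∈ S, ∀ w ∈ S, ∑ z ∈ Z, l z * x z u w = 0) ∧
      (∀ u ∈ insert v S, ∀ w ∈ insert v S, ∑ z ∈ Z, l z * f z u = ∑ z ∈ Z, l z * f z w) := by
    intro l hl
    have hl' : ∀ u ∈ S, ∑ z ∈ Z, l z * x z v u = 0 := by
      intro u hu
      by_cases hun : u ∈ N
      · exact hl u hun
      · exact sum_eq_zero fun z hz => by rw [hvN z hz u hu hun, mul_zero]
    have hs : Sol c S p (fun u w => ∑ z ∈ Z, l z * x z u w) (fun u => ∑ z ∈ Z, l z * f z u) := by
      refine ⟨?_, ?_, ?_, ?_⟩
      · intro u hu w hw
        exact sum_congr rfl fun z hz => by rw [(hsol z hz).sym u (hSm hu) w (hSm hw)]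
      · intro u hu w hw hc
        exact sum_eq_zero fun z hz => by rw [(hsol z hz).supp u (hSm hu) w (hSm hw) hc, mul_zero]
      · intro u hu
        rw [sum_comm]
        have h1 : ∀ z ∈ Z, ∑ w ∈ S, l z * x z u w = - (l z * x z v u) := by
          intro z hz
          have h2 := (hsol z hz).row u (hSm hu)
          rw [sum_insert hv] at h2
          rw [← mul_sum, (hsol z hz).sym v hvm u (hSm hu)]
          linear_combination (l z) * h2
        rw [sum_congr rfl h1, sum_neg_distrib, hl' u hu, neg_zero]
      · intro u hu w hw hc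
        rw [mul_sum, ← sum_add_distrib]
        apply sum_congr rfl
        intro z hz
        have h2 := (hsol z hz).pot u (hSm hu) w (hSm hw) hc
        have e1 : u ≠ v := fun e => hv (e ▸ hu)
        have e2 : w ≠ v := fun e => hv (e ▸ hw)
        rw [Function.update_of_ne e1, Function.update_of_ne e2] at h2
        rw [← mul_add, ← h2]
        ring
    obtain ⟨t1, t2'⟩ := hnd _ _ hs
    have t2 : ∀ u ∈ S, ∀ w ∈ S, ∑ z ∈ Z, l z * f z u = ∑ z ∈ Z, l z * f z w := t2'
    -- the values on the new edges
    have h3 : ∀ u ∈ N, ∑ z ∈ Z, (l z * z) * x z v u =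
        ∑ z ∈ Z, l z * f z v + ∑ z ∈ Z, l z * f z u := by
      intro u hu
      have huS := (mem_filter.1 hu).1
      have huv : u ≠ v := fun e => hv (e ▸ huS)
      have h4 : ∑ z ∈ Z, (l z * z) * x z v u =
          ∑ z ∈ Z, ((l z * f z v + l z * f z u) - p u * (l z * x z v u)) := by
        apply sum_congr rfl
        intro z hz
        have h2 := (hsol z hz).pot v hvm u (hSm huS) (mem_filter.1 hu).2
        rw [Function.update_self, Function.update_of_ne huv] at h2
        rw [← mul_add, ← h2]
        ring
      rw [h4, sum_sub_distrib, ← mul_sum, hl u hu, mul_zero, sub_zero, sum_add_distrib]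
    obtain ⟨u0, hu0⟩ := hNne
    have hu0S := (mem_filter.1 hu0).1
    have h5 : ∑ u ∈ N, ∑ z ∈ Z, (l z * z) * x z v u = 0 := by
      rw [sum_comm]
      apply sum_eq_zero
      intro z hz
      rw [← mul_sum]
      have h6 : ∑ u ∈ N, x z v u = 0 := by
        have h7 := (hsol z hz).row v hvm
        rw [sum_insert hv, hvv z hz, zero_add] at h7
        rw [← h7]
        exact sum_subset (filter_subset _ _) fun u hu hun => hvN z hz u hu hun
      rw [h6, mul_zero]
    have h8 : ∑ z ∈ Z, l z * f z v + ∑ z ∈ Z, l z * f z u0 = 0 := by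
      rw [sum_congr rfl h3] at h5
      rw [sum_congr rfl (fun u hu => by
        rw [t2 u (mem_filter.1 hu).1 u0 hu0S] :
        ∀ u ∈ N, _ = ∑ z ∈ Z, l z * f z v + ∑ z ∈ Z, l z * f z u0)] at h5
      rw [sum_const, nsmul_eq_mul, hNodd, one_mul] at h5
      exact h5
    have h9 : ∀ u ∈ S, ∑ z ∈ Z, l z * f z v = ∑ z ∈ Z, l z * f z u := by
      intro u hu
      rw [t2 u hu u0 hu0S]
      exact CharTwo.add_eq_zero.1 h8
    refine ⟨?_, t1, ?_⟩
    · intro u hu
      rw [h3 u hu, h9 u (mem_filter.1 hu).1]
      exact add_self' _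
    · intro u hu w hw
      rcases mem_insert.1 hu with rfl | hu' <;> rcases mem_insert.1 hw with rfl | hw'
      · rfl
      · exact h9 w hw'
      · exact (h9 u hu').symm
      · exact t2 u hu' w hw'
  have hind : ∀ l : K → K, (∀ u ∈ N, ∑ z ∈ Z, l z * x z v u = 0) → ∀ z ∈ Z, l z = 0 := by
    apply min_supp Z (fun z => z)
    · intro i _ j _ hij
      exact hij
    · intro l m hl hm s u hu
      simp only [sub_mul, sum_sub_distrib, hm u hu, mul_assoc, ← mul_sum, hl u hu, mul_zero,
        sub_zero]
    · intro l hl u hu
      have h1 := (key l hl).1 u hu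
      rw [← h1]
      exact sum_congr rfl fun z _ => by ring
    · intro z hz l hl hlz hzero
      apply hnt z hz
      obtain ⟨k1, k2, k3⟩ := key l hl
      have hsing : ∀ F : K → K, ∑ w ∈ Z, l w * F w = l z * F z := by
        intro F
        apply sum_eq_single z
        · intro w hw hwz
          rw [hzero w hw hwz, zero_mul]
        · intro h
          exact absurd hz h
      have hx0 : ∀ u ∈ S, x z v u = 0 := by
        intro u hu
        by_cases hun : u ∈ N
        · have h1 := hl u hun
          rw [hsing] at h1
          exact (mul_eq_zero.1 h1).resolve_left hlz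
        · exact hvN z hz u hu hun
      constructor
      · intro u hu w hw
        rcases mem_insert.1 hu with rfl | hu' <;> rcases mem_insert.1 hw with rfl | hw'
        · exact hvv z hz
        · exact hx0 w hw'
        · rw [(hsol z hz).sym u hu w hw]
          exact hx0 u hu'
        · have h1 := k2 u hu' w hw'
          rw [hsing] at h1
          exact (mul_eq_zero.1 h1).resolve_left hlz
      · intro u hu w hw
        have h1 := k3 u hu w hw
        rw [hsing, hsing] at h1
        exact mul_left_cancel₀ hlz h1
  obtain ⟨l, ⟨z, hz, hlz⟩, hl⟩ := exists_relation Z N (fun z u => x z v u)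
    (lt_of_le_of_lt (card_le_card (filter_subset _ _)) hZ)
  exact hlz (hind l hl z hz)

/-- **Orders give nondegenerate weightings.** -/
theorem nd_of_dc {c : V → V → ZMod 2} (hsym : ∀ u v, c u v = c v u) (hdiag : ∀ u, c u u = 0)
    {S : Finset V} {r : V} (h : DC c r S) (Z : Finset K) (hZ : S.card ≤ Z.card) :
    ∃ p : V → K, ND c S p := by
  induction h with
  | base =>
    refine ⟨fun _ => 0, fun x f h => ⟨?_, ?_⟩⟩
    · intro u hu v hv
      have h1 := h.row r (mem_singleton_self r)
      rw [sum_singleton] at h1
      rw [mem_singleton] at hu hv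
      rw [hu, hv]
      exact h1
    · intro u hu v hv
      rw [mem_singleton] at hu hv
      rw [hu, hv]
  | add S v hv hs _ ih =>
    rw [card_insert_of_notMem hv] at hZ
    obtain ⟨p, hp⟩ := ih (by omega)
    obtain ⟨z, _, hz⟩ := nd_add hsym hdiag hp hv hs Z (by omega)
    exact ⟨_, hz⟩

/-- **Nondegenerate weightings over infinite fields give orders.** -/
theorem dc_of_nd [Infinite K] {c : V → V → ZMod 2} (hsym : ∀ u v, c u v = c v u)
    (hdiag : ∀ u, c u u = 0) {S : Finset V} {p : V → K} (hnd : ND c S p) {r : V} (hr : r ∈ S) :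
    DC c r S := by
  by_cases h2 : 2 ≤ S.card
  · obtain ⟨q, h3, h4⟩ := nd_inj hsym hdiag hnd h2
    exact dc_of_nd_inj S.card c hsym hdiag S q r rfl hr h3 h4
  · have h3 : 0 < S.card := card_pos.2 ⟨r, hr⟩
    obtain ⟨s, hs⟩ := card_eq_one.1 (by omega : S.card = 1)
    subst hs
    rw [mem_singleton] at hr
    subst hr
    exact DC.base

end char2

end Pool.Agent.H203
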