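import Pool.Agent.H203.Rad
import Pool.Agent.H442R3.MPar.Pot

/-!
# Local minima of the potential have maximum rank, in the presence of a constant term
-/

namespace Pool.Agent.H203

open Module Pool.Agent.H442R3.MPar

variable {F : Type*} [Field F] {V : Type*} [AddCommGroup V] [Module F V] [FiniteDimensional F V]
variable {ι : Type*} [Fintype ι] [DecidableEq ι]

/-- the alternating map with a constant term -/
noncomputable def AB (A0 : Dual F V →ₗ[F] V) (a b : ι → V) (x : ι → F) : Dual F V →ₗ[F] V :=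
  A0 + AL a b x

omit [FiniteDimensional F V] [DecidableEq ι] in
theorem alt_AB {A0 : Dual F V →ₗ[F] V} (h0 : Alt A0) (a b : ι → V) (x : ι → F) :
    Alt (AB A0 a b x) := h0.add (alt_AL a b x)

omit [FiniteDimensional F V] in
theorem AB_update (A0 : Dual F V →ₗ[F] V) (a b : ι → V) (x : ι → F) (k : ι) (v : F) :
    AB A0 a b (Function.update x k v) = mv (AB A0 a b x) (v - x k) (a k) (b k) := by
  rw [AB, AL_update, mv, mv, AB, add_assoc]

/-- the potential -/
noncomputable def Psi0 (A0 : Dual F V →ₗ[F] V) (a b : ι → V) (x : ι → F) : ℕ :=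
  ∑ p : Option ι × Option ι, nl a b (AB A0 a b x) p.1 p.2

theorem one_step0 [Fintype F] {A0 : Dual F V →ₗ[F] V} (h0 : Alt A0) (a b : ι → V) (x : ι → F)
    (hcard : (Fintype.card ι + 1) ^ 2 * (finrank F V + 2) + 2 < Fintype.card F)
    (k : ι) (hmin : ∀ v, Psi0 A0 a b x ≤ Psi0 A0 a b (Function.update x k v))
    (E : Finset F) (hE : E.card ≤ 2) :
    ∃ z ∉ E, Same a b (AB A0 a b x) (mv (AB A0 a b x) z (a k) (b k)) ∧
      Psi0 A0 a b (Function.update x k (x k + z)) = Psi0 A0 a b x := by
  obtain ⟨z, hz, hle⟩ := good_z a b (AB A0 a b x) k hcard E hE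
  have e1 : AB A0 a b (Function.update x k (x k + z)) = mv (AB A0 a b x) z (a k) (b k) := by
    rw [AB_update, add_sub_cancel_left]
  have h1 : Psi0 A0 a b (Function.update x k (x k + z)) ≤ Psi0 A0 a b x := by
    rw [Psi0, Psi0, e1]
    exact Finset.sum_le_sum fun p _ => hle p.1 p.2
  have h2 := le_antisymm h1 (hmin (x k + z))
  refine ⟨z, hz, ?_, h2⟩
  have h3 := h2
  rw [Psi0, Psi0, e1] at h3
  rw [Finset.sum_eq_sum_iff_of_le (fun p _ => hle p.1 p.2)] at h3
  exact same_of_nl (alt_AB h0 a b x) (alt_mv (alt_AB h0 a b x) _ _ _)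
    fun j k' => h3 (j, k') (Finset.mem_univ _)

/-- **A local minimum of the potential is two-step stuck.** -/
theorem stuck_of_min0 [Fintype F] {A0 : Dual F V →ₗ[F] V} (h0 : Alt A0) (a b : ι → V) (x : ι → F)
    (hcard : (Fintype.card ι + 1) ^ 2 * (finrank F V + 2) + 2 < Fintype.card F)
    (hmin : ∀ k v k' v', Psi0 A0 a b x ≤
      Psi0 A0 a b (Function.update (Function.update x k v) k' v')) :
    S2 a b (AB A0 a b x) := by
  intro k E hE
  have hm1 : ∀ v, Psi0 A0 a b x ≤ Psi0 A0 a b (Function.update x k v) := by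
    intro v
    have := hmin k v k v
    rwa [Function.update_idem] at this
  obtain ⟨z, hz, hs, hps⟩ := one_step0 h0 a b x hcard k hm1 E hE
  refine ⟨z, hz, hs, ?_⟩
  have e1 : AB A0 a b (Function.update x k (x k + z)) = mv (AB A0 a b x) z (a k) (b k) := by
    rw [AB_update, add_sub_cancel_left]
  rw [← e1]
  intro k' E' hE'
  obtain ⟨z', hz', hs', _⟩ := one_step0 h0 a b (Function.update x k (x k + z)) hcard k'
    (fun v' => by rw [hps]; exact hmin k (x k + z) k' v') E' hE'
  exact ⟨z', hz', hs'⟩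

/-- **Main algebraic theorem.** -/
theorem rank_of_min0 [Fintype F] {A0 : Dual F V →ₗ[F] V} (h0 : Alt A0) (a b : ι → V)
    (hdim : ∀ i, finrank F (ln F (a i) (b i)) = 2) (x : ι → F)
    (hcard : (Fintype.card ι + 1) ^ 2 * (finrank F V + 2) + 2 < Fintype.card F)
    (hmin : ∀ k v k' v', Psi0 A0 a b x ≤
      Psi0 A0 a b (Function.update (Function.update x k v) k' v')) (y : ι → F) :
    finrank F (LinearMap.ker (AB A0 a b x)) ≤ finrank F (LinearMap.ker (AB A0 a b y)) := by
  have h := stuck_max (alt_AB h0 a b x) (stuck_of_min0 h0 a b x hcard hmin) hdim (fun i => y i - x i)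
  have e : AB A0 a b x + ∑ i, (y i - x i) • bv (F := F) (a i) (b i) = AB A0 a b y := by
    simp only [AB, AL, sub_smul, Finset.sum_sub_distrib]
    abel
  rwa [e] at h

end Pool.Agent.H203
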