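import Pool.Agent.H442R3.MPar.Opt

/-!
# The rank at a two-step stuck point is maximum, in the presence of a constant term
-/

namespace Pool.Agent.H203

open Module Pool.Agent.H442R3.MPar

section odd

variable {F : Type*} [Field F]

/-- an alternating form on an odd-dimensional space is degenerate, in every characteristic -/
theorem exists_rad : ∀ (k : ℕ) (X : Type*) [AddCommGroup X] [Module F X] [FiniteDimensional F X]
    (B : X →ₗ[F] X →ₗ[F] F), (∀ x, B x x = 0) → finrank F X = 2 * k + 1 →
    ∃ r, r ≠ 0 ∧ ∀ y, B r y = 0 := by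
  intro k
  induction k with
  | zero =>
    intro X _ _ _ B hB hd
    obtain ⟨r, hr0, hr⟩ := finrank_eq_one_iff'.1 (by simpa using hd)
    refine ⟨r, hr0, fun y => ?_⟩
    obtain ⟨c, rfl⟩ := hr y
    rw [map_smul, hB, smul_zero]
  | succ k ih =>
    intro X _ _ _ B hB hd
    have hskew : ∀ x y, B x y = - B y x := by
      intro x y
      have h := hB (x + y)
      simp only [LinearMap.add_apply, map_add] at h
      rw [hB x, hB y] at h
      linear_combination h
    by_cases hz : ∀ x y, B x y = 0
    · have : Nontrivial X := Module.nontrivial_of_finrank_pos (R := F) (by omega)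
      obtain ⟨r, hr⟩ := exists_ne (0 : X)
      exact ⟨r, hr, hz r⟩
    push Not at hz
    obtain ⟨e, f, hef⟩ := hz
    let g : X →ₗ[F] (F × F) := LinearMap.prod (B e) (B f)
    let Y := LinearMap.ker g
    have hg : Function.Surjective g := by
      rintro ⟨s, t⟩
      refine ⟨(s / B e f) • f + (t / B f e) • e, ?_⟩
      have h1 : B f e ≠ 0 := by rw [hskew]; exact neg_ne_zero.2 hef
      change (B e _, B f _) = _
      simp only [map_add, map_smul, hB, smul_eq_mul, mul_zero, add_zero, zero_add]
      rw [div_mul_cancel₀ _ hef, div_mul_cancel₀ _ h1]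
    have hY : finrank F Y = 2 * k + 1 := by
      have h1 := LinearMap.finrank_range_add_finrank_ker g
      rw [LinearMap.range_eq_top.2 hg, finrank_top, Module.finrank_prod, Module.finrank_self] at h1
      change 1 + 1 + finrank F Y = _ at h1
      omega
    obtain ⟨r, hr0, hr⟩ := ih Y ((B.domRestrict Y).compl₂ Y.subtype) (fun x => hB x) hY
    refine ⟨r, fun h => hr0 (Subtype.ext h), fun y => ?_⟩
    have hrY : g r = 0 := r.2
    have he : B e r = 0 := congrArg Prod.fst hrY
    have hf : B f r = 0 := congrArg Prod.snd hrY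
    have h1 : B f e ≠ 0 := by rw [hskew]; exact neg_ne_zero.2 hef
    have hy : g (y - ((B e y / B e f) • f + (B f y / B f e) • e)) = 0 := by
      change (B e _, B f _) = _
      simp only [map_sub, map_add, map_smul, hB, smul_eq_mul, mul_zero, add_zero, zero_add]
      rw [div_mul_cancel₀ _ hef, div_mul_cancel₀ _ h1, sub_self, sub_self]
      rfl
    have h2 : B r (y - ((B e y / B e f) • f + (B f y / B f e) • e)) = 0 := hr ⟨_, hy⟩
    have he' : B r e = 0 := by rw [hskew, he, neg_zero]
    have hf' : B r f = 0 := by rw [hskew, hf, neg_zero]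
    rw [map_sub, map_add, map_smul, map_smul, he', hf'] at h2
    simpa using h2

end odd

section

variable {F : Type*} [Field F] {V : Type*} [AddCommGroup V] [Module F V]

/-- combination of all vectors -/
def cmb (F : Type*) [Field F] {V : Type*} [AddCommGroup V] [Module F V] {ι : Type*} [Fintype ι]
    (a b : ι → V) : ((ι → F) × (ι → F)) →ₗ[F] V :=
  LinearMap.coprod (Fintype.linearCombination F a) (Fintype.linearCombination F b)

theorem cmb_apply {ι : Type*} [Fintype ι] (a b : ι → V) (v : (ι → F) × (ι → F)) :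
    cmb F a b v = ∑ i, (v.1 i • a i + v.2 i • b i) := by
  rw [cmb, LinearMap.coprod_apply, Fintype.linearCombination_apply,
    Fintype.linearCombination_apply, Finset.sum_add_distrib]

/-- the symplectic form with weights `t` -/
def tau {ι : Type*} [Fintype ι] (t : ι → F) (v w : (ι → F) × (ι → F)) : F :=
  ∑ i, (t i)⁻¹ * (v.1 i * w.2 i - v.2 i * w.1 i)

theorem tau_add_left {ι : Type*} [Fintype ι] (t : ι → F) (v v' w : (ι → F) × (ι → F)) :
    tau t (v + v') w = tau t v w + tau t v' w := by
  simp only [tau, ← Finset.sum_add_distrib]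
  apply Finset.sum_congr rfl
  intro i _
  simp only [Prod.fst_add, Prod.snd_add, Pi.add_apply]
  ring

theorem tau_smul_left {ι : Type*} [Fintype ι] (t : ι → F) (c : F) (v w : (ι → F) × (ι → F)) :
    tau t (c • v) w = c * tau t v w := by
  simp only [tau, Finset.mul_sum]
  apply Finset.sum_congr rfl
  intro i _
  simp only [Prod.smul_fst, Prod.smul_snd, Pi.smul_apply, smul_eq_mul]
  ring

theorem tau_add_right {ι : Type*} [Fintype ι] (t : ι → F) (v w w' : (ι → F) × (ι → F)) :
    tau t v (w + w') = tau t v w + tau t v w' := by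
  simp only [tau, ← Finset.sum_add_distrib]
  apply Finset.sum_congr rfl
  intro i _
  simp only [Prod.fst_add, Prod.snd_add, Pi.add_apply]
  ring

theorem tau_smul_right {ι : Type*} [Fintype ι] (t : ι → F) (c : F) (v w : (ι → F) × (ι → F)) :
    tau t v (c • w) = c * tau t v w := by
  simp only [tau, Finset.mul_sum]
  apply Finset.sum_congr rfl
  intro i _
  simp only [Prod.smul_fst, Prod.smul_snd, Pi.smul_apply, smul_eq_mul]
  ring

theorem tau_self {ι : Type*} [Fintype ι] (t : ι → F) (v : (ι → F) × (ι → F)) : tau t v v = 0 := by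
  rw [tau]
  apply Finset.sum_eq_zero
  intro i _
  ring

theorem tau_nondeg {ι : Type*} [Fintype ι] [DecidableEq ι] (t : ι → F) (ht : ∀ i, t i ≠ 0)
    (v : (ι → F) × (ι → F)) (h : ∀ w, tau t v w = 0) : v = 0 := by
  ext i
  · have h1 := h (0, Pi.single i 1)
    rw [tau, Finset.sum_eq_single i] at h1
    · simp only [Pi.single_eq_same, Pi.zero_apply, mul_one, mul_zero, sub_zero] at h1
      exact (mul_eq_zero.1 h1).resolve_left (inv_ne_zero (ht i))
    · intro j _ hj
      simp [Pi.single_eq_of_ne hj]
    · simp
  · have h1 := h (Pi.single i 1, 0)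
    rw [tau, Finset.sum_eq_single i] at h1
    · simp only [Pi.single_eq_same, Pi.zero_apply, mul_one, mul_zero, zero_sub, mul_neg] at h1
      exact (mul_eq_zero.1 (neg_eq_zero.1 h1)).resolve_left (inv_ne_zero (ht i))
    · intro j _ hj
      simp [Pi.single_eq_of_ne hj]
    · simp

variable [FiniteDimensional F V]

theorem odd_class2 {A : Dual F V →ₗ[F] V} (hA : Alt A) {ι : Type*} [Fintype ι] [DecidableEq ι]
    {a b : ι → V} (t : ι → F) {η : Dual F V} {v0 : (ι → F) × (ι → F)}
    (h0 : η (cmb F a b v0) ≠ 0)
    (hC : ∀ v, η (cmb F a b v) = 0 → cmb F a b v ∈ LinearMap.range A) :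
    ∃ (r : (ι → F) × (ι → F)) (φ : Dual F V), r ≠ 0 ∧ A φ = cmb F a b r ∧
      ∀ v, η (cmb F a b v) = 0 → φ (cmb F a b v) + tau t r v = 0 := by
  classical
  let f : Dual F ((ι → F) × (ι → F)) := η.comp (cmb F a b)
  have hf : f ≠ 0 := by
    intro h
    exact h0 (by simpa [f] using congrArg (fun g : Dual F ((ι → F) × (ι → F)) => g v0) h)
  let X := LinearMap.ker f
  have hX : finrank F X + 1 = 2 * Fintype.card ι := by
    have h1 := Module.Dual.finrank_ker_add_one_of_ne_zero hf
    rw [h1, Module.finrank_prod, Module.finrank_fintype_fun_eq_card]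
    omega
  obtain ⟨s, hs⟩ := A.rangeRestrict.exists_rightInverse_of_surjective
    (LinearMap.range_rangeRestrict A)
  have hs' : ∀ p : LinearMap.range A, A (s p) = p := by
    intro p
    have := congrArg Subtype.val (LinearMap.congr_fun hs p)
    simpa using this
  let g : X →ₗ[F] LinearMap.range A := LinearMap.codRestrict (LinearMap.range A)
    ((cmb F a b).domRestrict X) (fun v => hC v (LinearMap.mem_ker.1 v.2))
  let B : X →ₗ[F] X →ₗ[F] F := LinearMap.mk₂ F
    (fun v w => s (g v) (cmb F a b w) + tau t v.1 w.1)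
    (fun v v' w => by
      rw [map_add, map_add, LinearMap.add_apply, Submodule.coe_add, tau_add_left]
      ring)
    (fun c v w => by
      rw [map_smul, map_smul, LinearMap.smul_apply, Submodule.coe_smul, tau_smul_left,
        smul_eq_mul, smul_eq_mul]
      ring)
    (fun v w w' => by
      rw [Submodule.coe_add, map_add, map_add, tau_add_right]
      ring)
    (fun c v w => by
      rw [Submodule.coe_smul, map_smul, map_smul, tau_smul_right, smul_eq_mul, smul_eq_mul]
      ring)
  have hB : ∀ v w : X, B v w = s (g v) (cmb F a b w) + tau t v.1 w.1 := fun v w => rfl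
  have hg : ∀ v : X, ((g v : LinearMap.range A) : V) = cmb F a b v := fun v => rfl
  have hBa : ∀ v : X, B v v = 0 := by
    intro v
    rw [hB, tau_self, add_zero, ← hg, ← hs' (g v)]
    exact hA _
  obtain ⟨r, hr0, hr⟩ := exists_rad (F := F) (Fintype.card ι - 1) X B hBa (by omega)
  refine ⟨r, s (g r), fun h => hr0 (Subtype.ext h), by rw [hs', hg], ?_⟩
  intro v hv
  exact hr ⟨v, hv⟩

theorem dim_aux {S E D O : Type*} [AddCommGroup S] [Module F S] [FiniteDimensional F S]
    [AddCommGroup E] [Module F E] [FiniteDimensional F E] [AddCommGroup D] [Module F D]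
    [FiniteDimensional F D] [Fintype O] (Λ : S →ₗ[F] Dual F E) (Z : E →ₗ[F] (O → F))
    (hvan : ∀ x w, Z w = 0 → Λ x w = 0) (Φ : S →ₗ[F] D) (K : Submodule F D)
    (hker : ∀ x, Λ x = 0 → Φ x ∈ K ∧ (Φ x = 0 → x = 0)) :
    finrank F S ≤ finrank F K + Fintype.card O := by
  have d1 : finrank F (LinearMap.range Λ) ≤ Fintype.card O := by
    have h1 : LinearMap.range Λ ≤ (LinearMap.ker Z).dualAnnihilator := by
      rintro _ ⟨x, rfl⟩
      rw [Submodule.mem_dualAnnihilator]
      intro w hw
      exact hvan x w hw
    have h2 := Submodule.finrank_mono h1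
    have h3 := Subspace.finrank_add_finrank_dualAnnihilator_eq (LinearMap.ker Z)
    have h4 := LinearMap.finrank_range_add_finrank_ker Z
    have h5 : finrank F (LinearMap.range Z) ≤ Fintype.card O := by
      have := Submodule.finrank_le (LinearMap.range Z)
      rwa [Module.finrank_fintype_fun_eq_card] at this
    omega
  have d2 := LinearMap.finrank_range_add_finrank_ker Λ
  have d4 : finrank F (LinearMap.ker Λ) ≤ finrank F K := by
    let Ψ : LinearMap.ker Λ →ₗ[F] K :=
      LinearMap.codRestrict _ (Φ.domRestrict (LinearMap.ker Λ)) (fun x => (hker x.1 x.2).1)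
    apply LinearMap.finrank_le_finrank_of_injective (f := Ψ)
    rw [← LinearMap.ker_eq_bot, LinearMap.ker_eq_bot']
    intro x hx
    exact Subtype.ext ((hker x.1 x.2).2 (congrArg Subtype.val hx))
  omega

theorem finrank_prod_aux {S T : Type*} [AddCommGroup S] [Module F S] [FiniteDimensional F S]
    [AddCommGroup T] [Module F T] [FiniteDimensional F T] :
    finrank F (S × T) = finrank F S + finrank F T := Module.finrank_prod

/-- **Upper bound.** -/
theorem upper2 {A : Dual F V →ₗ[F] V} (hA : Alt A) {ι : Type*} [Fintype ι] [DecidableEq ι]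
    {a b : ι → V} (t : ι → F) (ht : ∀ i, t i ≠ 0)
    {C : Type*} [Fintype C] [DecidableEq C] (cl : ι → C) (W : C → Submodule F V)
    (hW : ∀ i, a i ∈ W (cl i) ∧ b i ∈ W (cl i))
    (hC : ∀ c η, A η = 0 → (∃ p ∈ W c, η p ≠ 0) → ∀ p ∈ W c, η p = 0 → p ∈ LinearMap.range A)
    (hO : ∀ c c', c ≠ c' → ∀ φ, A φ ∈ W c → ∀ p ∈ W c', p ∈ LinearMap.range A → φ p = 0) :
    finrank F (LinearMap.ker A) ≤
      finrank F (LinearMap.ker (A + ∑ i, t i • bv (F := F) (a i) (b i))) := by
  classical
  -- classes
  let ic : C → Type _ := fun c => {i // cl i = c}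
  let ca : (c : C) → ((ic c → F) × (ic c → F)) →ₗ[F] V := fun c =>
    cmb F (fun i : ic c => a i) (fun i : ic c => b i)
  let tc : (c : C) → (ic c → F) := fun c i => t i
  let res : (c : C) → ((ι → F) × (ι → F)) →ₗ[F] ((ic c → F) × (ic c → F)) := fun c =>
    LinearMap.prodMap (LinearMap.funLeft F F (fun i : ic c => (i : ι)))
      (LinearMap.funLeft F F (fun i : ic c => (i : ι)))
  have hres1 : ∀ c v (i : ic c), (res c v).1 i = v.1 i := fun c v i => rfl
  have hres2 : ∀ c v (i : ic c), (res c v).2 i = v.2 i := fun c v i => rfl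
  let inc : (c : C) → ((ic c → F) × (ic c → F)) → ((ι → F) × (ι → F)) := fun c v =>
    (fun i => if h : cl i = c then v.1 ⟨i, h⟩ else 0, fun i => if h : cl i = c then v.2 ⟨i, h⟩ else 0)
  have hsumf : ∀ f : ι → F, ∑ i, f i = ∑ c, ∑ i : ic c, f i := by
    intro f
    rw [← Finset.sum_fiberwise_of_maps_to (s := Finset.univ) (t := Finset.univ) (g := cl)
      (fun _ _ => Finset.mem_univ _)]
    apply Finset.sum_congr rfl
    intro c _
    rw [Finset.sum_subtype (p := fun i => cl i = c) (Finset.univ.filter (fun i => cl i = c))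
      (fun i => by simp) f]
  have hsumV : ∀ f : ι → V, ∑ i, f i = ∑ c, ∑ i : ic c, f i := by
    intro f
    rw [← Finset.sum_fiberwise_of_maps_to (s := Finset.univ) (t := Finset.univ) (g := cl)
      (fun _ _ => Finset.mem_univ _)]
    apply Finset.sum_congr rfl
    intro c _
    rw [Finset.sum_subtype (p := fun i => cl i = c) (Finset.univ.filter (fun i => cl i = c))
      (fun i => by simp) f]
  have hcmb : ∀ v, cmb F a b v = ∑ c, ca c (res c v) := by
    intro v
    rw [cmb_apply, hsumV]
    apply Finset.sum_congr rfl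
    intro c _
    rw [cmb_apply]
    rfl
  have hcainc : ∀ c v, cmb F a b (inc c v) = ca c v := by
    intro c v
    rw [cmb_apply, hsumV, Finset.sum_eq_single c]
    · rw [cmb_apply]
      apply Finset.sum_congr rfl
      rintro ⟨i, hi⟩ _
      simp only [inc, hi, dif_pos]
    · intro c' _ hc'
      apply Finset.sum_eq_zero
      rintro ⟨i, hi⟩ _
      have : cl i ≠ c := by rw [hi]; exact hc'
      simp only [inc, this, dif_neg, not_false_eq_true, zero_smul, add_zero]
    · simp
  have htauinc : ∀ c v w, tau t (inc c v) w = tau (tc c) v (res c w) := by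
    intro c v w
    rw [tau, hsumf, Finset.sum_eq_single c]
    · rw [tau]
      apply Finset.sum_congr rfl
      rintro ⟨i, hi⟩ _
      simp only [inc, hi, dif_pos, tc, hres1, hres2]
    · intro c' _ hc'
      apply Finset.sum_eq_zero
      rintro ⟨i, hi⟩ _
      have : cl i ≠ c := by rw [hi]; exact hc'
      simp only [inc, this, dif_neg, not_false_eq_true, zero_mul, sub_zero, mul_zero]
    · simp
  have hcaW : ∀ c v, ca c v ∈ W c := by
    intro c v
    rw [cmb_apply]
    refine Submodule.sum_mem _ fun i _ => ?_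
    have h1 := hW i
    rw [i.2] at h1
    exact Submodule.add_mem _ (Submodule.smul_mem _ _ h1.1) (Submodule.smul_mem _ _ h1.2)
  -- odd classes
  let O : Finset C := Finset.univ.filter (fun c => ∃ v, ca c v ∉ LinearMap.range A)
  have hO1 : ∀ c : O, ∃ η : Dual F V, A η = 0 ∧ ∃ v, η (ca c v) ≠ 0 := by
    rintro ⟨c, hc⟩
    obtain ⟨v, hv⟩ := (Finset.mem_filter.1 hc).2
    rw [hA.mem_range_iff] at hv
    push Not at hv
    obtain ⟨η, h1, h3⟩ := hv
    exact ⟨η, h1, v, h3⟩
  choose η hη v0 hv0 using hO1
  have hO2 : ∀ c : O, ∃ (r : (ic c → F) × (ic c → F)) (φ : Dual F V), r ≠ 0 ∧ A φ = ca c r ∧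
      ∀ v, η c (ca c v) = 0 → φ (ca c v) + tau (tc c) r v = 0 := by
    intro c
    exact odd_class2 hA (tc c) (hv0 c) (fun v hv => hC c (η c) (hη c)
      ⟨_, hcaW c _, hv0 c⟩ _ (hcaW c _) hv)
  choose r φ hr0 hφr hφk using hO2
  have hcar : ∀ (c : O) v, η c (ca c v) = 0 → ca c v ∈ LinearMap.range A := fun c v hv =>
    hC c (η c) (hη c) ⟨_, hcaW c _, hv0 c⟩ _ (hcaW c _) hv
  -- the linear map to functionals
  let Z : ((ι → F) × (ι → F)) →ₗ[F] (O → F) := LinearMap.pi fun c =>
    (η c).comp ((ca c).comp (res c))
  let ρ : (O → F) → ((ι → F) × (ι → F)) := fun s => ∑ c : O, s c • inc c (r c)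
  let Φ : ((LinearMap.ker A) × (O → F)) →ₗ[F] Dual F V := LinearMap.coprod (LinearMap.ker A).subtype
    (Fintype.linearCombination F φ)
  have hΦ : ∀ x : (LinearMap.ker A) × (O → F), Φ x = x.1.1 + ∑ c, x.2 c • φ c := by
    intro x
    rw [LinearMap.coprod_apply, Fintype.linearCombination_apply]
    rfl
  have tausum : ∀ (f : O → ((ι → F) × (ι → F))) (s : O → F) w,
      tau t (∑ c : O, s c • f c) w = ∑ c : O, s c * tau t (f c) w := by
    intro f s w
    have : ∀ T : Finset O, tau t (∑ c ∈ T, s c • f c) w = ∑ c ∈ T, s c * tau t (f c) w := by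
      intro T
      induction T using Finset.induction_on with
      | empty => simp [tau]
      | insert c T hc ih =>
        rw [Finset.sum_insert hc, Finset.sum_insert hc, tau_add_left, tau_smul_left, ih]
    exact this _
  let Λ : ((LinearMap.ker A) × (O → F)) →ₗ[F] Dual F ((ι → F) × (ι → F)) := LinearMap.mk₂ F
    (fun x w => Φ x (cmb F a b w) + tau t (ρ x.2) w)
    (fun x y w => by
      have e1 : ρ (x + y).2 = ρ x.2 + ρ y.2 := by
        simp only [ρ]
        rw [← Finset.sum_add_distrib]
        exact Finset.sum_congr rfl fun c _ => add_smul (x.2 c) (y.2 c) _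
      rw [map_add, LinearMap.add_apply, e1, tau_add_left]
      ring)
    (fun c x w => by
      have e1 : ρ (c • x).2 = c • ρ x.2 := by
        simp only [ρ]
        rw [Finset.smul_sum]
        exact Finset.sum_congr rfl fun i _ => mul_smul c (x.2 i) _
      rw [map_smul, LinearMap.smul_apply, e1, tau_smul_left, smul_eq_mul, smul_eq_mul]
      ring)
    (fun x w w' => by
      rw [map_add, map_add, tau_add_right]
      ring)
    (fun c x w => by
      rw [map_smul, map_smul, tau_smul_right, smul_eq_mul, smul_eq_mul]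
      ring)
  have hΛ : ∀ x w, Λ x w = Φ x (cmb F a b w) + tau t (ρ x.2) w := fun x w => rfl
  -- vanishing
  have hvan : ∀ x w, Z w = 0 → Λ x w = 0 := by
    intro x w hw
    have hw' : ∀ c, ca c (res c w) ∈ LinearMap.range A := by
      intro c
      by_cases hc : c ∈ O
      · exact hcar ⟨c, hc⟩ _ (congrFun hw ⟨c, hc⟩)
      · by_contra hno
        exact hc (Finset.mem_filter.2 ⟨Finset.mem_univ _, _, hno⟩)
    have hcw : cmb F a b w ∈ LinearMap.range A := by
      rw [hcmb]
      exact Submodule.sum_mem _ fun c _ => hw' c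
    rw [hΛ, hΦ, LinearMap.add_apply, hA.ker_kills x.1.2 hcw, zero_add, LinearMap.sum_apply, tausum,
      ← Finset.sum_add_distrib]
    apply Finset.sum_eq_zero
    intro c _
    rw [LinearMap.smul_apply, smul_eq_mul, ← mul_add, htauinc]
    have e1 : φ c (cmb F a b w) = φ c (ca c (res c w)) := by
      rw [hcmb, map_sum, Finset.sum_eq_single (c : C)]
      · intro c' _ hc'
        exact hO c c' hc'.symm (φ c) (by rw [hφr]; exact hcaW c _) _ (hcaW c' _) (hw' c')
      · simp
    rw [e1, hφk c _ (congrFun hw c), mul_zero]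
  -- kernel elements
  have hker : ∀ x, Λ x = 0 →
      Φ x ∈ LinearMap.ker (A + ∑ i, t i • bv (F := F) (a i) (b i)) ∧ (Φ x = 0 → x = 0) := by
    intro x hx
    -- delta
    let δ : (ι → F) × (ι → F) := (fun i => t i * Φ x (b i), fun i => - (t i * Φ x (a i)))
    have hδ : ∀ w, tau t δ w = Φ x (cmb F a b w) := by
      intro w
      rw [cmb_apply, map_sum, tau]
      apply Finset.sum_congr rfl
      intro i _
      rw [map_add, map_smul, map_smul, smul_eq_mul, smul_eq_mul]
      simp only [δ]
      have := ht i
      field_simp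
      ring
    have h1 : δ + ρ x.2 = 0 := by
      apply tau_nondeg t ht
      intro w
      rw [tau_add_left, hδ, ← hΛ, hx]
      rfl
    constructor
    · rw [LinearMap.mem_ker, LinearMap.add_apply, LinearMap.sum_apply]
      have e1 : A (Φ x) = cmb F a b (ρ x.2) := by
        rw [hΦ, map_add, x.1.2, zero_add, map_sum]
        simp only [ρ, map_sum, map_smul, hφr, hcainc]
      have e2 : ∑ i, (t i • bv (F := F) (a i) (b i)) (Φ x) = cmb F a b δ := by
        rw [cmb_apply]
        apply Finset.sum_congr rfl
        intro i _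
        rw [LinearMap.smul_apply, bv_apply, smul_sub, smul_smul, smul_smul, neg_smul,
          sub_eq_add_neg]
      rw [e1, e2, ← map_add, add_comm, h1, map_zero]
    · intro h0
      have hδ0 : δ = 0 := by
        ext i
        · simp only [δ, h0, LinearMap.zero_apply, mul_zero]; rfl
        · simp only [δ, h0, LinearMap.zero_apply, mul_zero, neg_zero]; rfl
      rw [hδ0, zero_add] at h1
      have hs : x.2 = 0 := by
        funext c
        by_contra hc
        apply hr0 c
        have h2 := congrArg (res (c : C)) h1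
        rw [map_sum, map_zero, Finset.sum_eq_single c] at h2
        · rw [map_smul] at h2
          have h3 : res (c : C) (inc (c : C) (r c)) = r c := by
            ext ⟨i, hi⟩
            · rw [hres1]; simp only [inc, hi, dif_pos]
            · rw [hres2]; simp only [inc, hi, dif_pos]
          rw [h3] at h2
          exact (smul_eq_zero.1 h2).resolve_left hc
        · intro c' _ hc'
          have hne : (c' : C) ≠ (c : C) := fun h => hc' (Subtype.ext h)
          rw [map_smul]
          have h3 : res (c : C) (inc (c' : C) (r c')) = 0 := by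
            ext ⟨i, hi⟩
            · rw [hres1]
              have : cl i ≠ c' := by rw [hi]; exact hne.symm
              simp only [inc, this, dif_neg, not_false_eq_true]; rfl
            · rw [hres2]
              have : cl i ≠ c' := by rw [hi]; exact hne.symm
              simp only [inc, this, dif_neg, not_false_eq_true]; rfl
          rw [h3, smul_zero]
        · simp
      have hx1 : x.1 = 0 := by
        apply Subtype.ext
        rw [hΦ, hs] at h0
        simpa using h0
      exact Prod.ext hx1 hs
  -- dimension count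
  have h1 := dim_aux (F := F) (S := (LinearMap.ker A) × (O → F)) (E := (ι → F) × (ι → F))
    (D := Dual F V) (O := O) Λ Z hvan Φ
    (LinearMap.ker (A + ∑ i, t i • bv (F := F) (a i) (b i))) hker
  have d3 : finrank F ((LinearMap.ker A) × (O → F)) = finrank F (LinearMap.ker A) + O.card := by
    have h2 := finrank_prod_aux (F := F) (S := LinearMap.ker A) (T := O → F)
    rw [Module.finrank_fintype_fun_eq_card, Fintype.card_coe] at h2
    exact h2
  rw [Fintype.card_coe] at h1
  omega

/-- **A two-step stuck point has maximum rank.** -/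
theorem stuck_max {ι : Type*} [Fintype ι] {a b : ι → V} {A : Dual F V →ₗ[F] V} (hA : Alt A)
    (hS : S2 a b A) (h2 : ∀ i, finrank F (ln F (a i) (b i)) = 2) (x : ι → F) :
    finrank F (LinearMap.ker A) ≤
      finrank F (LinearMap.ker (A + ∑ i, x i • bv (F := F) (a i) (b i))) := by
  classical
  have : Finite (LG a b A hA).ConnectedComponent := Quot.finite _
  have := Fintype.ofFinite (LG a b A hA).ConnectedComponent
  have h := upper2 hA (ι := {i // x i ≠ 0}) (a := fun i => a i) (b := fun i => b i)
    (fun i => x i) (fun i => i.2) (fun i => lcl a b A hA i) (WC a b A hA) ?_ ?_ ?_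
  · have e : ∑ i : {i // x i ≠ 0}, x i • bv (F := F) (a i) (b i) =
        ∑ i, x i • bv (F := F) (a i) (b i) := by
      rw [← Finset.sum_subtype (p := fun i => x i ≠ 0) (Finset.univ.filter (fun i => x i ≠ 0))
        (fun i => by simp)
        (fun i => x i • bv (F := F) (a i) (b i))]
      apply Finset.sum_subset (Finset.filter_subset _ _)
      intro i _ hi
      have : x i = 0 := by
        by_contra h
        exact hi (Finset.mem_filter.2 ⟨Finset.mem_univ _, h⟩)
      rw [this, zero_smul]
    rwa [e] at h
  · rintro ⟨i, _⟩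
    have hle : ln F (a i) (b i) ≤ WC a b A hA (lcl a b A hA i) :=
      le_iSup (fun j : {j // lcl a b A hA j = lcl a b A hA i} => ln F (a j) (b j)) ⟨i, rfl⟩
    exact ⟨hle (Submodule.subset_span (by simp)), hle (Submodule.subset_span (by simp))⟩
  · intro c η hη h0 p hp h3
    exact class_codim hA hS.toS1 h2 c η hη h0 p hp h3
  · intro c c' hcc φ hφ p hp hpr
    exact class_orth hA hS h2 c c' hcc φ hφ p hp hpr

end

end Pool.Agent.H203
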