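import Pool.Agent.H203.XS2
import Pool.Agent.H203.Pot2

/-!
# Correctness of the local search
-/

namespace Pool.Agent.H203

open Module Pool.Agent.H442R3.MPar

section linmap

variable {K : Type*} [Field K]

/-- the vector of a list of naturals -/
def lv (K : Type*) [Field K] (N : ℕ) (l : List ℕ) : Fin N → K := fun i => ((l.getD i 0 : ℕ) : K)

/-- the alternating map of a list of lines -/
noncomputable def ALl (K : Type*) [Field K] (N : ℕ) (lines : List (ℕ × List ℕ × List ℕ)) (st : ℕ → K) :
    Dual K (Fin N → K) →ₗ[K] (Fin N → K) :=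
  (lines.map (fun l => st l.1 • bv (F := K) (lv K N l.2.1) (lv K N l.2.2))).sum

theorem ALl_append (N : ℕ) (l1 l2 : List (ℕ × List ℕ × List ℕ)) (st : ℕ → K) :
    ALl K N (l1 ++ l2) st = ALl K N l1 st + ALl K N l2 st := by
  rw [ALl, List.map_append, List.sum_append]
  rfl

theorem alt_ALl (N : ℕ) (lines : List (ℕ × List ℕ × List ℕ)) (st : ℕ → K) :
    Alt (ALl K N lines st) := by
  induction lines with
  | nil => exact Alt.zero
  | cons l lines ih =>
    rw [ALl, List.map_cons, List.sum_cons]
    exact ((alt_bv _ _).smul _).add ih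

theorem dual_eval (N : ℕ) (φ : Dual K (Fin N → K)) (v : Fin N → K) :
    φ v = ∑ c, v c * φ (Pi.single c 1) := by
  have h : v = ∑ c, v c • (Pi.single c 1 : Fin N → K) := by
    funext j
    simp [Finset.sum_apply, Pi.single_apply]
  conv_lhs => rw [h]
  rw [map_sum]
  apply Finset.sum_congr rfl
  intro c _
  rw [map_smul, smul_eq_mul]

theorem ALl_apply [CharP K 2] (N : ℕ) (lines : List (ℕ × List ℕ × List ℕ)) (st : ℕ → K)
    (φ : Dual K (Fin N → K)) (r : Fin N) :
    ALl K N lines st φ r = ∑ c : Fin N, AE lines st r c * φ (Pi.single c 1) := by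
  induction lines with
  | nil => simp [ALl, AE]
  | cons l lines ih =>
    have h1 : ALl K N (l :: lines) st φ r =
        (st l.1 • bv (F := K) (lv K N l.2.1) (lv K N l.2.2)) φ r + ALl K N lines st φ r := by
      rw [ALl, List.map_cons, List.sum_cons]
      rfl
    have h2 : ∀ c : Fin N, AE (l :: lines) st r c * φ (Pi.single c 1) =
        (((l.2.2.getD c 0 * l.2.1.getD r 0 + l.2.1.getD c 0 * l.2.2.getD r 0 : ℕ) : K) * st l.1) *
          φ (Pi.single c 1) + AE lines st r c * φ (Pi.single c 1) := by
      intro c
      rw [AE, List.map_cons, List.sum_cons, add_mul]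
      rfl
    rw [h1, ih, Finset.sum_congr rfl (fun c _ => h2 c), Finset.sum_add_distrib]
    congr 1
    rw [LinearMap.smul_apply, bv_apply, Pi.smul_apply, Pi.sub_apply, Pi.smul_apply, Pi.smul_apply,
      smul_eq_mul, smul_eq_mul, smul_eq_mul, dual_eval N φ (lv K N l.2.2),
      dual_eval N φ (lv K N l.2.1), CharTwo.sub_eq_add, Finset.sum_mul, Finset.sum_mul,
      ← Finset.sum_add_distrib, Finset.mul_sum]
    apply Finset.sum_congr rfl
    intro c _
    simp only [lv]
    push_cast
    ring

/-- trivial kernel of the matrix and of the map -/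
theorem ker_of_triv [CharP K 2] (N : ℕ) (lines : List (ℕ × List ℕ × List ℕ)) (st : ℕ → K)
    (h : TrivKer lines st N) : LinearMap.ker (ALl K N lines st) = ⊥ := by
  rw [LinearMap.ker_eq_bot']
  intro φ hφ
  have h1 := h (fun c => if hc : c < N then φ (Pi.single ⟨c, hc⟩ 1) else 0) (by
    intro r hr
    have h2 := congrFun hφ ⟨r, hr⟩
    rw [ALl_apply] at h2
    rw [← Fin.sum_univ_eq_sum_range (fun c => AE lines st r c *
      (if hc : c < N then φ (Pi.single ⟨c, hc⟩ 1) else 0))]
    refine Eq.trans ?_ h2
    apply Finset.sum_congr rfl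
    intro c _
    rw [dif_pos c.2])
  apply LinearMap.ext
  intro v
  rw [dual_eval N φ v]
  simp only [LinearMap.zero_apply]
  apply Finset.sum_eq_zero
  intro c _
  have := h1 c c.2
  rw [dif_pos c.2] at this
  have h3 : φ (Pi.single c 1) = 0 := this
  rw [h3, mul_zero]

theorem AE_congr {R : Type*} [CommRing R] (lines : List (ℕ × List ℕ × List ℕ)) (st st' : ℕ → R)
    (h : ∀ l ∈ lines, st l.1 = st' l.1) (r c : ℕ) : AE lines st r c = AE lines st' r c := by
  rw [AE, AE]
  congr 1
  apply List.map_congr_left
  intro l hl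
  rw [h l hl]

theorem ALl_congr (N : ℕ) (lines : List (ℕ × List ℕ × List ℕ)) (st st' : ℕ → K)
    (h : ∀ l ∈ lines, st l.1 = st' l.1) : ALl K N lines st = ALl K N lines st' := by
  rw [ALl, ALl]
  congr 1
  apply List.map_congr_left
  intro l hl
  rw [h l hl]

theorem ALl_eq_AL (N : ℕ) (ml : List (ℕ × List ℕ × List ℕ)) (st : ℕ → K) :
    ALl K N ml st = AL (fun i : Fin ml.length => lv K N (ml.get i).2.1)
      (fun i : Fin ml.length => lv K N (ml.get i).2.2) (fun i => st (ml.get i).1) := by
  rw [AL]
  induction ml with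
  | nil => simp [ALl]
  | cons l ml ih =>
    rw [ALl, List.map_cons, List.sum_cons]
    have h := Fin.sum_univ_succ (fun i : Fin (ml.length + 1) => st ((l :: ml).get i).1 •
      bv (F := K) (lv K N ((l :: ml).get i).2.1) (lv K N ((l :: ml).get i).2.2))
    refine Eq.trans ?_ h.symm
    congr 1

end linmap

section search

theorem updX_getD (L : ℕ) (x : List (List ℕ)) (k : ℕ) (v : List ℕ) (k' : ℕ) (v' : List ℕ) (i : ℕ)
    (hi : i < L) : (updX (List.range L) x k v k' v').getD i [] =
      if i = k' then v' else if i = k then v else x.getD i [] := by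
  rw [updX, List.getD_eq_getElem _ _ (by simpa using hi)]
  simp

theorem updX_len (St : List ℕ) (x : List (List ℕ)) (k : ℕ) (v : List ℕ) (k' : ℕ) (v' : List ℕ) :
    (updX St x k v k' v').length = St.length := by
  rw [updX, List.length_map]

/-- invariant of the search -/
structure InvX (L : ℕ) (ml : List (ℕ × List ℕ × List ℕ)) (x0 x : List (List ℕ)) : Prop where
  len : x.length = L
  fix : ∀ i < L, (∀ l ∈ ml, l.1 ≠ i) → x.getD i [] = x0.getD i []

theorem nbrX_inv {L : ℕ} {Vs : List (List ℕ)} {ml : List (ℕ × List ℕ × List ℕ)}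
    {x0 x y : List (List ℕ)} (hx : InvX L ml x0 x) (hy : y ∈ nbrX (List.range L) Vs ml x) :
    InvX L ml x0 y := by
  simp only [nbrX, List.mem_flatMap, List.mem_map] at hy
  obtain ⟨k, hk, v, hv, k', hk', v', hv', rfl⟩ := hy
  refine ⟨by rw [updX_len, List.length_range], fun i hi hml => ?_⟩
  rw [updX_getD L x _ _ _ _ i hi, if_neg (hml k' hk').symm, if_neg (hml k hk).symm]
  exact hx.fix i hi hml

theorem imprX_mem (S Rn RN : List ℕ) (T : List (List ℕ)) (St : List ℕ) (Vs : List (List ℕ))
    (ml lines : List (ℕ × List ℕ × List ℕ)) (x : List (List ℕ)) :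
    (imprX S Rn RN T St Vs ml lines x = x ∧ ∀ y ∈ nbrX St Vs ml x,
      psiX S Rn RN T ml lines x ≤ psiX S Rn RN T ml lines y) ∨
    (imprX S Rn RN T St Vs ml lines x ∈ nbrX St Vs ml x ∧
      psiX S Rn RN T ml lines (imprX S Rn RN T St Vs ml lines x) < psiX S Rn RN T ml lines x) := by
  rw [imprX]
  cases h : ((nbrX St Vs ml x).filter (fun y =>
    decide (psiX S Rn RN T ml lines y < psiX S Rn RN T ml lines x))) with
  | nil =>
    left
    refine ⟨rfl, fun y hy => ?_⟩
    rw [List.filter_eq_nil_iff] at h
    have := h y hy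
    simpa using this
  | cons y l =>
    right
    have h1 : y ∈ (nbrX St Vs ml x).filter (fun y =>
      decide (psiX S Rn RN T ml lines y < psiX S Rn RN T ml lines x)) := by
      rw [h]; exact List.mem_cons_self
    rw [List.mem_filter] at h1
    simpa using h1

theorem iterX_inv {L : ℕ} (S Rn RN : List ℕ) (T : List (List ℕ)) (Vs : List (List ℕ))
    (ml lines : List (ℕ × List ℕ × List ℕ)) (x0 : List (List ℕ)) (h0 : x0.length = L) (k : ℕ) :
    InvX L ml x0 ((imprX S Rn RN T (List.range L) Vs ml lines)^[k] x0) := by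
  induction k with
  | zero => exact ⟨h0, fun i _ _ => rfl⟩
  | succ k ih =>
    rw [Function.iterate_succ_apply']
    rcases imprX_mem S Rn RN T (List.range L) Vs ml lines
      ((imprX S Rn RN T (List.range L) Vs ml lines)^[k] x0) with h | h
    · rw [h.1]; exact ih
    · exact nbrX_inv ih h.1

theorem iterX_dec (S Rn RN : List ℕ) (T : List (List ℕ)) (St : List ℕ) (Vs : List (List ℕ))
    (ml lines : List (ℕ × List ℕ × List ℕ)) (x0 : List (List ℕ)) (k : ℕ) :
    (∀ y ∈ nbrX St Vs ml ((imprX S Rn RN T St Vs ml lines)^[k] x0),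
      psiX S Rn RN T ml lines ((imprX S Rn RN T St Vs ml lines)^[k] x0) ≤
        psiX S Rn RN T ml lines y) ∨
    psiX S Rn RN T ml lines ((imprX S Rn RN T St Vs ml lines)^[k] x0) + k ≤
      psiX S Rn RN T ml lines x0 := by
  induction k with
  | zero => right; simp
  | succ k ih =>
    rw [Function.iterate_succ_apply']
    set x := (imprX S Rn RN T St Vs ml lines)^[k] x0
    rcases imprX_mem S Rn RN T St Vs ml lines x with h | h
    · left
      rw [h.1]
      exact h.2
    · rcases ih with ih | ih
      · exact absurd (ih _ h.1) (not_le.2 h.2)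
      · right
        have := h.2
        omega

theorem nulM_le (S RN : List ℕ) (T : List (List ℕ)) (mat : List (List (List ℕ))) :
    nulM S RN T mat ≤ RN.length * S.length := by
  rw [nulM, kerL]
  have := (kfold_inv (p := 2) (by norm_num) (List.range (RN.length * S.length)) (expd S RN T mat)
    (stdB (List.range (RN.length * S.length))) (fun v hv => sz_stdB _ hv)).2
  rwa [stdB, List.length_map, List.length_range] at this

theorem sum_map_le {β : Type*} (l : List β) (f : β → ℕ) (B : ℕ) (h : ∀ j, f j ≤ B) :
    (l.map f).sum ≤ l.length * B := by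
  induction l with
  | nil => simp
  | cons a l ih =>
    rw [List.map_cons, List.sum_cons, List.length_cons]
    have := h a
    nlinarith

theorem psiX_le (S Rn RN : List ℕ) (T : List (List ℕ)) (ml lines : List (ℕ × List ℕ × List ℕ))
    (x : List (List ℕ)) : psiX S Rn RN T ml lines x ≤
      (ml.length + 1) * ((ml.length + 1) * (RN.length * S.length)) := by
  rw [psiX, sum_flatMap']
  refine (sum_map_le _ _ ((ml.length + 1) * (RN.length * S.length)) fun j => ?_).trans ?_
  · refine (sum_map_le _ _ (RN.length * S.length) fun k => nulM_le _ _ _ _).trans ?_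
    rw [List.length_cons, List.length_map]
  · rw [List.length_cons, List.length_map]

theorem sum_opt' {β : Type*} (nl : β) (ml : List β) (g : β → ℕ) :
    ((nl :: ml).map g).sum = ∑ o : Option (Fin ml.length), g (o.elim nl (fun i => ml.get i)) := by
  rw [List.map_cons, List.sum_cons, sum_list_get, Fintype.sum_option]
  rfl

end search

section complete

variable {K : Type*} [Field K] [Algebra (ZMod 2) K] {θ : K} {s : ℕ} {f : List ℕ}
  {b : Basis (Fin s) (ZMod 2) K}

/-- the state of a list -/
def stL (θ : K) (s : ℕ) (x : List (List ℕ)) (i : ℕ) : K := repv θ s (x.getD i [])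

omit [Algebra (ZMod 2) K] in
theorem stL_def (θ : K) (s : ℕ) (x : List (List ℕ)) :
    (fun i => repv θ s (x.getD i [])) = stL θ s x := rfl

theorem charP_of_alg (K : Type*) [Field K] [Algebra (ZMod 2) K] : CharP K 2 :=
  charP_of_injective_algebraMap (algebraMap (ZMod 2) K).injective 2

theorem psiX_eq (h : IsExt θ s f b) (N : ℕ) (ml fl : List (ℕ × List ℕ × List ℕ))
    (x : List (List ℕ)) (A0 : Dual K (Fin N → K) →ₗ[K] (Fin N → K))
    (hA0 : ALl K N fl (stL θ s x) = A0) :
    psiX (List.range s) (List.range N) (List.range (N + 2))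
      (pwl (List.range s) f (List.range (2 * s))) ml (ml ++ fl) x =
    s * Psi0 A0 (fun i : Fin ml.length => lv K N (ml.get i).2.1)
      (fun i : Fin ml.length => lv K N (ml.get i).2.2)
      (fun i => stL θ s x (ml.get i).1) := by
  have := charP_of_alg K
  rw [psiX, Psi0, sum_flatMap', Fintype.sum_prod_type, Finset.mul_sum]
  have hlen : (ml.map (fun l : ℕ × List ℕ × List ℕ => l.2)).length = ml.length := List.length_map _
  have hopt : ∀ g : List ℕ × List ℕ → ℕ, ((([], []) :: ml.map (fun l => l.2)).map g).sum =
      ∑ o : Option (Fin ml.length), g (o.elim ([], []) (fun i => (ml.get i).2)) := by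
    intro g
    rw [List.map_cons, List.sum_cons, List.map_map, sum_list_get, Fintype.sum_option]
    rfl
  rw [hopt]
  apply Finset.sum_congr rfl
  intro oj _
  rw [hopt, Finset.mul_sum]
  apply Finset.sum_congr rfl
  intro ok _
  apply nulB_eq h N (ml ++ fl) x _ _ _ _ _ _ oj ok
  · cases oj with
    | none => intro i; simp [ov]
    | some j => intro i; rfl
  · cases oj with
    | none => intro i; simp [ov]
    | some j => intro i; rfl
  · cases ok with
    | none => intro i; simp [ov]
    | some j => intro i; rfl
  · cases ok with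
    | none => intro i; simp [ov]
    | some j => intro i; rfl
  · intro φ r
    rw [← hA0, AB, ← ALl_eq_AL N ml (stL θ s x), add_comm, ← ALl_append, ALl_apply]
    rfl

theorem exists_bits (h : IsExt θ s f b) (v : K) : ∃ l : List ℕ, l.length = s ∧
    (∀ a ∈ l, a = 0 ∨ a = 1) ∧ repv θ s l = v := by
  refine ⟨(List.range s).map (fun k => if hk : k < s then (b.repr v ⟨k, hk⟩).val else 0),
    by simp, ?_, ?_⟩
  · intro a ha
    obtain ⟨k, hk, rfl⟩ := List.mem_map.1 ha
    rw [List.mem_range] at hk
    rw [dif_pos hk]
    have := ZMod.val_lt (b.repr v ⟨k, hk⟩)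
    omega
  · rw [repv, ← Fin.sum_univ_eq_sum_range (fun k => ((((List.range s).map (fun k =>
      if hk : k < s then (b.repr v ⟨k, hk⟩).val else 0)).getD k 0 : ℕ) : K) * θ ^ k)]
    conv_rhs => rw [← b.sum_repr v]
    apply Finset.sum_congr rfl
    intro k _
    rw [List.getD_eq_getElem _ _ (by simp), h.hb]
    simp only [List.getElem_map, List.getElem_range, k.2, dif_pos]
    rw [Algebra.smul_def]
    congr 1
    have h1 : ((b.repr v k).val : ZMod 2) = b.repr v k := ZMod.natCast_zmod_val _
    conv_rhs => rw [← h1]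
    rw [map_natCast]

theorem card_ext (h : IsExt θ s f b) : ∃ hf : Fintype K, @Fintype.card K hf = 2 ^ s := by
  have hfin : Finite K := by
    have := b.equivFun.toEquiv
    exact Finite.of_equiv _ this.symm
  refine ⟨Fintype.ofFinite K, ?_⟩
  have h1 := @Fintype.card_congr K (Fin s → ZMod 2) (Fintype.ofFinite K) _ b.equivFun.toEquiv
  rw [h1, Fintype.card_fun, Fintype.card_fin, ZMod.card]

/-- **Completeness of the search.** -/
theorem search_complete (h : IsExt θ s f b) (N L : ℕ) (ml fl : List (ℕ × List ℕ × List ℕ))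
    (Vs : List (List ℕ)) (hVs : ∀ v : List ℕ, v.length = s → (∀ a ∈ v, a = 0 ∨ a = 1) → v ∈ Vs)
    (hnd : (ml.map (fun l => l.1)).Nodup) (hfl : ∀ l ∈ ml, ∀ l' ∈ fl, l.1 ≠ l'.1)
    (hflL : ∀ l ∈ fl, l.1 < L)
    (hL : ∀ l ∈ ml, l.1 < L)
    (hdim : ∀ l ∈ ml, finrank K (ln K (lv K N l.2.1) (lv K N l.2.2)) = 2)
    (hbd : (ml.length + 1) * (ml.length + 1) * (N + 2) + 2 < 2 ^ s)
    (TT : List ℕ) (hTT : (ml.length + 1) * (ml.length + 1) * ((N + 2) * s) ≤ TT.length)
    (x0 : List (List ℕ)) (hx0 : x0.length = L) (st : ℕ → K)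
    (hst : ∀ l ∈ fl, st l.1 = stL θ s x0 l.1) (htr : TrivKer (ml ++ fl) st N) :
    nulM (List.range s) (List.range N) (pwl (List.range s) f (List.range (2 * s)))
      (matA (List.range s) (List.range N) (ml ++ fl)
        (searchX (List.range s) (List.range N) (List.range (N + 2))
          (pwl (List.range s) f (List.range (2 * s))) (List.range L) Vs ml (ml ++ fl) TT x0)) = 0 := by
  have := charP_of_alg K
  obtain ⟨hfin, hcard⟩ := card_ext h
  set xf := searchX (List.range s) (List.range N) (List.range (N + 2))
          (pwl (List.range s) f (List.range (2 * s))) (List.range L) Vs ml (ml ++ fl) TT x0 with hxf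
  have hinv : InvX L ml x0 xf := iterX_inv _ _ _ _ _ _ _ x0 hx0 TT.length
  set A0 := ALl K N fl (stL θ s x0) with hA0
  have hA0' : ∀ x, InvX L ml x0 x → ALl K N fl (stL θ s x) = A0 := by
    intro x hx
    apply ALl_congr
    intro l hl
    rw [stL, stL, hx.fix l.1 (hflL l hl) (fun l' hl' => hfl l' hl' l hl)]
  have hpsi : ∀ x, InvX L ml x0 x → psiX (List.range s) (List.range N) (List.range (N + 2))
      (pwl (List.range s) f (List.range (2 * s))) ml (ml ++ fl) x =
    s * Psi0 A0 (fun i : Fin ml.length => lv K N (ml.get i).2.1)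
      (fun i : Fin ml.length => lv K N (ml.get i).2.2)
      (fun i => stL θ s x (ml.get i).1) := fun x hx => psiX_eq h N ml fl x A0 (hA0' x hx)
  have hmin : ∀ y ∈ nbrX (List.range L) Vs ml xf,
      psiX (List.range s) (List.range N) (List.range (N + 2))
      (pwl (List.range s) f (List.range (2 * s))) ml (ml ++ fl) xf ≤
      psiX (List.range s) (List.range N) (List.range (N + 2))
      (pwl (List.range s) f (List.range (2 * s))) ml (ml ++ fl) y := by
    rcases iterX_dec (List.range s) (List.range N) (List.range (N + 2))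
      (pwl (List.range s) f (List.range (2 * s))) (List.range L) Vs ml (ml ++ fl) x0
      TT.length with h1 | h1
    · exact h1
    · intro y _
      have h2 := psiX_le (List.range s) (List.range N) (List.range (N + 2))
        (pwl (List.range s) f (List.range (2 * s))) ml (ml ++ fl) x0
      rw [List.length_range, List.length_range] at h2
      have h3 : psiX (List.range s) (List.range N) (List.range (N + 2))
          (pwl (List.range s) f (List.range (2 * s))) ml (ml ++ fl) xf + TT.length ≤
          psiX (List.range s) (List.range N) (List.range (N + 2))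
          (pwl (List.range s) f (List.range (2 * s))) ml (ml ++ fl) x0 := h1
      have h4 : (ml.length + 1) * ((ml.length + 1) * ((N + 2) * s)) =
        (ml.length + 1) * (ml.length + 1) * ((N + 2) * s) := by ring
      omega
  have hinj : ∀ i j : Fin ml.length, (ml.get i).1 = (ml.get j).1 → i = j := by
    intro i j hij
    have h1 := List.nodup_iff_injective_get.1 hnd
    have h2 := @h1 ⟨i, by rw [List.length_map]; exact i.2⟩ ⟨j, by rw [List.length_map]; exact j.2⟩
      (by simpa using hij)
    exact Fin.ext (by simpa using h2)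
  have hm : ∀ k v k' v', Psi0 A0 (fun i : Fin ml.length => lv K N (ml.get i).2.1)
      (fun i : Fin ml.length => lv K N (ml.get i).2.2)
      (fun i => stL θ s xf (ml.get i).1) ≤
      Psi0 A0 (fun i : Fin ml.length => lv K N (ml.get i).2.1)
      (fun i : Fin ml.length => lv K N (ml.get i).2.2)
        (Function.update (Function.update (fun i => stL θ s xf (ml.get i).1) k v) k' v') := by
    intro k v k' v'
    obtain ⟨w, hw1, hw2, hw3⟩ := exists_bits h v
    obtain ⟨w', hw1', hw2', hw3'⟩ := exists_bits h v'
    have h5 : updX (List.range L) xf (ml.get k).1 w (ml.get k').1 w' ∈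
        nbrX (List.range L) Vs ml xf := by
      simp only [nbrX, List.mem_flatMap, List.mem_map]
      exact ⟨ml.get k, List.get_mem _ _, w, hVs w hw1 hw2, ml.get k', List.get_mem _ _, w',
        hVs w' hw1' hw2', rfl⟩
    have h6 := hmin _ h5
    rw [hpsi xf hinv, hpsi _ (nbrX_inv hinv h5)] at h6
    have h7 : (fun i => stL θ s (updX (List.range L) xf (ml.get k).1 w (ml.get k').1 w')
        (ml.get i).1) =
        Function.update (Function.update (fun i => stL θ s xf (ml.get i).1) k v) k' v' := by
      funext i
      rw [stL, updX_getD L _ _ _ _ _ _ (hL _ (List.get_mem _ _))]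
      by_cases e1 : i = k'
      · subst e1
        rw [if_pos rfl, Function.update_self, hw3']
      · rw [if_neg (fun e => e1 (hinj _ _ e)), Function.update_of_ne e1]
        by_cases e2 : i = k
        · subst e2
          rw [if_pos rfl, Function.update_self, hw3]
        · rw [if_neg (fun e => e2 (hinj _ _ e)), Function.update_of_ne e2]
          rfl
    rw [h7] at h6
    exact Nat.le_of_mul_le_mul_left h6 h.pos
  have hbd' : (Fintype.card (Fin ml.length) + 1) ^ 2 *
      (finrank K (Fin N → K) + 2) + 2 < Fintype.card K := by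
    rw [Fintype.card_fin, Module.finrank_fintype_fun_eq_card, Fintype.card_fin, hcard, sq]
    exact hbd
  have hrank := rank_of_min0 (alt_ALl N fl (stL θ s x0)) (fun i : Fin ml.length => lv K N (ml.get i).2.1)
    (fun i : Fin ml.length => lv K N (ml.get i).2.2)
    (fun i => hdim _ (List.get_mem _ _)) (fun i => stL θ s xf (ml.get i).1) hbd' hm
    (fun i => st (ml.get i).1)
  have e1 : AB A0 (fun i : Fin ml.length => lv K N (ml.get i).2.1)
    (fun i : Fin ml.length => lv K N (ml.get i).2.2) (fun i => st (ml.get i).1) =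
      ALl K N (ml ++ fl) st := by
    rw [AB, ← ALl_eq_AL N ml st, ALl_append, add_comm, hA0]
    congr 1
    exact (ALl_congr N fl _ _ hst).symm
  have e2 : AB A0 (fun i : Fin ml.length => lv K N (ml.get i).2.1)
    (fun i : Fin ml.length => lv K N (ml.get i).2.2) (fun i => stL θ s xf (ml.get i).1) =
      ALl K N (ml ++ fl) (stL θ s xf) := by
    rw [AB, ← ALl_eq_AL N ml (stL θ s xf), ALl_append, add_comm, hA0' xf hinv]
  rw [← hA0, e1, e2, ker_of_triv N _ _ htr, finrank_bot] at hrank
  rw [nulA_eq h N (ml ++ fl) xf (ALl K N (ml ++ fl) (stL θ s xf)) (fun φ r => by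
    rw [ALl_apply]; rfl)]
  rw [Nat.le_zero.1 hrank, mul_zero]

end complete

section sound

/-- **Soundness of the final test.** -/
theorem test_sound {R : Type*} [CommRing R] [Algebra (ZMod 2) R] {θ : R} {s : ℕ} {f : List ℕ}
    {b : Basis (Fin s) (ZMod 2) R} (h : IsExt θ s f b) (N : ℕ)
    (lines : List (ℕ × List ℕ × List ℕ)) (x : List (List ℕ))
    (h0 : nulM (List.range s) (List.range N) (pwl (List.range s) f (List.range (2 * s)))
      (matA (List.range s) (List.range N) lines x) = 0)
    {L : Type*} [CommRing L] (φ : R →+* L) :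
    TrivKer lines (fun i => φ (repv θ s (x.getD i []))) N := by
  classical
  let A : Matrix (Fin N) (Fin N) R := fun r c => AE lines (fun i => repv θ s (x.getD i [])) r c
  have hfin : Finite R := by
    have := b.equivFun.toEquiv
    exact Finite.of_equiv _ this.symm
  let U : Submodule (ZMod 2) (Fin N → R) :=
    (LinearMap.ker (A.mulVecLin)).restrictScalars (ZMod 2)
  have hU : ∀ y, y ∈ U ↔ ∀ row ∈ matA (List.range s) (List.range N) lines x,
      ∑ c : Fin N, repv θ s (row.getD c []) * y c = 0 := by
    intro y
    have hrow : ∀ r < N, ∑ c : Fin N, repv θ s (((List.range N).map (fun c =>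
        entX (List.range s) lines x r c)).getD c []) * y c =
        ∑ c : Fin N, AE lines (fun i => repv θ s (x.getD i [])) r c * y c := by
      intro r _
      apply Finset.sum_congr rfl
      intro c _
      rw [List.getD_eq_getElem _ _ (by simp)]
      simp only [List.getElem_map, List.getElem_range]
      rw [repv_entX]
    rw [Submodule.restrictScalars_mem, LinearMap.mem_ker, Matrix.mulVecLin_apply]
    constructor
    · intro hy row hrow'
      obtain ⟨r, hr, rfl⟩ := List.mem_map.1 hrow'
      rw [List.mem_range] at hr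
      rw [hrow r hr]
      exact congrFun hy ⟨r, hr⟩
    · intro hy
      funext r
      have h1 := hy _ (List.mem_map.2 ⟨r, List.mem_range.2 r.2, rfl⟩)
      rw [hrow r r.2] at h1
      exact h1
  have h1 := nulM_eq h N (matA (List.range s) (List.range N) lines x) U hU
  rw [h0] at h1
  have hUfin : Module.Finite (ZMod 2) (Fin N → R) := Module.Finite.of_finite
  have h2 : U = ⊥ := Submodule.finrank_eq_zero.1 h1.symm
  have hinj : Function.Injective A.mulVec := by
    intro y z hyz
    have h3 : y - z ∈ U := by
      rw [Submodule.restrictScalars_mem, LinearMap.mem_ker, map_sub, Matrix.mulVecLin_apply,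
        Matrix.mulVecLin_apply, hyz, sub_self]
    rw [h2, Submodule.mem_bot] at h3
    exact sub_eq_zero.1 h3
  have hsurj : Function.Surjective A.mulVec := Finite.surjective_of_injective hinj
  obtain ⟨B, hB⟩ := Matrix.mulVec_surjective_iff_exists_right_inverse.1 hsurj
  have hB' : B * A = 1 := mul_eq_one_comm.1 hB
  have hB2 : (B.map φ) * (A.map φ) = 1 := by
    rw [← Matrix.map_mul, hB', Matrix.map_one _ (map_zero φ) (map_one φ)]
  intro y hy c hc
  have h3 : (A.map φ).mulVec (fun c : Fin N => y c) = 0 := by
    funext r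
    have h4 := hy r r.2
    rw [← Fin.sum_univ_eq_sum_range (fun c => AE lines (fun i => φ (repv θ s (x.getD i []))) r c *
      y c)] at h4
    refine Eq.trans ?_ h4
    rw [Matrix.mulVec, dotProduct]
    apply Finset.sum_congr rfl
    intro c _
    congr 1
    rw [Matrix.map_apply]
    simp only [A, AE]
    rw [map_list_sum, List.map_map]
    congr 1
    apply List.map_congr_left
    intro l _
    simp only [Function.comp_apply, map_mul, map_natCast]
  have h5 : (fun c : Fin N => y c) = 0 := by
    rw [← Matrix.one_mulVec (fun c : Fin N => y c), ← hB2, ← Matrix.mulVec_mulVec, h3,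
      Matrix.mulVec_zero]
  exact congrFun h5 ⟨c, hc⟩

end sound

end Pool.Agent.H203
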