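import Pool.Agent.H203.XDefs

/-!
Part D1 (orders as lists; degrees; well-formedness).
-/

namespace Pool.Agent.H203

theorem D1_sum_list {α : Type*} [AddCommMonoid α] (f : ℕ → α) (l : List ℕ) :
    ∑ j ∈ Finset.range l.length, f (l.getD j 0) = (l.map f).sum := by
  induction l using List.reverseRecOn with
  | nil => simp
  | append_singleton l v ih =>
    rw [List.length_append, List.length_singleton, Finset.sum_range_succ, List.map_append,
      List.sum_append, ← ih]
    congr 1
    · refine Finset.sum_congr rfl fun j hj => ?_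
      rw [List.getD_append _ _ _ _ (Finset.mem_range.1 hj)]
    · simp

theorem D1_sum_nodup {α : Type*} [AddCommMonoid α] (f : ℕ → α) (l : List ℕ) (hl : l.Nodup) :
    ∑ j ∈ Finset.range l.length, f (l.getD j 0) = ∑ u ∈ l.toFinset, f u := by
  rw [D1_sum_list, List.sum_toFinset f hl]

theorem D1_to_list {c : ℕ → ℕ → ZMod 2} {r : ℕ} {S : Finset ℕ} (h : DC c r S) :
    ∃ l : List ℕ, l ≠ [] ∧ l.Nodup ∧ l.toFinset = S ∧ ∀ i, 0 < i → i < l.length →
      ∑ j ∈ Finset.range i, c (l.getD i 0) (l.getD j 0) = 1 := by
  induction h with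
  | base =>
    refine ⟨[r], by simp, by simp, by simp, ?_⟩
    intro i h1 h2
    simp at h2
    omega
  | add S v hv hs _ ih =>
    obtain ⟨l, h1, h2, h3, h4⟩ := ih
    have hvl : v ∉ l := by
      rw [← List.mem_toFinset, h3]
      exact hv
    refine ⟨l ++ [v], by simp, ?_, ?_, ?_⟩
    · rw [List.nodup_append]
      refine ⟨h2, by simp, ?_⟩
      intro a ha b hb
      rw [List.mem_singleton] at hb
      rw [hb]
      rintro rfl
      exact hvl ha
    · ext x
      simp only [List.mem_toFinset, List.mem_append, List.mem_singleton, Finset.mem_insert]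
      rw [← List.mem_toFinset, h3]
      tauto
    · intro i hi hil
      rw [List.length_append, List.length_singleton] at hil
      rcases Nat.lt_succ_iff_lt_or_eq.1 hil with h5 | h5
      · rw [← h4 i hi h5]
        refine Finset.sum_congr rfl fun j hj => ?_
        rw [Finset.mem_range] at hj
        rw [List.getD_append _ _ _ _ h5, List.getD_append _ _ _ _ (hj.trans h5)]
      · rw [← hs, ← h3, ← D1_sum_nodup _ l h2, h5]
        refine Finset.sum_congr rfl fun j hj => ?_
        rw [Finset.mem_range] at hj
        rw [List.getD_append _ _ _ _ hj]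
        simp

theorem D1_of_list {c : ℕ → ℕ → ZMod 2} (l : List ℕ) : l ≠ [] → l.Nodup →
    (∀ i, 0 < i → i < l.length → ∑ j ∈ Finset.range i, c (l.getD i 0) (l.getD j 0) = 1) →
    DC c (l.getD 0 0) l.toFinset := by
  induction l using List.reverseRecOn with
  | nil => intro h; exact absurd rfl h
  | append_singleton l v ih =>
    intro _ hnd hc
    by_cases hl : l = []
    · subst hl
      exact DC.base
    · have hpos : 0 < l.length := List.length_pos_of_ne_nil hl
      rw [List.nodup_append] at hnd
      have hvl : v ∉ l := fun h => hnd.2.2 v h v (by simp) rfl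
      have e1 : (l ++ [v]).toFinset = insert v l.toFinset := by
        ext x
        simp only [List.mem_toFinset, List.mem_append, List.mem_singleton, Finset.mem_insert]
        tauto
      rw [e1, List.getD_append _ _ _ _ hpos]
      refine DC.add _ v (by rw [List.mem_toFinset]; exact hvl) ?_ (ih hl hnd.1 ?_)
      · rw [← D1_sum_nodup _ l hnd.1, ← hc l.length hpos (by simp)]
        refine Finset.sum_congr rfl fun j hj => ?_
        rw [Finset.mem_range] at hj
        rw [List.getD_append _ _ _ _ hj]
        simp
      · intro i hi hil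
        rw [← hc i hi (by rw [List.length_append]; omega)]
        refine Finset.sum_congr rfl fun j hj => ?_
        rw [Finset.mem_range] at hj
        rw [List.getD_append _ _ _ _ hil, List.getD_append _ _ _ _ (hj.trans hil)]

theorem D1_odd (M : List (List ℕ)) (l : List ℕ) (i : ℕ) :
    ∑ j ∈ Finset.range i, cM M (l.getD i 0) (l.getD j 0) = 1 ↔
      Odd (∑ j ∈ Finset.range i, (M.getD (l.getD i 0) []).getD (l.getD j 0) 0) := by
  rw [← ZMod.natCast_eq_one_iff_odd, Nat.cast_sum]
  have h : ∀ u v, cM M u v = (((M.getD u []).getD v 0 : ℕ) : ZMod 2) := by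
    intro u v
    rw [cM, par, ZMod.natCast_mod]
  simp only [h]

/-- TARGET (the three statements below are one target) -/
theorem dc_iff (M : List (List ℕ)) :
    (∃ r, DC (cM M) r (Finset.range M.length)) ↔
    ∃ l : List ℕ, l ≠ [] ∧ l.Perm (List.range M.length) ∧ ∀ i, 0 < i → i < l.length →
      Odd (∑ j ∈ Finset.range i, (M.getD (l.getD i 0) []).getD (l.getD j 0) 0) := by
  constructor
  · rintro ⟨r, hr⟩
    obtain ⟨l, h1, h2, h3, h4⟩ := D1_to_list hr
    refine ⟨l, h1, ?_, fun i hi hil => (D1_odd M l i).1 (h4 i hi hil)⟩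
    rw [List.perm_ext_iff_of_nodup h2 List.nodup_range]
    intro a
    rw [← List.mem_toFinset, h3, Finset.mem_range, List.mem_range]
  · rintro ⟨l, h1, h2, h3⟩
    have hnd : l.Nodup := h2.nodup_iff.2 List.nodup_range
    have h4 := D1_of_list (c := cM M) l h1 hnd fun i hi hil => (D1_odd M l i).2 (h3 i hi hil)
    refine ⟨l.getD 0 0, ?_⟩
    have h5 : l.toFinset = Finset.range M.length := by
      ext a
      rw [List.mem_toFinset, h2.mem_iff, List.mem_range, Finset.mem_range]
    rw [← h5]
    exact h4

theorem D1_filter_idx (E : List (ℕ × ℕ)) (P : ℕ × ℕ → Bool) :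
    ((List.range E.length).filter (fun i => P (E.getD i (0, 0)))).length = (E.filter P).length := by
  induction E using List.reverseRecOn with
  | nil => simp
  | append_singleton E e ih =>
    rw [List.length_append, List.length_singleton, List.range_succ, List.filter_append,
      List.filter_append, List.length_append, List.length_append, ← ih]
    congr 1
    · congr 1
      refine List.filter_congr fun j hj => ?_
      rw [List.getD_append _ _ _ _ (List.mem_range.1 hj)]
    · by_cases h : P e = true
      · simp [h]
      · simp [h]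

theorem D1_mem_edg (M : List (List ℕ)) (e : ℕ × ℕ) : e ∈ edg M ↔
    e.1 < M.length ∧ e.2 < M.length ∧ e.1 < e.2 ∧ par M e.1 e.2 = 1 := by
  rw [edg]
  simp only [List.mem_flatMap, List.mem_map, List.mem_filter, List.mem_range, Bool.and_eq_true,
    decide_eq_true_eq]
  constructor
  · rintro ⟨u, hu, v, ⟨hv, h1, h2⟩, rfl⟩
    exact ⟨hu, hv, h1, h2⟩
  · rintro ⟨h1, h2, h3, h4⟩
    exact ⟨e.1, h1, e.2, ⟨h2, h3, h4⟩, rfl⟩

theorem D1_nodup_edg (M : List (List ℕ)) : (edg M).Nodup := by
  rw [edg, List.nodup_flatMap]
  constructor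
  · intro u _
    refine List.Nodup.map ?_ (List.nodup_range.filter _)
    intro a b hab
    exact (Prod.mk.inj hab).2
  · refine List.Pairwise.imp ?_ (List.nodup_range (n := M.length))
    intro a b hab
    rw [Function.onFun, List.disjoint_left]
    intro x hx hx'
    rw [List.mem_map] at hx hx'
    obtain ⟨y, -, rfl⟩ := hx
    obtain ⟨y', -, h⟩ := hx'
    exact hab (Prod.mk.inj h).1.symm

theorem dgX_eq (M : List (List ℕ)) (hM : WF M) (v : ℕ) (hv : v < M.length) :
    dgX M v = ((Finset.range M.length).filter (fun w => Odd ((M.getD v []).getD w 0))).card := by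
  rw [dgX, incd, D1_filter_idx (edg M) (fun e => decide (e.1 = v) || decide (e.2 = v)),
    ← List.toFinset_card_of_nodup ((D1_nodup_edg M).filter _)]
  have h1 : ((edg M).filter (fun e => decide (e.1 = v) || decide (e.2 = v))).toFinset =
      ((Finset.range M.length).filter (fun w => Odd ((M.getD v []).getD w 0))).image
        (fun w => (min v w, max v w)) := by
    ext ⟨a, b⟩
    simp only [List.mem_toFinset, List.mem_filter, D1_mem_edg, Bool.or_eq_true, decide_eq_true_eq,
      Finset.mem_image, Finset.mem_filter, Finset.mem_range, Prod.mk.injEq, Nat.odd_iff]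
    constructor
    · rintro ⟨⟨h1, h2, h3, h4⟩, h5 | h5⟩
      · subst h5
        exact ⟨b, ⟨h2, h4⟩, min_eq_left h3.le, max_eq_right h3.le⟩
      · subst h5
        refine ⟨a, ⟨h1, ?_⟩, min_eq_right h3.le, max_eq_left h3.le⟩
        rw [hM.sym]
        exact h4
    · rintro ⟨w, ⟨h1, h2⟩, h3, h4⟩
      have hne : v ≠ w := by
        rintro rfl
        rw [hM.diag] at h2
        exact absurd h2 (by decide)
      rcases Nat.lt_or_gt_of_ne hne with h5 | h5
      · rw [min_eq_left h5.le] at h3
        rw [max_eq_right h5.le] at h4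
        subst h3 h4
        exact ⟨⟨hv, h1, h5, h2⟩, Or.inl rfl⟩
      · rw [min_eq_right h5.le] at h3
        rw [max_eq_left h5.le] at h4
        subst h3 h4
        refine ⟨⟨h1, hv, h5, ?_⟩, Or.inr rfl⟩
        rw [par, hM.sym]
        exact h2
  rw [h1, Finset.card_image_of_injective]
  intro a b hab
  have h2 := (Prod.mk.inj hab).1
  have h3 := (Prod.mk.inj hab).2
  omega

theorem wfX_iff (M : List (List ℕ)) : wfX M = true ↔ WF M := by
  rw [wfX]
  simp only [Bool.and_eq_true, List.all_eq_true, decide_eq_true_eq, List.mem_range]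
  constructor
  · rintro ⟨h1, h2⟩
    have hout : ∀ u v, M.length ≤ u → (M.getD u []).getD v 0 = 0 := by
      intro u v hu
      rw [List.getD_eq_default _ _ hu]
      simp
    have hout2 : ∀ u v, M.length ≤ v → (M.getD u []).getD v 0 = 0 := by
      intro u v hvn
      by_cases hu : u < M.length
      · have h3 : M.getD u [] ∈ M := by
          rw [List.getD_eq_getElem _ _ hu]
          exact List.getElem_mem hu
        rw [List.getD_eq_default]
        rw [h1 _ h3]
        exact hvn
      · exact hout u v (not_lt.1 hu)
    refine ⟨h1, ?_, ?_⟩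
    · intro u v
      by_cases hu : u < M.length
      · by_cases hvn : v < M.length
        · exact (h2 u hu).2 v hvn
        · rw [hout2 u v (not_lt.1 hvn), hout v u (not_lt.1 hvn)]
      · rw [hout u v (not_lt.1 hu), hout2 v u (not_lt.1 hu)]
    · intro u
      by_cases hu : u < M.length
      · exact (h2 u hu).1
      · exact hout u u (not_lt.1 hu)
  · intro h
    exact ⟨h.sq, fun u _ => ⟨h.diag u, fun v _ => h.sym u v⟩⟩

end Pool.Agent.H203
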