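import Pool.Agent.H442R3.MPar.Alg
import Pool.Agent.H203.DCrit

/-!
# The algorithm on lists: definitions

Elements of `𝔽₂[t]/(t^s + ∑ f_k t^k)` are lists of `s` bits.  `S = List.range s`.
-/

namespace Pool.Agent.H203

open Pool.Agent.H442R3.MPar

/-- the scalar `b` as a value -/
def scv (S : List ℕ) (b : ℕ) : List ℕ := S.map (fun k => if k = 0 then b else 0)

/-- multiplication by `t` -/
def nxt (S f v : List ℕ) : List ℕ :=
  S.map (fun k => ((if k = 0 then 0 else v.getD (k - 1) 0) + v.getD (S.length - 1) 0 * f.getD k 0) % 2)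

/-- the powers `t^i`, `i ∈ L` (`L = List.range (2 * s)`) -/
def pwl (S f L : List ℕ) : List (List ℕ) :=
  L.map (fun i => (nxt S f)^[(L.filter (fun j => decide (j < i))).length] (scv S 1))

/-- entry `(r, c)` of the alternating matrix `∑ x_i (a_i ∧ b_i)`, over all lines `(i, a_i, b_i)` -/
def entX (S : List ℕ) (lines : List (ℕ × List ℕ × List ℕ)) (x : List (List ℕ)) (r c : ℕ) : List ℕ :=
  S.map (fun k => ((lines.map (fun l => (l.2.2.getD c 0 * l.2.1.getD r 0 +
    l.2.1.getD c 0 * l.2.2.getD r 0) * (x.getD l.1 []).getD k 0)).sum) % 2)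

/-- the matrix -/
def matA (S Rn : List ℕ) (lines : List (ℕ × List ℕ × List ℕ)) (x : List (List ℕ)) :
    List (List (List ℕ)) :=
  Rn.map (fun r => Rn.map (fun c => entX S lines x r c))

/-- the bordered matrix -/
def matB (S Rn : List ℕ) (lines : List (ℕ × List ℕ × List ℕ)) (x : List (List ℕ))
    (j k : List ℕ × List ℕ) : List (List (List ℕ)) :=
  Rn.map (fun r => Rn.map (fun c => entX S lines x r c) ++
      [scv S (k.1.getD r 0), scv S (k.2.getD r 0)]) ++
    [Rn.map (fun c => scv S (j.1.getD c 0)), Rn.map (fun c => scv S (j.2.getD c 0))]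

/-- expansion of a matrix over the extension to a matrix of bits -/
def expd (S RN : List ℕ) (T : List (List ℕ)) (mat : List (List (List ℕ))) : List (List ℕ) :=
  mat.flatMap (fun row => S.map (fun k' => RN.flatMap (fun c => S.map (fun j =>
    ((S.map (fun k => (row.getD c []).getD k 0 * (T.getD (j + k) []).getD k' 0)).sum) % 2))))

/-- nullity over `𝔽₂` -/
def nulM (S RN : List ℕ) (T : List (List ℕ)) (mat : List (List (List ℕ))) : ℕ :=
  (kerL 2 (List.range (RN.length * S.length)) (expd S RN T mat)).length

/-- potential; `ml` are the movable lines -/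
def psiX (S Rn RN : List ℕ) (T : List (List ℕ)) (ml lines : List (ℕ × List ℕ × List ℕ))
    (x : List (List ℕ)) : ℕ :=
  ((([], []) :: ml.map (fun l => l.2)).flatMap (fun j => (([], []) :: ml.map (fun l => l.2)).map
    (fun k => nulM S RN T (matB S Rn lines x j k)))).sum

/-- change two coordinates; `St` are the indices of the state -/
def updX (St : List ℕ) (x : List (List ℕ)) (k : ℕ) (v : List ℕ) (k' : ℕ) (v' : List ℕ) :
    List (List ℕ) :=
  St.map (fun i => if i = k' then v' else if i = k then v else x.getD i [])

/-- neighbours -/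
def nbrX (St : List ℕ) (Vs : List (List ℕ)) (ml : List (ℕ × List ℕ × List ℕ))
    (x : List (List ℕ)) : List (List (List ℕ)) :=
  ml.flatMap (fun k => Vs.flatMap (fun v => ml.flatMap (fun k' => Vs.map (fun v' =>
    updX St x k.1 v k'.1 v'))))

/-- improvement step -/
def imprX (S Rn RN : List ℕ) (T : List (List ℕ)) (St : List ℕ) (Vs : List (List ℕ))
    (ml lines : List (ℕ × List ℕ × List ℕ)) (x : List (List ℕ)) : List (List ℕ) :=
  ((nbrX St Vs ml x).filter (fun y =>
    decide (psiX S Rn RN T ml lines y < psiX S Rn RN T ml lines x))).head?.getD x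

/-- local search, `TT.length` rounds -/
def searchX (S Rn RN : List ℕ) (T : List (List ℕ)) (St : List ℕ) (Vs : List (List ℕ))
    (ml lines : List (ℕ × List ℕ × List ℕ)) (TT : List ℕ) (x0 : List (List ℕ)) : List (List ℕ) :=
  (imprX S Rn RN T St Vs ml lines)^[TT.length] x0

/-! ### the lines of a graph -/

/-- parity of the multiplicity -/
def par (M : List (List ℕ)) (u v : ℕ) : ℕ := ((M.getD u []).getD v 0) % 2

/-- the edges `(u, v)`, `u < v`, of odd multiplicity -/
def edg (M : List (List ℕ)) : List (ℕ × ℕ) :=
  (List.range M.length).flatMap (fun u => ((List.range M.length).filter (fun v =>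
    decide (u < v) && decide (par M u v = 1))).map (fun v => (u, v)))

/-- incidence vector of a vertex -/
def cutv (E : List (ℕ × ℕ)) (u : ℕ) : List ℕ :=
  E.map (fun e => if e.1 = u then 1 else if e.2 = u then 1 else 0)

/-- unit vector -/
def unv (R : List ℕ) (i : ℕ) : List ℕ := R.map (fun j => if j = i then 1 else 0)

/-- sum -/
def addv (R v w : List ℕ) : List ℕ := R.map (fun i => v.getD i 0 + w.getD i 0)

/-- indices of the edges at a vertex; `El = List.range E.length` -/
def incd (E : List (ℕ × ℕ)) (El : List ℕ) (v : ℕ) : List ℕ :=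
  El.filter (fun i => decide ((E.getD i (0, 0)).1 = v) || decide ((E.getD i (0, 0)).2 = v))

/-- dimension: number of edges plus number of vertices minus one -/
def dmn (M : List (List ℕ)) : ℕ := (edg M).length + (M.length - 1)

/-- the lines of the cuts; the last vertex is left out -/
def lnC (M : List (List ℕ)) : List (ℕ × List ℕ × List ℕ) :=
  (List.range (M.length - 1)).map (fun u => (u, cutv (edg M) u,
    unv (List.range (dmn M)) ((edg M).length + u)))

/-- the pairs of different elements -/
def prs (I : List ℕ) : List (ℕ × ℕ) :=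
  I.flatMap (fun a => (I.filter (fun b => decide (a < b))).map (fun b => (a, b)))

/-- the lines of a vertex `v` with list `I` of incident edges -/
def lnI (n : ℕ) (R I : List ℕ) (v : ℕ) : List (ℕ × List ℕ × List ℕ) :=
  if I.length = 4 then [(n + v, addv R (unv R (I.getD 0 0)) (unv R (I.getD 1 0)),
    addv R (unv R (I.getD 0 0)) (unv R (I.getD 2 0)))]
  else (prs (I.reverse.tail.reverse)).map (fun q => (n + v, unv R q.1, unv R q.2))

/-- the lines of a vertex -/
def lnV (M : List (List ℕ)) (v : ℕ) : List (ℕ × List ℕ × List ℕ) :=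
  lnI M.length (List.range (dmn M)) (incd (edg M) (List.range (edg M).length) v) v

/-- the degree (number of vertices joined to `v` by an odd number of edges) -/
def dgX (M : List (List ℕ)) (v : ℕ) : ℕ := (incd (edg M) (List.range (edg M).length) v).length

/-- vertices of degree at most four -/
def ordi (M : List (List ℕ)) : List ℕ := (List.range M.length).filter (fun v => decide (dgX M v ≤ 4))

/-- vertices of degree more than four -/
def exc (M : List (List ℕ)) : List ℕ := (List.range M.length).filter (fun v => decide (4 < dgX M v))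

/-- movable lines -/
def mlX (M : List (List ℕ)) : List (ℕ × List ℕ × List ℕ) := lnC M ++ (ordi M).flatMap (lnV M)

/-- fixed lines -/
def flX (M : List (List ℕ)) : List (ℕ × List ℕ × List ℕ) := (exc M).flatMap (lnV M)

/-- doubling step for the list of values -/
def dbl (B : ℕ) (acc : List (List ℕ)) : List (List ℕ) :=
  if acc.length ≤ B then acc.flatMap (fun l => [0 :: l, 1 :: l]) else acc

/-- all bit lists of length `s`, where `B < 2^s ≤ 2 B` (`L = List.range B`) -/
def vals (B : ℕ) (L : List ℕ) : List (List ℕ) := (dbl B)^[L.length] [[]]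

/-- bound for the size of the field -/
def bdX (M : List (List ℕ)) : ℕ :=
  ((mlX M).length + 1) * ((mlX M).length + 1) * (dmn M + 2) + 2

/-- the values -/
def vlX (M : List (List ℕ)) : List (List ℕ) := vals (bdX M) (List.range (bdX M))

/-- the range of the bits of a value -/
def SX (M : List (List ℕ)) : List ℕ := List.range ((vlX M).head?.getD []).length

/-- initial state: the vertex `ex[j]` has value `z[j]` -/
def st0 (n : ℕ) (St ex : List ℕ) (z : List (List ℕ)) : List (List ℕ) :=
  St.map (fun i => (((ex.zip z).filter (fun q => decide (n + q.1 = i))).head?.getD (0, [])).2)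

/-- the final state for the modulus `f` and the values `z` of the vertices of large degree -/
def finX (M : List (List ℕ)) (f : List ℕ) (z : List (List ℕ)) : List (List ℕ) :=
  searchX (SX M) (List.range (dmn M)) (List.range (dmn M + 2))
    (pwl (SX M) f (List.range (2 * (SX M).length)))
    (List.range (2 * M.length)) (vlX M) (mlX M) (mlX M ++ flX M)
    (List.range (((mlX M).length + 1) * ((mlX M).length + 1) * ((dmn M + 2) * (SX M).length)))
    (st0 M.length (List.range (2 * M.length)) (exc M) z)

/-- is the final matrix nonsingular? -/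
def okX (M : List (List ℕ)) (f : List ℕ) (z : List (List ℕ)) : Bool :=
  decide (nulM (SX M) (List.range (dmn M)) (pwl (SX M) f (List.range (2 * (SX M).length)))
    (matA (SX M) (List.range (dmn M)) (mlX M ++ flX M) (finX M f z)) = 0)

/-- all lists of `k` values -/
def asg (Vs : List (List ℕ)) : ℕ → List (List (List ℕ))
  | 0 => [[]]
  | k + 1 => Vs.flatMap (fun v => (asg Vs k).map (fun l => v :: l))

/-- well-formedness -/
def wfX (M : List (List ℕ)) : Bool :=
  M.all (fun r => decide (r.length = M.length)) &&
    (List.range M.length).all (fun u => decide ((M.getD u []).getD u 0 = 0) &&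
      (List.range M.length).all (fun v => decide ((M.getD u []).getD v 0 = (M.getD v []).getD u 0)))

/-- **The decision procedure.** -/
def decX (k : ℕ) (M : List (List ℕ)) : Bool :=
  wfX M && decide (1 ≤ M.length) && decide ((exc M).length ≤ k) &&
    (vlX M).any (fun f => (asg (vlX M) k).any (fun z => okX M f z))

/-! ### semantics -/

section sem

variable {R : Type*} [CommRing R]

/-- the element of the extension coded by a list of bits -/
def repv (θ : R) (s : ℕ) (v : List ℕ) : R := ∑ k ∈ Finset.range s, ((v.getD k 0 : ℕ) : R) * θ ^ k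

/-- `θ` generates `R` over `𝔽₂` with relation `θ^s = ∑ f_k θ^k` -/
structure IsExt [Algebra (ZMod 2) R] (θ : R) (s : ℕ) (f : List ℕ)
    (b : Module.Basis (Fin s) (ZMod 2) R) : Prop where
  pos : 0 < s
  hb : ∀ k : Fin s, b k = θ ^ (k : ℕ)
  hf : θ ^ s = ∑ k ∈ Finset.range s, ((f.getD k 0 : ℕ) : R) * θ ^ k

/-- entry of the alternating matrix over a ring -/
def AE (lines : List (ℕ × List ℕ × List ℕ)) (st : ℕ → R) (r c : ℕ) : R :=
  (lines.map (fun l => ((l.2.2.getD c 0 * l.2.1.getD r 0 +
    l.2.1.getD c 0 * l.2.2.getD r 0 : ℕ) : R) * st l.1)).sum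

/-- the matrix of size `N` over `R` has trivial kernel -/
def TrivKer (lines : List (ℕ × List ℕ × List ℕ)) (st : ℕ → R) (N : ℕ) : Prop :=
  ∀ y : ℕ → R, (∀ r < N, ∑ c ∈ Finset.range N, AE lines st r c * y c = 0) → ∀ c < N, y c = 0

end sem

/-- adjacency modulo `2` -/
def cM (M : List (List ℕ)) (u v : ℕ) : ZMod 2 := (par M u v : ZMod 2)

/-- well-formed matrices -/
structure WF (M : List (List ℕ)) : Prop where
  sq : ∀ r ∈ M, r.length = M.length
  sym : ∀ u v, (M.getD u []).getD v 0 = (M.getD v []).getD u 0
  diag : ∀ u, (M.getD u []).getD u 0 = 0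

end Pool.Agent.H203
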