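import Pool.Agent.H203.XInc

/-!
Part G2 (facts about the list of edges; action of all lines).
`edg_mem`, `edg_ex`: unfold `edg`; the list is nodup, so the index is unique.
`full_action`: `AE` is additive over `++` and `flatMap` of lists of lines, and invariant under permutation of the
list; `(ordi M).flatMap (lnV M) ++ (exc M).flatMap (lnV M)` is a permutation of
`(List.range M.length).flatMap (lnV M)`.  For the line `(u, cutv E u, unv (range N) (m + u))` of `lnC`:
`cutv E u` has the entry `1` at `i < m` iff `incI M u i`, and `0` for `i ≥ m`; `unv (range N) (m+u)` has the only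
nonzero entry at `m + u`, if `m + u < N`.
-/

namespace Pool.Agent.H203



private theorem mem_edg (M : List (List ℕ)) (e : ℕ × ℕ) :
    e ∈ edg M ↔ e.1 < e.2 ∧ e.2 < M.length ∧ par M e.1 e.2 = 1 := by
  unfold edg
  simp only [List.mem_flatMap, List.mem_map, List.mem_filter, List.mem_range, Bool.and_eq_true,
    decide_eq_true_eq]
  constructor
  · rintro ⟨u, hu, v, ⟨hv, huv, hp⟩, rfl⟩
    exact ⟨huv, hv, hp⟩
  · rintro ⟨h1, h2, h3⟩
    exact ⟨e.1, by omega, e.2, ⟨h2, h1, h3⟩, rfl⟩

private theorem edg_nodup (M : List (List ℕ)) : (edg M).Nodup := by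
  unfold edg
  rw [List.nodup_flatMap]
  refine ⟨?_, ?_⟩
  · intro u _
    apply List.Nodup.map
    · intro a b hab
      simpa using hab
    · exact List.nodup_range.filter _
  · apply List.Nodup.pairwise_of_forall_ne List.nodup_range
    intro a _ b _ hab
    simp only [Function.onFun, List.disjoint_left, List.mem_map]
    rintro e ⟨v, _, rfl⟩ ⟨w, _, hw⟩
    apply hab
    have := congrArg Prod.fst hw
    exact this.symm

private theorem cM_one (M : List (List ℕ)) (u v : ℕ) : cM M u v = 1 ↔ par M u v = 1 := by
  unfold cM
  have h : par M u v < 2 := Nat.mod_lt _ (by norm_num)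
  interval_cases par M u v
  · simp
  · simp

/-- TARGET (the four statements below are one target) -/
theorem edg_mem (M : List (List ℕ)) (i : ℕ) (hi : i < (edg M).length) :
    ((edg M).getD i (0, 0)).1 < ((edg M).getD i (0, 0)).2 ∧
    ((edg M).getD i (0, 0)).2 < M.length ∧
    cM M ((edg M).getD i (0, 0)).1 ((edg M).getD i (0, 0)).2 = 1 := by
  have h1 : (edg M).getD i (0, 0) ∈ edg M := by
    rw [List.getD_eq_getElem _ _ hi]
    exact List.getElem_mem hi
  rw [mem_edg] at h1
  rw [cM_one]
  exact h1

theorem edg_ex (M : List (List ℕ)) (u v : ℕ) (huv : u < v) (hv : v < M.length)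
    (hc : cM M u v = 1) : ∃! i, i < (edg M).length ∧ (edg M).getD i (0, 0) = (u, v) := by
  rw [cM_one] at hc
  have h1 : (u, v) ∈ edg M := (mem_edg M (u, v)).2 ⟨huv, hv, hc⟩
  obtain ⟨i, hi, hiv⟩ := List.getElem_of_mem h1
  refine ⟨i, ⟨hi, by rw [List.getD_eq_getElem _ _ hi, hiv]⟩, ?_⟩
  rintro j ⟨hj, hjv⟩
  rw [List.getD_eq_getElem _ _ hj] at hjv
  exact (List.Nodup.getElem_inj_iff (edg_nodup M)).1 (hjv.trans hiv.symm)

section action

variable {K : Type*} [Field K]

private theorem AE_append (L1 L2 : List (ℕ × List ℕ × List ℕ)) (st : ℕ → K) (r c : ℕ) :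
    AE (L1 ++ L2) st r c = AE L1 st r c + AE L2 st r c := by
  unfold AE
  rw [List.map_append, List.sum_append]

private theorem AE_flatMap (L : List ℕ) (g : ℕ → List (ℕ × List ℕ × List ℕ)) (st : ℕ → K) (r c : ℕ) :
    AE (L.flatMap g) st r c = (L.map (fun v => AE (g v) st r c)).sum := by
  induction L with
  | nil => simp [AE]
  | cons a L ih =>
    rw [List.flatMap_cons, AE_append, ih, List.map_cons, List.sum_cons]

private theorem sum_split (L : List ℕ) (p q : ℕ → Bool) (hpq : ∀ v, q v = !(p v)) (F : ℕ → K) :
    ((L.filter p).map F).sum + ((L.filter q).map F).sum = (L.map F).sum := by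
  induction L with
  | nil => simp
  | cons a L ih =>
    rw [List.map_cons, List.sum_cons, ← ih]
    cases h : p a with
    | true =>
      have hq : q a = false := by rw [hpq, h]; rfl
      rw [List.filter_cons_of_pos h, List.filter_cons_of_neg (by rw [hq]; simp), List.map_cons,
        List.sum_cons]
      ring
    | false =>
      have hq : q a = true := by rw [hpq, h]; rfl
      rw [List.filter_cons_of_neg (by rw [h]; simp), List.filter_cons_of_pos hq, List.map_cons,
        List.sum_cons]
      ring

private theorem sum_range_list (n : ℕ) (F : ℕ → K) :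
    ((List.range n).map F).sum = ∑ v ∈ Finset.range n, F v := by
  induction n with
  | zero => simp
  | succ n ih => rw [List.range_succ, List.map_append, List.sum_append, ih, Finset.sum_range_succ]; simp

private theorem AE_full (M : List (List ℕ)) (st : ℕ → K) (r c : ℕ) :
    AE (mlX M ++ flX M) st r c =
      AE (lnC M) st r c + ∑ v ∈ Finset.range M.length, AE (lnV M v) st r c := by
  unfold mlX flX
  rw [AE_append, AE_append, AE_flatMap, AE_flatMap, add_assoc, ordi, exc, sum_split, sum_range_list]
  intro v
  by_cases h : dgX M v ≤ 4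
  · simp [h]
  · simp [h]
    omega

private theorem unv_getD (N i j : ℕ) : (unv (List.range N) i).getD j 0 = if j < N ∧ j = i then 1 else 0 := by
  unfold unv
  by_cases hj : j < N
  · rw [List.getD_eq_getElem _ _ (by simpa using hj)]
    simp [hj]
  · rw [List.getD_eq_default _ _ (by simpa using hj)]
    simp [hj]

private theorem cutv_getD (M : List (List ℕ)) (u i : ℕ) :
    (cutv (edg M) u).getD i 0 = if i < (edg M).length ∧ incI M u i then 1 else 0 := by
  unfold cutv
  by_cases hi : i < (edg M).length
  · rw [List.getD_eq_getElem _ _ (by simpa using hi)]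
    have hI : incI M u i ↔ ((edg M)[i].1 = u ∨ (edg M)[i].2 = u) := by
      unfold incI
      rw [List.getD_eq_getElem _ _ hi]
    rw [List.getElem_map]
    by_cases h1 : (edg M)[i].1 = u
    · rw [if_pos h1, if_pos ⟨hi, hI.2 (Or.inl h1)⟩]
    · rw [if_neg h1]
      by_cases h2 : (edg M)[i].2 = u
      · rw [if_pos h2, if_pos ⟨hi, hI.2 (Or.inr h2)⟩]
      · rw [if_neg h2, if_neg]
        rintro ⟨_, h3⟩
        rcases hI.1 h3 with h4 | h4
        · exact h1 h4
        · exact h2 h4
  · rw [List.getD_eq_default _ _ (by simpa using hi)]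
    simp [hi]

private theorem AE_lnC (M : List (List ℕ)) (st : ℕ → K) (r c : ℕ) :
    AE (lnC M) st r c = ∑ u ∈ Finset.range (M.length - 1),
      ((((if c < dmn M ∧ c = (edg M).length + u then 1 else 0) *
        (if r < (edg M).length ∧ incI M u r then 1 else 0) +
        (if c < (edg M).length ∧ incI M u c then 1 else 0) *
        (if r < dmn M ∧ r = (edg M).length + u then 1 else 0) : ℕ) : K)) * st u := by
  unfold AE lnC
  rw [List.map_map, sum_range_list]
  apply Finset.sum_congr rfl
  intro u _
  simp only [Function.comp_apply, unv_getD, cutv_getD]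

end action

theorem full_action {K : Type*} [Field K] (M : List (List ℕ)) (st y : ℕ → K) (r : ℕ)
    (hr : r < (edg M).length) :
    ∑ c ∈ Finset.range (dmn M), AE (mlX M ++ flX M) st r c * y c =
      ∑ u ∈ Finset.range (M.length - 1),
        st u * (if incI M u r then y ((edg M).length + u) else 0) +
      ∑ v ∈ Finset.range M.length, ∑ c ∈ Finset.range (dmn M), AE (lnV M v) st r c * y c := by
  simp only [AE_full, add_mul, Finset.sum_add_distrib]
  congr 1
  · simp only [AE_lnC, Finset.sum_mul]
    rw [Finset.sum_comm]
    apply Finset.sum_congr rfl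
    intro u hu
    rw [Finset.mem_range] at hu
    have hN : (edg M).length + u < dmn M := by unfold dmn; omega
    rw [Finset.sum_eq_single ((edg M).length + u)]
    · have h1 : ¬ r = (edg M).length + u := by omega
      by_cases h2 : incI M u r
      · simp [hN, hr, h1, h2]
      · simp [hN, hr, h1, h2]
    · intro c _ hc
      have h1 : ¬ r = (edg M).length + u := by omega
      simp [hc, h1]
    · intro h
      exact absurd (Finset.mem_range.2 hN) h
  · simp only [Finset.sum_mul]
    rw [Finset.sum_comm]

theorem full_action' {K : Type*} [Field K] (M : List (List ℕ)) (st y : ℕ → K) (u : ℕ)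
    (hu : u < M.length - 1) :
    ∑ c ∈ Finset.range (dmn M), AE (mlX M ++ flX M) st ((edg M).length + u) c * y c =
      st u * ∑ i ∈ Finset.range (edg M).length, (if incI M u i then y i else 0) +
      ∑ v ∈ Finset.range M.length,
        ∑ c ∈ Finset.range (dmn M), AE (lnV M v) st ((edg M).length + u) c * y c := by
  simp only [AE_full, add_mul, Finset.sum_add_distrib]
  congr 1
  · have hN : (edg M).length + u < dmn M := by unfold dmn; omega
    have hE : ∀ c, AE (lnC M) st ((edg M).length + u) c =
        (if c < (edg M).length ∧ incI M u c then 1 else 0) * st u := by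
      intro c
      rw [AE_lnC, Finset.sum_eq_single u]
      · by_cases h2 : c < (edg M).length ∧ incI M u c
        · simp [hN, h2]
        · simp [hN, h2]
      · intro u' _ hne
        have h1 : ¬ (edg M).length + u = (edg M).length + u' := by omega
        simp
        intro _
        omega
      · intro h
        exact absurd (Finset.mem_range.2 hu) h
    simp only [hE]
    have hsub : Finset.range (edg M).length ⊆ Finset.range (dmn M) := by
      intro i hi
      rw [Finset.mem_range] at hi ⊢
      omega
    rw [Finset.mul_sum, ← Finset.sum_subset hsub]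
    · apply Finset.sum_congr rfl
      intro i hi
      rw [Finset.mem_range] at hi
      by_cases h2 : incI M u i
      · simp [hi, h2]
      · simp [hi, h2]
    · intro i _ hi
      rw [Finset.mem_range] at hi
      simp [hi]
  · simp only [Finset.sum_mul]
    rw [Finset.sum_comm]

end Pool.Agent.H203
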