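import Pool.Agent.H203.XG1
import Pool.Agent.H203.XG2

/-!
Part G3 (from a trivial kernel to a nondegenerate weighting).
Notation: `m = (edg M).length`, `n = M.length`, `N = dmn M = m + (n-1)`, `p v = st (n + v)`.
0. `st u ≠ 0` for `u < n - 1`: otherwise the unit vector at `m + u` would be in the kernel (`full_action`,
   `full_action'`, `lnV_action` with `y = unit vector`, for which `y i = 0` for all `i < m`).
1. Let `(x, f)` be a solution (`Sol`).  Put `X i = x u v` for the `i`-th edge `(u,v)`.  For each `v < n`,
   `∑_{i<m, i at v} X i = ∑_{w<n} x v w = 0` (`edg_mem`, `edg_ex`, symmetry and support of `x`): the edges at `v`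
   correspond bijectively to the `w < n` with `cM M v w = 1` (`cM` is symmetric with zero diagonal by `WF`).
2. Let `lam v` be given by `lnV_action` for the vector `X` (it depends only on `y i` for `i < m` in its use
   below; apply the lemma to the final vector `y`).  Put `y i = X i` for `i < m` and
   `y (m + u) = (f u + f (n-1) + p (n-1) * lam (n-1) + p u * lam u) / st u` for `u < n - 1`.
   [To avoid circularity: choose `lam v` first, from `lnV_action` applied to the vector `y0` with `y0 i = X i`
   for `i < m` and `0` else; the sums `∑_c AE (lnV M v) ..` over `c` need a remark that `AE (lnV M v) st r c = 0`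
   for `m ≤ c`, which follows by applying `lnV_action` (third part, first part) to unit vectors, or directly:
   apply `lnV_action` to the difference `y - y0`, which vanishes for all `i < m`.]
3. Row `r < m` with edge `(u,v)`: the sum is `(p u + p v) * X r + (f u + f v) = 0`, where for `u = n-1` the
   potential is `p (n-1) * lam (n-1)`; (characteristic 2).  Row `m + u`: `st u * 0 + 0 = 0`.
4. So `y = 0` by `TrivKer`; so `X = 0`, so `x = 0` (support and symmetry), `lam = 0` (first part of
   `lnV_action`), and `f u = f (n-1)` for all `u < n - 1`.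
If `n = 1` everything is easy (`x 0 0 = 0` by `supp`).
-/

namespace Pool.Agent.H203








theorem g3_symc {M : List (List ℕ)} (hM : WF M) (u v : ℕ) : cM M u v = cM M v u := by
  unfold cM par
  rw [hM.sym u v]

theorem g3_diag {M : List (List ℕ)} (hM : WF M) (u : ℕ) : cM M u u = 0 := by
  unfold cM par
  rw [hM.diag u]
  rfl

/-- the edges at a vertex correspond to its neighbours -/
theorem g3_sum {K : Type*} [Field K] {M : List (List ℕ)} (hM : WF M)
    (x : ℕ → ℕ → K) (hsym : ∀ u ∈ Finset.range M.length, ∀ v ∈ Finset.range M.length, x u v = x v u)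
    (hsupp : ∀ u ∈ Finset.range M.length, ∀ v ∈ Finset.range M.length, cM M u v = 0 → x u v = 0)
    (v : ℕ) (hv : v < M.length) :
    ∑ i ∈ Finset.range (edg M).length, (if incI M v i then
      x ((edg M).getD i (0, 0)).1 ((edg M).getD i (0, 0)).2 else 0) =
      ∑ w ∈ Finset.range M.length, x v w := by
  have h1 : ∑ w ∈ Finset.range M.length, x v w =
      ∑ w ∈ (Finset.range M.length).filter (fun w => cM M v w = 1), x v w := by
    rw [Finset.sum_filter]
    refine Finset.sum_congr rfl fun w hw => ?_
    rcases zmod2_cases (cM M v w) with h | h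
    · rw [h, if_neg (by decide)]
      exact hsupp v (Finset.mem_range.2 hv) w hw h
    · rw [if_pos h]
  rw [h1, ← Finset.sum_filter]
  refine Finset.sum_bij (fun i _ => if ((edg M).getD i (0, 0)).1 = v then
    ((edg M).getD i (0, 0)).2 else ((edg M).getD i (0, 0)).1) ?_ ?_ ?_ ?_
  · intro i hi
    rw [Finset.mem_filter, Finset.mem_range] at hi
    obtain ⟨h2, h3, h4⟩ := edg_mem M i hi.1
    rw [Finset.mem_filter, Finset.mem_range]
    split_ifs with h5
    · exact ⟨h3, by rw [← h5]; exact h4⟩
    · have h6 : ((edg M).getD i (0, 0)).2 = v := hi.2.resolve_left h5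
      exact ⟨lt_trans h2 h3, by rw [g3_symc hM, ← h6]; exact h4⟩
  · intro i hi j hj hij
    rw [Finset.mem_filter, Finset.mem_range] at hi hj
    obtain ⟨a2, a3, a4⟩ := edg_mem M i hi.1
    obtain ⟨b2, b3, b4⟩ := edg_mem M j hj.1
    have key : (edg M).getD i (0, 0) = (edg M).getD j (0, 0) := by
      by_cases h5 : ((edg M).getD i (0, 0)).1 = v
      · by_cases h6 : ((edg M).getD j (0, 0)).1 = v
        · simp only [h5, h6, if_true] at hij
          exact Prod.ext (h5.trans h6.symm) hij
        · have h7 : ((edg M).getD j (0, 0)).2 = v := hj.2.resolve_left h6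
          simp only [h5, h6, if_true, if_false] at hij
          omega
      · have h7 : ((edg M).getD i (0, 0)).2 = v := hi.2.resolve_left h5
        by_cases h6 : ((edg M).getD j (0, 0)).1 = v
        · simp only [h5, h6, if_true, if_false] at hij
          omega
        · have h8 : ((edg M).getD j (0, 0)).2 = v := hj.2.resolve_left h6
          simp only [h5, h6, if_false] at hij
          exact Prod.ext hij (h7.trans h8.symm)
    obtain ⟨k, -, hk⟩ := edg_ex M _ _ a2 a3 a4
    exact (hk i ⟨hi.1, rfl⟩).trans (hk j ⟨hj.1, key.symm⟩).symm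
  · intro w hw
    rw [Finset.mem_filter, Finset.mem_range] at hw
    have hwv : w ≠ v := by
      rintro rfl
      rw [g3_diag hM] at hw
      exact absurd hw.2 (by decide)
    rcases Nat.lt_or_ge v w with h2 | h2
    · obtain ⟨i, ⟨hi, hi2⟩, -⟩ := edg_ex M v w h2 hw.1 hw.2
      refine ⟨i, ?_, ?_⟩
      · rw [Finset.mem_filter, Finset.mem_range]
        exact ⟨hi, Or.inl (by rw [hi2])⟩
      · simp only [hi2, if_true]
    · have h3 : w < v := lt_of_le_of_ne h2 hwv
      obtain ⟨i, ⟨hi, hi2⟩, -⟩ := edg_ex M w v h3 hv (by rw [g3_symc hM]; exact hw.2)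
      refine ⟨i, ?_, ?_⟩
      · rw [Finset.mem_filter, Finset.mem_range]
        exact ⟨hi, Or.inr (by rw [hi2])⟩
      · simp only [hi2, hwv, if_false]
  · intro i hi
    rw [Finset.mem_filter, Finset.mem_range] at hi
    obtain ⟨a2, a3, a4⟩ := edg_mem M i hi.1
    split_ifs with h5
    · rw [← h5]
    · have h6 : ((edg M).getD i (0, 0)).2 = v := hi.2.resolve_left h5
      rw [hsym _ (Finset.mem_range.2 (lt_trans a2 a3)) _ (Finset.mem_range.2 a3), h6]

/-- the sum over the ends of an edge -/
theorem g3_two {K : Type*} [Field K] (M : List (List ℕ)) (r : ℕ) (hr : r < (edg M).length)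
    (g : ℕ → K) : ∑ w ∈ Finset.range M.length, (if incI M w r then g w else 0) =
      g ((edg M).getD r (0, 0)).1 + g ((edg M).getD r (0, 0)).2 := by
  obtain ⟨a2, a3, a4⟩ := edg_mem M r hr
  rw [← Finset.sum_filter]
  have : (Finset.range M.length).filter (fun w => incI M w r) =
      {((edg M).getD r (0, 0)).1, ((edg M).getD r (0, 0)).2} := by
    ext w
    rw [Finset.mem_filter, Finset.mem_range, Finset.mem_insert, Finset.mem_singleton]
    constructor
    · rintro ⟨-, h | h⟩
      · exact Or.inl h.symm
      · exact Or.inr h.symm
    · rintro (rfl | rfl)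
      · exact ⟨lt_trans a2 a3, Or.inl rfl⟩
      · exact ⟨a3, Or.inr rfl⟩
  rw [this, Finset.sum_pair a2.ne]

/-- vectors vanishing on the edges are killed by the vertex lines -/
theorem g3_kill {K : Type*} [Field K] [CharP K 2] (M : List (List ℕ)) (v : ℕ) (st d : ℕ → K)
    (hd : ∀ i < (edg M).length, d i = 0) (r : ℕ) :
    ∑ c ∈ Finset.range (dmn M), AE (lnV M v) st r c * d c = 0 := by
  obtain ⟨lam, h1, h2, h3⟩ := lnV_action M v st d (Finset.sum_eq_zero fun i hi => by
    rw [hd i (Finset.mem_range.1 hi), ite_self])
  rcases Nat.lt_or_ge r (edg M).length with hr | hr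
  · rw [h2 r hr, hd r hr, h1 hd, add_zero, ite_self, mul_zero]
  · exact h3 r hr

/-- TARGET -/
theorem nd_of_triv {K : Type*} [Field K] [CharP K 2] (M : List (List ℕ)) (hM : WF M)
    (hn : 1 ≤ M.length) (st : ℕ → K) (h : TrivKer (mlX M ++ flX M) st (dmn M)) :
    ND (cM M) (Finset.range M.length) (fun v => st (M.length + v)) := by
  have two : ∀ a : K, a + a = 0 := fun a => CharTwo.add_self_eq_zero a
  -- step 0
  have hst : ∀ u < M.length - 1, st u ≠ 0 := by
    intro u hu hz
    have h1 := h (fun c => if c = (edg M).length + u then 1 else 0) ?_ ((edg M).length + u)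
      (by unfold dmn; omega)
    · rw [if_pos rfl] at h1
      exact one_ne_zero h1
    · have hd : ∀ i < (edg M).length,
          (fun c : ℕ => if c = (edg M).length + u then (1 : K) else 0) i = 0 := fun i hi =>
        if_neg (by omega)
      intro r hr
      rcases Nat.lt_or_ge r (edg M).length with hr1 | hr1
      · rw [full_action M st _ r hr1]
        rw [Finset.sum_eq_zero, Finset.sum_eq_zero, add_zero]
        · intro v _
          exact g3_kill M v st _ hd r
        · intro w _
          by_cases hw : w = u
          · rw [hw, hz, zero_mul]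
          · have : ¬ ((edg M).length + w = (edg M).length + u) := by omega
            simp only [this, if_false, ite_self, mul_zero]
      · obtain ⟨w, rfl⟩ := Nat.exists_eq_add_of_le hr1
        have hw : w < M.length - 1 := by unfold dmn at hr; omega
        rw [full_action' M st _ w hw]
        rw [Finset.sum_eq_zero, Finset.sum_eq_zero, mul_zero, add_zero]
        · intro v _
          exact g3_kill M v st _ hd _
        · intro i hi
          have h2 : ¬ (i = (edg M).length + u) := by
            have := Finset.mem_range.1 hi
            omega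
          simp only [h2, if_false, ite_self]
  intro x f hS
  set p : ℕ → K := fun v => st (M.length + v) with hp
  -- step 1
  set X : ℕ → K := fun i => x ((edg M).getD i (0, 0)).1 ((edg M).getD i (0, 0)).2 with hX
  have hXsum : ∀ v < M.length, ∑ i ∈ Finset.range (edg M).length,
      (if incI M v i then X i else 0) = 0 := by
    intro v hv
    rw [g3_sum hM x hS.sym hS.supp v hv]
    exact hS.row v (Finset.mem_range.2 hv)
  -- step 2
  set y0 : ℕ → K := fun i => if i < (edg M).length then X i else 0 with hy0
  have hex : ∀ v, ∃ lam : K, v < M.length → (((∀ i < (edg M).length, y0 i = 0) → lam = 0) ∧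
      (∀ r < (edg M).length, ∑ c ∈ Finset.range (dmn M), AE (lnV M v) st r c * y0 c =
        p v * (if incI M v r then y0 r + lam else 0)) ∧
      (∀ r, (edg M).length ≤ r →
        ∑ c ∈ Finset.range (dmn M), AE (lnV M v) st r c * y0 c = 0)) := by
    intro v
    by_cases hv : v < M.length
    · obtain ⟨lam, hl⟩ := lnV_action M v st y0 (by
        refine (Finset.sum_congr rfl fun i hi => ?_).trans (hXsum v hv)
        rw [hy0]
        simp only [Finset.mem_range.1 hi, if_true])
      exact ⟨lam, fun _ => hl⟩
    · exact ⟨0, fun hv' => absurd hv' hv⟩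
  choose lam hlam using hex
  set φ : ℕ → K := fun w => f w + f (M.length - 1) + p (M.length - 1) * lam (M.length - 1) +
    p w * lam w with hφ
  set y : ℕ → K := fun i => if i < (edg M).length then X i else
    φ (i - (edg M).length) / st (i - (edg M).length) with hy
  have hyX : ∀ i < (edg M).length, y i = X i := fun i hi => by
    rw [hy]
    simp only [hi, if_true]
  have hy0X : ∀ i < (edg M).length, y0 i = X i := fun i hi => by
    rw [hy0]
    simp only [hi, if_true]
  have hyφ : ∀ u < M.length - 1, st u * y ((edg M).length + u) = φ u := by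
    intro u hu
    rw [hy]
    have h1 : ¬ ((edg M).length + u < (edg M).length) := by omega
    simp only [h1, if_false, Nat.add_sub_cancel_left]
    rw [mul_div_cancel₀ _ (hst u hu)]
  have hyy0 : ∀ v r, ∑ c ∈ Finset.range (dmn M), AE (lnV M v) st r c * y c =
      ∑ c ∈ Finset.range (dmn M), AE (lnV M v) st r c * y0 c := by
    intro v r
    have h1 := g3_kill M v st (fun i => y i - y0 i) (fun i hi => by
      change y i - y0 i = 0
      rw [hyX i hi, hy0X i hi, sub_self]) r
    simp only [mul_sub, Finset.sum_sub_distrib] at h1
    exact sub_eq_zero.1 h1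
  have hlast : φ (M.length - 1) = 0 := by
    rw [hφ]
    change f (M.length - 1) + f (M.length - 1) + p (M.length - 1) * lam (M.length - 1) +
      p (M.length - 1) * lam (M.length - 1) = 0
    rw [two, zero_add, two]
  -- step 3
  have hker : ∀ r < dmn M, ∑ c ∈ Finset.range (dmn M), AE (mlX M ++ flX M) st r c * y c = 0 := by
    intro r hr
    rcases Nat.lt_or_ge r (edg M).length with hr1 | hr1
    · rw [full_action M st y r hr1]
      have e1 : ∑ u ∈ Finset.range (M.length - 1),
          st u * (if incI M u r then y ((edg M).length + u) else 0) =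
          ∑ w ∈ Finset.range M.length, (if incI M w r then φ w else 0) := by
        have h2 : M.length = (M.length - 1) + 1 := by omega
        conv_rhs => rw [h2, Finset.sum_range_succ, hlast, ite_self, add_zero]
        refine Finset.sum_congr rfl fun u hu => ?_
        split_ifs
        · exact hyφ u (Finset.mem_range.1 hu)
        · exact mul_zero _
      have e2 : ∑ v ∈ Finset.range M.length,
          ∑ c ∈ Finset.range (dmn M), AE (lnV M v) st r c * y c =
          ∑ v ∈ Finset.range M.length, (if incI M v r then p v * (X r + lam v) else 0) := by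
        refine Finset.sum_congr rfl fun v hv => ?_
        rw [hyy0, (hlam v (Finset.mem_range.1 hv)).2.1 r hr1, hy0X r hr1]
        split_ifs
        · rfl
        · exact mul_zero _
      rw [e1, e2, g3_two M r hr1, g3_two M r hr1]
      obtain ⟨a2, a3, a4⟩ := edg_mem M r hr1
      have hpot := hS.pot _ (Finset.mem_range.2 (lt_trans a2 a3)) _ (Finset.mem_range.2 a3) a4
      have hXr : x ((edg M).getD r (0, 0)).1 ((edg M).getD r (0, 0)).2 = X r := rfl
      rw [hXr] at hpot
      generalize ((edg M).getD r (0, 0)).1 = a at *
      generalize ((edg M).getD r (0, 0)).2 = b at *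
      rw [hφ]
      change (f a + f (M.length - 1) + p (M.length - 1) * lam (M.length - 1) + p a * lam a) +
        (f b + f (M.length - 1) + p (M.length - 1) * lam (M.length - 1) + p b * lam b) +
        (p a * (X r + lam a) + p b * (X r + lam b)) = 0
      linear_combination hpot + two (f (M.length - 1)) +
        two (p (M.length - 1) * lam (M.length - 1)) + two (p a * lam a) + two (p b * lam b) +
        two (f a) + two (f b)
    · obtain ⟨w, rfl⟩ := Nat.exists_eq_add_of_le hr1
      have hw : w < M.length - 1 := by unfold dmn at hr; omega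
      rw [full_action' M st y w hw]
      have e1 : ∑ i ∈ Finset.range (edg M).length, (if incI M w i then y i else 0) = 0 := by
        refine (Finset.sum_congr rfl fun i hi => ?_).trans (hXsum w (by omega))
        rw [hyX i (Finset.mem_range.1 hi)]
      rw [e1, mul_zero, zero_add]
      refine Finset.sum_eq_zero fun v hv => ?_
      rw [hyy0]
      exact (hlam v (Finset.mem_range.1 hv)).2.2 _ hr1
  -- step 4
  have hy0' := h y hker
  have hX0 : ∀ i < (edg M).length, X i = 0 := by
    intro i hi
    rw [← hyX i hi]
    exact hy0' i (by unfold dmn; omega)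
  have hl0 : ∀ v < M.length, lam v = 0 := fun v hv =>
    (hlam v hv).1 fun i hi => by rw [hy0X i hi, hX0 i hi]
  have hlt : ∀ u ∈ Finset.range M.length, ∀ v ∈ Finset.range M.length, u < v → x u v = 0 := by
    intro u hu v hv huv
    rcases zmod2_cases (cM M u v) with hc | hc
    · exact hS.supp u hu v hv hc
    · obtain ⟨i, ⟨hi, hi2⟩, -⟩ := edg_ex M u v huv (Finset.mem_range.1 hv) hc
      have := hX0 i hi
      rw [hX] at this
      simp only [hi2] at this
      exact this
  have hf0 : ∀ u < M.length, f u = f (M.length - 1) := by
    intro u hu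
    rcases Nat.lt_or_ge u (M.length - 1) with h1 | h1
    · have h2 := hyφ u h1
      rw [hy0' _ (by unfold dmn; omega), mul_zero] at h2
      have h3 : f u + f (M.length - 1) + p (M.length - 1) * lam (M.length - 1) +
          p u * lam u = 0 := h2.symm
      rw [hl0 u hu, hl0 (M.length - 1) (by omega), mul_zero, mul_zero, add_zero, add_zero] at h3
      exact CharTwo.add_eq_zero.1 h3
    · have : u = M.length - 1 := by omega
      rw [this]
  refine ⟨?_, fun u hu v hv => ?_⟩
  · intro u hu v hv
    rcases lt_trichotomy u v with h1 | h1 | h1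
    · exact hlt u hu v hv h1
    · rw [h1]
      exact hS.supp v hv v hv (g3_diag hM v)
    · rw [hS.sym u hu v hv]
      exact hlt v hv u hu h1
  · rw [hf0 u (Finset.mem_range.1 hu), hf0 v (Finset.mem_range.1 hv)]

end Pool.Agent.H203
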