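import Pool.Agent.H203.XG1
import Pool.Agent.H203.XG2

/-!
Part G4 (from a nondegenerate weighting to a trivial kernel).
Notation: `m = (edg M).length`, `n = M.length`, `N = dmn M = m + (n-1)`, `p v = st (n + v)`, `st u = 1` for `u < n`.
Let `y` be in the kernel.
1. Rows `m + u`, `u < n - 1`: by `full_action'` and `lnV_action`(3rd part; it needs its hypothesis `h0` for all
   `v`)...  To avoid circularity first show directly (unfold `lnV`, `lnI`, `AE`; the entries of `unv (range N) i`
   with `i < m` vanish at `m + u`) or by linearity (`lnV_action` applied to suitable vectors) that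
   `AE (lnV M v) st (m + u) c = 0`.  Hence `∑_{i<m, i at u} y i = 0` for all `u < n - 1`, and, as each edge has
   exactly two ends, also for `u = n - 1` (characteristic 2).
2. So `lnV_action` gives `lam v` for all `v < n`.  Put `x v w = ∑_{i<m} (if edge i is (v,w) or (w,v) then y i else 0)`
   and `f u = y (m + u) + p u * lam u` for `u < n - 1`, `f (n-1) = p (n-1) * lam (n-1)`.
3. `(x, f)` is a solution (`Sol`): symmetric; supported (`edg_mem`, `WF`); row sums:
   `∑_{w<n} x v w = ∑_{i<m, i at v} y i = 0`; for `cM M u v = 1`, `u < v` there is exactly one edge `r` (`edg_ex`), and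
   `full_action` at `r` says `(p u + p v) * y r + f u + f v = 0`.
4. So by `ND` all `x u v = 0`, so `y i = 0` for `i < m`, so `lam = 0`, and `f` is constant `= f (n-1) = 0`, so
   `y (m + u) = 0`.
-/

namespace Pool.Agent.H203









/-! ### auxiliary lemmas -/

theorem getD_map_range (F : ℕ → ℕ) (N r : ℕ) :
    ((List.range N).map F).getD r 0 = if r < N then F r else 0 := by
  rw [List.getD_eq_getElem?_getD, List.getElem?_map]
  by_cases h : r < N
  · rw [if_pos h, List.getElem?_range h]
    rfl
  · rw [if_neg h, List.getElem?_eq_none (by rw [List.length_range]; omega)]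
    rfl

theorem unv_getD0 (N i r : ℕ) (h : i ≠ r) : (unv (List.range N) i).getD r 0 = 0 := by
  unfold unv
  rw [getD_map_range, if_neg (Ne.symm h)]
  split <;> rfl

theorem addv_getD0 (N r : ℕ) (v w : List ℕ) (hv : v.getD r 0 = 0) (hw : w.getD r 0 = 0) :
    (addv (List.range N) v w).getD r 0 = 0 := by
  unfold addv
  rw [getD_map_range, hv, hw]
  split <;> rfl

theorem incd_lt (E : List (ℕ × ℕ)) (m v i : ℕ) (h : i ∈ incd E (List.range m) v) : i < m := by
  unfold incd at h
  exact List.mem_range.1 (List.mem_filter.1 h).1

theorem getD_lt_of_mem (I : List ℕ) (m k : ℕ) (hI : ∀ i ∈ I, i < m) (hk : k < I.length) :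
    I.getD k 0 < m := by
  rw [List.getD_eq_getElem?_getD, List.getElem?_eq_getElem hk]
  exact hI _ (List.getElem_mem hk)

theorem lnV_zero (M : List (List ℕ)) (v r : ℕ) (hr : (edg M).length ≤ r) :
    ∀ l ∈ lnV M v, l.2.1.getD r 0 = 0 ∧ l.2.2.getD r 0 = 0 := by
  intro l hl
  have hI : ∀ i ∈ incd (edg M) (List.range (edg M).length) v, i < (edg M).length :=
    fun i hi => incd_lt _ _ _ _ hi
  unfold lnV lnI at hl
  generalize incd (edg M) (List.range (edg M).length) v = I at hl hI
  by_cases h4 : I.length = 4
  · rw [if_pos h4, List.mem_singleton] at hl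
    have h0 := getD_lt_of_mem I _ 0 hI (by omega)
    have h1 := getD_lt_of_mem I _ 1 hI (by omega)
    have h2 := getD_lt_of_mem I _ 2 hI (by omega)
    rw [hl]
    exact ⟨addv_getD0 _ _ _ _ (unv_getD0 _ _ _ (by omega)) (unv_getD0 _ _ _ (by omega)),
      addv_getD0 _ _ _ _ (unv_getD0 _ _ _ (by omega)) (unv_getD0 _ _ _ (by omega))⟩
  · rw [if_neg h4, List.mem_map] at hl
    obtain ⟨q, hq, rfl⟩ := hl
    unfold prs at hq
    rw [List.mem_flatMap] at hq
    obtain ⟨a, ha, hq⟩ := hq
    rw [List.mem_map] at hq
    obtain ⟨b, hb, rfl⟩ := hq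
    have hmem : ∀ z ∈ I.reverse.tail.reverse, z ∈ I := fun z hz =>
      List.mem_reverse.1 (List.mem_of_mem_tail (List.mem_reverse.1 hz))
    have h1 := hI a (hmem a ha)
    have h2 := hI b (hmem b (List.mem_filter.1 hb).1)
    exact ⟨unv_getD0 _ _ _ (by omega), unv_getD0 _ _ _ (by omega)⟩

theorem AE_lnV_zero {K : Type*} [Field K] (M : List (List ℕ)) (st : ℕ → K) (v r c : ℕ)
    (hr : (edg M).length ≤ r) : AE (lnV M v) st r c = 0 := by
  unfold AE
  apply List.sum_eq_zero
  intro z hz
  rw [List.mem_map] at hz
  obtain ⟨l, hl, rfl⟩ := hz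
  obtain ⟨h1, h2⟩ := lnV_zero M v r hr l hl
  rw [h1, h2, mul_zero, mul_zero, add_zero, Nat.cast_zero, zero_mul]

theorem cM_symm {M : List (List ℕ)} (hM : WF M) (u v : ℕ) : cM M u v = cM M v u := by
  unfold cM par
  rw [hM.sym u v]

theorem cM_diag {M : List (List ℕ)} (hM : WF M) (u : ℕ) : cM M u u = 0 := by
  unfold cM par
  rw [hM.diag u]
  rfl

/-- two ends -/
theorem two_ends {K : Type*} [Field K] (n a b : ℕ) (hab : a < b) (hb : b < n) (F : ℕ → K) :
    ∑ u ∈ Finset.range n, (if a = u ∨ b = u then F u else 0) = F a + F b := by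
  have h1 : ∀ u ∈ Finset.range n, (if a = u ∨ b = u then F u else 0) =
      (if a = u then F u else 0) + (if b = u then F u else 0) := by
    intro u _
    by_cases h1 : a = u
    · have h2 : ¬ b = u := by omega
      rw [if_pos (Or.inl h1), if_pos h1, if_neg h2, add_zero]
    · by_cases h2 : b = u
      · rw [if_pos (Or.inr h2), if_pos h2, if_neg h1, zero_add]
      · rw [if_neg (by tauto), if_neg h1, if_neg h2, add_zero]
  rw [Finset.sum_congr rfl h1, Finset.sum_add_distrib, Finset.sum_ite_eq, Finset.sum_ite_eq,
    if_pos (Finset.mem_range.2 (by omega)), if_pos (Finset.mem_range.2 hb)]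

/-- the edge variables as a symmetric function -/
def xE {K : Type*} [Field K] (M : List (List ℕ)) (y : ℕ → K) (v w : ℕ) : K :=
  ∑ i ∈ Finset.range (edg M).length, (if (edg M).getD i (0, 0) = (v, w) ∨
    (edg M).getD i (0, 0) = (w, v) then y i else 0)

theorem xE_symm {K : Type*} [Field K] (M : List (List ℕ)) (y : ℕ → K) (v w : ℕ) :
    xE M y v w = xE M y w v := by
  unfold xE
  apply Finset.sum_congr rfl
  intro i _
  by_cases h : (edg M).getD i (0, 0) = (v, w) ∨ (edg M).getD i (0, 0) = (w, v)
  · rw [if_pos h, if_pos h.symm]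
  · rw [if_neg h, if_neg (fun h' => h h'.symm)]

theorem xE_supp {K : Type*} [Field K] (M : List (List ℕ)) (hM : WF M) (y : ℕ → K) (v w : ℕ)
    (h0 : cM M v w = 0) : xE M y v w = 0 := by
  unfold xE
  apply Finset.sum_eq_zero
  intro i hi
  rw [if_neg]
  obtain ⟨_, _, h3⟩ := edg_mem M i (Finset.mem_range.1 hi)
  rintro (h | h)
  · rw [h, h0] at h3
    exact zero_ne_one h3
  · rw [h, cM_symm hM, h0] at h3
    exact zero_ne_one h3

theorem xE_edge {K : Type*} [Field K] (M : List (List ℕ)) (y : ℕ → K) (r : ℕ)
    (hr : r < (edg M).length) :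
    xE M y ((edg M).getD r (0, 0)).1 ((edg M).getD r (0, 0)).2 = y r := by
  obtain ⟨h1, h2, h3⟩ := edg_mem M r hr
  obtain ⟨r', ⟨_, _⟩, hun⟩ := edg_ex M _ _ h1 h2 h3
  have hr' : r = r' := hun r ⟨hr, rfl⟩
  unfold xE
  rw [Finset.sum_eq_single r]
  · rw [if_pos (Or.inl rfl)]
  · intro i hi hir
    rw [if_neg]
    rintro (h | h)
    · apply hir
      rw [hr']
      exact hun i ⟨Finset.mem_range.1 hi, h⟩
    · have h5 := (edg_mem M i (Finset.mem_range.1 hi)).1
      rw [h] at h5
      simp only at h5
      omega
  · intro h
    exact absurd (Finset.mem_range.2 hr) h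

theorem pair_row {K : Type*} [Field K] (n v : ℕ) (e : ℕ × ℕ) (h1 : e.1 < e.2) (h2 : e.2 < n)
    (Y : K) : ∑ w ∈ Finset.range n, (if e = (v, w) ∨ e = (w, v) then Y else 0) =
      if e.1 = v ∨ e.2 = v then Y else 0 := by
  obtain ⟨a, b⟩ := e
  simp only at h1 h2 ⊢
  by_cases ha : a = v
  · subst ha
    rw [if_pos (Or.inl rfl), Finset.sum_eq_single b]
    · rw [if_pos (Or.inl rfl)]
    · intro w _ hw
      rw [if_neg]
      rintro (h | h)
      · exact hw (Prod.mk.inj h).2.symm
      · have := (Prod.mk.inj h).2
        omega
    · intro h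
      exact absurd (Finset.mem_range.2 h2) h
  · by_cases hb : b = v
    · subst hb
      rw [if_pos (Or.inr rfl), Finset.sum_eq_single a]
      · rw [if_pos (Or.inr rfl)]
      · intro w _ hw
        rw [if_neg]
        rintro (h | h)
        · have := (Prod.mk.inj h).1
          omega
        · exact hw (Prod.mk.inj h).1.symm
      · intro h
        exact absurd (Finset.mem_range.2 (h1.trans h2)) h
    · rw [if_neg (by tauto)]
      apply Finset.sum_eq_zero
      intro w _
      rw [if_neg]
      rintro (h | h)
      · exact ha (Prod.mk.inj h).1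
      · exact hb (Prod.mk.inj h).2

theorem xE_row {K : Type*} [Field K] (M : List (List ℕ)) (y : ℕ → K) (v : ℕ) :
    ∑ w ∈ Finset.range M.length, xE M y v w =
      ∑ i ∈ Finset.range (edg M).length, (if incI M v i then y i else 0) := by
  unfold xE
  rw [Finset.sum_comm]
  apply Finset.sum_congr rfl
  intro i hi
  obtain ⟨h1, h2, _⟩ := edg_mem M i (Finset.mem_range.1 hi)
  rw [pair_row _ _ _ h1 h2]
  by_cases h : incI M v i
  · rw [if_pos h, if_pos]
    exact h
  · rw [if_neg h, if_neg]
    exact h

theorem add_self_c2 {K : Type*} [Field K] [CharP K 2] (a : K) : a + a = 0 := CharTwo.add_self_eq_zero a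

/-- TARGET -/
theorem triv_of_nd {K : Type*} [Field K] [CharP K 2] (M : List (List ℕ)) (hM : WF M)
    (hn : 1 ≤ M.length) (st : ℕ → K) (hst : ∀ u < M.length, st u = 1)
    (h : ND (cM M) (Finset.range M.length) (fun v => st (M.length + v))) :
    TrivKer (mlX M ++ flX M) st (dmn M) := by
  classical
  intro y hy
  -- the sums at the vertices
  have hS1 : ∀ u < M.length - 1,
      ∑ i ∈ Finset.range (edg M).length, (if incI M u i then y i else 0) = 0 := by
    intro u hu
    have h1 := full_action' M st y u hu
    rw [hy ((edg M).length + u) (by unfold dmn; omega), hst u (by omega), one_mul] at h1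
    have h2 : ∑ v ∈ Finset.range M.length,
        ∑ c ∈ Finset.range (dmn M), AE (lnV M v) st ((edg M).length + u) c * y c = 0 := by
      apply Finset.sum_eq_zero
      intro v _
      apply Finset.sum_eq_zero
      intro c _
      rw [AE_lnV_zero M st v _ c (by omega), zero_mul]
    rw [h2, add_zero] at h1
    exact h1.symm
  have hS : ∀ u < M.length,
      ∑ i ∈ Finset.range (edg M).length, (if incI M u i then y i else 0) = 0 := by
    intro u hu
    by_cases hu1 : u < M.length - 1
    · exact hS1 u hu1
    · have hu2 : u = M.length - 1 := by omega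
      have h1 : ∑ u ∈ Finset.range M.length,
          ∑ i ∈ Finset.range (edg M).length, (if incI M u i then y i else 0) = 0 := by
        rw [Finset.sum_comm]
        apply Finset.sum_eq_zero
        intro i hi
        obtain ⟨h1, h2, _⟩ := edg_mem M i (Finset.mem_range.1 hi)
        have h3 := two_ends M.length _ _ h1 h2 (fun _ => y i)
        rw [add_self_c2] at h3
        refine Eq.trans (Finset.sum_congr rfl ?_) h3
        intro w _
        by_cases h4 : incI M w i
        · rw [if_pos h4, if_pos]
          exact h4
        · rw [if_neg h4, if_neg]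
          exact h4
      rw [Finset.sum_eq_single (M.length - 1)] at h1
      · rw [hu2]
        exact h1
      · intro w hw hw1
        have := Finset.mem_range.1 hw
        exact hS1 w (by omega)
      · intro hw
        exact absurd (Finset.mem_range.2 (by omega)) hw
  -- the vertex constants
  have hlam : ∀ v, ∃ lam : K, v < M.length → ((∀ i < (edg M).length, y i = 0) → lam = 0) ∧
      (∀ r < (edg M).length, ∑ c ∈ Finset.range (dmn M), AE (lnV M v) st r c * y c =
        st (M.length + v) * (if incI M v r then y r + lam else 0)) := by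
    intro v
    by_cases hv : v < M.length
    · obtain ⟨lam, h1, h2, _⟩ := lnV_action M v st y (hS v hv)
      exact ⟨lam, fun _ => ⟨h1, h2⟩⟩
    · exact ⟨0, fun h => absurd h hv⟩
  choose lam hlam using hlam
  -- the potential
  set g : ℕ → K := fun u => if u < M.length - 1 then y ((edg M).length + u) else 0 with hg
  have hsol : Sol (cM M) (Finset.range M.length) (fun v => st (M.length + v)) (xE M y)
      (fun u => g u + st (M.length + u) * lam u) := by
    have hpot : ∀ u v, u < v → v < M.length → cM M u v = 1 →
        (st (M.length + u) + st (M.length + v)) * xE M y u v =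
          (g u + st (M.length + u) * lam u) + (g v + st (M.length + v) * lam v) := by
      intro u v huv hv hc
      obtain ⟨r, ⟨hr, hr2⟩, _⟩ := edg_ex M u v huv hv hc
      have hx := xE_edge M y r hr
      rw [hr2] at hx
      simp only at hx
      have h1 := full_action M st y r hr
      rw [hy r (by unfold dmn; omega)] at h1
      have hinc : ∀ w, incI M w r ↔ (u = w ∨ v = w) := by
        intro w
        unfold incI
        rw [hr2]
      have h2 : ∑ w ∈ Finset.range (M.length - 1),
          st w * (if incI M w r then y ((edg M).length + w) else 0) = g u + g v := by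
        rw [← two_ends M.length u v huv hv g]
        rw [← Finset.sum_subset (Finset.range_subset_range.2 (Nat.sub_le M.length 1))]
        · apply Finset.sum_congr rfl
          intro w hw
          have hw' := Finset.mem_range.1 hw
          rw [hst w (by omega), one_mul]
          by_cases h3 : u = w ∨ v = w
          · rw [if_pos h3, if_pos ((hinc w).2 h3)]
            simp only [hg]
            rw [if_pos hw']
          · rw [if_neg h3, if_neg (fun h4 => h3 ((hinc w).1 h4))]
        · intro w _ hw
          rw [Finset.mem_range] at hw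
          simp only [hg]
          rw [if_neg hw, ite_self]
      have h3 : ∑ w ∈ Finset.range M.length,
          ∑ c ∈ Finset.range (dmn M), AE (lnV M w) st r c * y c =
          st (M.length + u) * (y r + lam u) + st (M.length + v) * (y r + lam v) := by
        rw [← two_ends M.length u v huv hv (fun w => st (M.length + w) * (y r + lam w))]
        apply Finset.sum_congr rfl
        intro w hw
        rw [(hlam w (Finset.mem_range.1 hw)).2 r hr]
        by_cases h3 : u = w ∨ v = w
        · rw [if_pos h3, if_pos ((hinc w).2 h3)]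
        · rw [if_neg h3, if_neg (fun h4 => h3 ((hinc w).1 h4)), mul_zero]
      rw [h2, h3] at h1
      rw [hx]
      have h4 := add_self_c2 ((st (M.length + u) + st (M.length + v)) * y r)
      linear_combination h4 + h1
    refine ⟨fun u _ v _ => xE_symm M y u v, fun u _ v _ hc => xE_supp M hM y u v hc, ?_, ?_⟩
    · intro u hu
      rw [xE_row]
      exact hS u (Finset.mem_range.1 hu)
    · intro u hu v hv hc
      have hu' := Finset.mem_range.1 hu
      have hv' := Finset.mem_range.1 hv
      rcases lt_trichotomy u v with h1 | h1 | h1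
      · exact hpot u v h1 hv' hc
      · rw [h1, cM_diag hM] at hc
        exact absurd hc zero_ne_one
      · have h2 := hpot v u h1 hu' (by rw [cM_symm hM]; exact hc)
        rw [xE_symm, add_comm (st (M.length + u)), h2]
        ring
  obtain ⟨t1, t2⟩ := h _ _ hsol
  have hy0 : ∀ i < (edg M).length, y i = 0 := by
    intro i hi
    obtain ⟨h1, h2, _⟩ := edg_mem M i hi
    rw [← xE_edge M y i hi]
    exact t1 _ (Finset.mem_range.2 (h1.trans h2)) _ (Finset.mem_range.2 h2)
  have hlam0 : ∀ v < M.length, lam v = 0 := fun v hv => (hlam v hv).1 hy0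
  intro c hc
  by_cases hcm : c < (edg M).length
  · exact hy0 c hcm
  · have hc' : c - (edg M).length < M.length - 1 := by unfold dmn at hc; omega
    have h1 := t2 (c - (edg M).length) (Finset.mem_range.2 (by omega)) (M.length - 1)
      (Finset.mem_range.2 (by omega))
    simp only [hg] at h1
    rw [hlam0 _ (by omega), hlam0 _ (by omega), mul_zero, mul_zero, add_zero, add_zero,
      if_pos hc', if_neg (lt_irrefl _)] at h1
    have h2 : (edg M).length + (c - (edg M).length) = c := by omega
    rwa [h2] at h1

end Pool.Agent.H203
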