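import Pool.Agent.H203.XDefs
import Pool.Agent.H442R3.MPar.Loc

namespace Pool.Agent.H203

open Module Pool.Agent.H442R3.MPar

theorem g5_prs_mem {I : List ℕ} {q : ℕ × ℕ} (h : q ∈ prs I) : q.1 ∈ I ∧ q.2 ∈ I ∧ q.1 < q.2 := by
  unfold prs at h
  rw [List.mem_flatMap] at h
  obtain ⟨a, ha, h⟩ := h
  rw [List.mem_map] at h
  obtain ⟨b, hb, rfl⟩ := h
  rw [List.mem_filter] at hb
  exact ⟨ha, hb.1, by simpa using hb.2⟩

theorem g5_prs_len {J : List ℕ} (h : J.length ≤ 2) : (prs J).length ≤ 1 := by
  match J, h with
  | [], _ => simp [prs]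
  | [a], _ => simp [prs]
  | [a, b], _ =>
    unfold prs
    simp only [List.flatMap_cons, List.flatMap_nil, List.append_nil, List.filter_cons, List.filter_nil]
    by_cases h1 : a < b
    · have h2 : ¬ b < a := by omega
      simp [h1, h2]
    · by_cases h2 : b < a
      · simp [h1, h2]
      · simp [h1, h2]

theorem g5_nodup_of_len : ∀ {l : List ℕ}, l.length ≤ 1 → l.Nodup
  | [], _ => List.nodup_nil
  | [a], _ => List.nodup_singleton a
  | _ :: _ :: _, h => by simp at h

theorem g5_lnI_fst {n : ℕ} {R I : List ℕ} {v : ℕ} {l : ℕ × List ℕ × List ℕ} (h : l ∈ lnI n R I v) :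
    l.1 = n + v := by
  unfold lnI at h
  split_ifs at h with h1
  · rw [List.mem_singleton] at h
    rw [h]
  · rw [List.mem_map] at h
    obtain ⟨q, -, rfl⟩ := h
    rfl

theorem g5_lnI_len {n : ℕ} {R I : List ℕ} {v : ℕ} (h : I.length ≤ 4) : (lnI n R I v).length ≤ 1 := by
  unfold lnI
  split_ifs with h1
  · simp
  · rw [List.length_map]
    apply g5_prs_len
    rw [List.length_reverse, List.length_tail, List.length_reverse]
    omega

theorem g5_lnV_fst {M : List (List ℕ)} {v : ℕ} {l : ℕ × List ℕ × List ℕ} (h : l ∈ lnV M v) :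
    l.1 = M.length + v := g5_lnI_fst h

theorem g5_lnC {M : List (List ℕ)} {l : ℕ × List ℕ × List ℕ} (h : l ∈ lnC M) :
    ∃ u < M.length - 1, l = (u, cutv (edg M) u, unv (List.range (dmn M)) ((edg M).length + u)) := by
  unfold lnC at h
  rw [List.mem_map] at h
  obtain ⟨u, hu, rfl⟩ := h
  exact ⟨u, List.mem_range.1 hu, rfl⟩

theorem g5_ordi {M : List (List ℕ)} {v : ℕ} (h : v ∈ ordi M) : v < M.length ∧ dgX M v ≤ 4 := by
  unfold ordi at h
  rw [List.mem_filter, List.mem_range] at h
  exact ⟨h.1, by simpa using h.2⟩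

theorem g5_exc {M : List (List ℕ)} {v : ℕ} (h : v ∈ exc M) : v < M.length ∧ 4 < dgX M v := by
  unfold exc at h
  rw [List.mem_filter, List.mem_range] at h
  exact ⟨h.1, by simpa using h.2⟩

theorem g5_len_unv (R : List ℕ) (i : ℕ) : (unv R i).length = R.length := by
  unfold unv
  rw [List.length_map]

theorem g5_len_addv (R v w : List ℕ) : (addv R v w).length = R.length := by
  unfold addv
  rw [List.length_map]

theorem g5_getD_of_le {l : List ℕ} {i : ℕ} (h : l.length ≤ i) : l.getD i 0 = 0 :=
  List.getD_eq_default _ _ h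

theorem g5_unv {N i j : ℕ} (hj : j < N) : (unv (List.range N) i).getD j 0 = if j = i then 1 else 0 := by
  unfold unv
  rw [List.getD_eq_getElem _ _ (by rw [List.length_map, List.length_range]; exact hj), List.getElem_map,
    List.getElem_range]

theorem g5_addv {N j : ℕ} {v w : List ℕ} (hj : j < N) :
    (addv (List.range N) v w).getD j 0 = v.getD j 0 + w.getD j 0 := by
  unfold addv
  rw [List.getD_eq_getElem _ _ (by rw [List.length_map, List.length_range]; exact hj), List.getElem_map,
    List.getElem_range]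

theorem g5_lnI_zero {n N : ℕ} {I : List ℕ} {v : ℕ} {l : ℕ × List ℕ × List ℕ}
    (h : l ∈ lnI n (List.range N) I v) {i : ℕ} (hi : N ≤ i) :
    l.2.1.getD i 0 = 0 ∧ l.2.2.getD i 0 = 0 := by
  unfold lnI at h
  split_ifs at h with h1
  · rw [List.mem_singleton] at h
    subst h
    constructor <;> apply g5_getD_of_le <;> rw [g5_len_addv, List.length_range] <;> exact hi
  · rw [List.mem_map] at h
    obtain ⟨q, -, rfl⟩ := h
    constructor <;> apply g5_getD_of_le <;> rw [g5_len_unv, List.length_range] <;> exact hi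

/-- TARGET (the two statements below are one target) -/
theorem ml_idx (M : List (List ℕ)) : ((mlX M).map (fun l => l.1)).Nodup ∧
    (∀ l ∈ mlX M, ∀ l' ∈ flX M, l.1 ≠ l'.1) ∧
    (∀ l ∈ mlX M, l.1 < 2 * M.length) ∧
    (∀ l ∈ mlX M, ∀ v ∈ exc M, l.1 ≠ M.length + v) ∧
    (∀ l ∈ mlX M ++ flX M, ∀ i, dmn M ≤ i → l.2.1.getD i 0 = 0 ∧ l.2.2.getD i 0 = 0) := by
  have hml : ∀ l ∈ mlX M, l ∈ lnC M ∨ ∃ v ∈ ordi M, l ∈ lnV M v := by
    intro l hl
    unfold mlX at hl
    rw [List.mem_append, List.mem_flatMap] at hl
    exact hl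
  have hfl : ∀ l ∈ flX M, ∃ v ∈ exc M, l ∈ lnV M v := by
    intro l hl
    unfold flX at hl
    rw [List.mem_flatMap] at hl
    exact hl
  have h4 : ∀ l ∈ mlX M, ∀ v ∈ exc M, l.1 ≠ M.length + v := by
    intro l hl v hv
    rcases hml l hl with h | ⟨w, hw, h⟩
    · obtain ⟨u, hu, rfl⟩ := g5_lnC h
      simp only
      omega
    · rw [g5_lnV_fst h]
      intro h5
      have h6 : w = v := by omega
      have h7 := (g5_ordi hw).2
      have h8 := (g5_exc hv).2
      rw [h6] at h7
      omega
  refine ⟨?_, ?_, ?_, h4, ?_⟩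
  · unfold mlX
    rw [List.map_append, List.map_flatMap, List.nodup_append]
    refine ⟨?_, ?_, ?_⟩
    · unfold lnC
      rw [List.map_map]
      have : ((fun l : ℕ × List ℕ × List ℕ => l.1) ∘ fun u => (u, cutv (edg M) u,
        unv (List.range (dmn M)) ((edg M).length + u))) = id := by
        funext u
        rfl
      rw [this, List.map_id]
      exact List.nodup_range
    · rw [List.nodup_flatMap]
      refine ⟨?_, ?_⟩
      · intro v hv
        have h1 : ((lnV M v).map (fun l => l.1)).length ≤ 1 := by
          rw [List.length_map]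
          exact g5_lnI_len (g5_ordi hv).2
        exact g5_nodup_of_len h1
      · have hn : (ordi M).Nodup := by
          unfold ordi
          exact List.nodup_range.filter _
        refine hn.imp_of_mem ?_
        intro v w hv hw hvw
        intro x hx hx'
        rw [List.mem_map] at hx hx'
        obtain ⟨l, hl, rfl⟩ := hx
        obtain ⟨l', hl', he⟩ := hx'
        have e1 := g5_lnV_fst hl
        have e2 := g5_lnV_fst hl'
        apply hvw
        omega
    · intro x hx y hy
      rw [List.mem_map] at hx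
      rw [List.mem_flatMap] at hy
      obtain ⟨l, hl, rfl⟩ := hx
      obtain ⟨v, hv, hy⟩ := hy
      rw [List.mem_map] at hy
      obtain ⟨l', hl', rfl⟩ := hy
      obtain ⟨u, hu, rfl⟩ := g5_lnC hl
      rw [g5_lnV_fst hl']
      simp only
      omega
  · intro l hl l' hl'
    obtain ⟨v, hv, h⟩ := hfl l' hl'
    rw [g5_lnV_fst h]
    exact h4 l hl v hv
  · intro l hl
    rcases hml l hl with h | ⟨w, hw, h⟩
    · obtain ⟨u, hu, rfl⟩ := g5_lnC h
      simp only
      omega
    · rw [g5_lnV_fst h]
      have := (g5_ordi hw).1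
      omega
  · intro l hl i hi
    rw [List.mem_append] at hl
    have key : ∀ v, l ∈ lnV M v → l.2.1.getD i 0 = 0 ∧ l.2.2.getD i 0 = 0 :=
      fun v h => g5_lnI_zero h hi
    rcases hl with hl | hl
    · rcases hml l hl with h | ⟨w, hw, h⟩
      · obtain ⟨u, hu, rfl⟩ := g5_lnC h
        constructor
        · apply g5_getD_of_le
          show (cutv (edg M) u).length ≤ i
          unfold cutv
          rw [List.length_map]
          unfold dmn at hi
          omega
        · apply g5_getD_of_le
          rw [g5_len_unv, List.length_range]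
          exact hi
      · exact key w h
    · obtain ⟨v, hv, h⟩ := hfl l hl
      exact key v h

theorem g5_cutv {M : List (List ℕ)} {u i : ℕ} (hi : i < (edg M).length) :
    (cutv (edg M) u).getD i 0 = if ((edg M)[i]).1 = u then 1 else if ((edg M)[i]).2 = u then 1 else 0 := by
  unfold cutv
  rw [List.getD_eq_getElem _ _ (by rw [List.length_map]; exact hi), List.getElem_map]

theorem g5_edge {M : List (List ℕ)} (hM : WF M) {u v : ℕ} (hu : u < M.length) (hv : v < M.length)
    (h : cM M u v = 1) : ∃ e ∈ edg M, e.1 = u ∨ e.2 = u := by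
  have hpar : ∀ a b, cM M a b = 1 → par M a b = 1 := by
    intro a b hab
    have h1 : par M a b < 2 := Nat.mod_lt _ (by norm_num)
    unfold cM at hab
    interval_cases hp : par M a b
    · rw [Nat.cast_zero] at hab
      exact absurd hab (by decide)
    · rfl
  have hsym : par M v u = par M u v := by
    unfold par
    rw [hM.sym v u]
  have h1 := hpar u v h
  have hne : u ≠ v := by
    rintro rfl
    unfold par at h1
    rw [hM.diag u] at h1
    omega
  have hmem : ∀ a b, a < M.length → b < M.length → a < b → par M a b = 1 → (a, b) ∈ edg M := by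
    intro a b ha hb hab hp
    unfold edg
    rw [List.mem_flatMap]
    refine ⟨a, List.mem_range.2 ha, ?_⟩
    rw [List.mem_map]
    refine ⟨b, ?_, rfl⟩
    rw [List.mem_filter, List.mem_range]
    exact ⟨hb, by simp [hab, hp]⟩
  rcases lt_or_gt_of_ne hne with h2 | h2
  · exact ⟨(u, v), hmem u v hu hv h2 h1, Or.inl rfl⟩
  · exact ⟨(v, u), hmem v u hv hu h2 (by rw [hsym]; exact h1), Or.inr rfl⟩

theorem g5_incd {M : List (List ℕ)} {v : ℕ} :
    (incd (edg M) (List.range (edg M).length) v).Pairwise (· < ·) ∧
      ∀ a ∈ incd (edg M) (List.range (edg M).length) v, a < (edg M).length := by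
  unfold incd
  constructor
  · exact (List.pairwise_lt_range).filter _
  · intro a ha
    rw [List.mem_filter, List.mem_range] at ha
    exact ha.1

theorem ml_dim {K : Type*} [Field K] (M : List (List ℕ)) (hM : WF M)
    (hdeg : ∀ u < M.length - 1, ∃ v < M.length, cM M u v = 1) (l : ℕ × List ℕ × List ℕ)
    (hl : l ∈ mlX M) :
    finrank K (ln K (fun i : Fin (dmn M) => ((l.2.1.getD i 0 : ℕ) : K))
      (fun i : Fin (dmn M) => ((l.2.2.getD i 0 : ℕ) : K))) = 2 := by
  apply finrank_of_pair
  intro α β h0
  have hc : ∀ i : ℕ, i < dmn M → α * ((l.2.1.getD i 0 : ℕ) : K) + β * ((l.2.2.getD i 0 : ℕ) : K) = 0 := by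
    intro i hi
    have := congrFun h0 ⟨i, hi⟩
    simpa using this
  have hml : l ∈ lnC M ∨ ∃ v ∈ ordi M, l ∈ lnV M v := by
    unfold mlX at hl
    rw [List.mem_append, List.mem_flatMap] at hl
    exact hl
  rcases hml with h | ⟨v, hv, h⟩
  · obtain ⟨u, hu, rfl⟩ := g5_lnC h
    simp only at hc
    obtain ⟨v, hv, huv⟩ := hdeg u hu
    obtain ⟨e, he, heu⟩ := g5_edge hM (by omega : u < M.length) hv huv
    obtain ⟨i, hi, rfl⟩ := List.mem_iff_getElem.1 he
    have hN : (edg M).length + u < dmn M := by
      unfold dmn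
      omega
    have h1 := hc ((edg M).length + u) hN
    have h2 : (cutv (edg M) u).getD ((edg M).length + u) 0 = 0 := by
      apply g5_getD_of_le
      unfold cutv
      rw [List.length_map]
      omega
    rw [h2, g5_unv hN, if_pos rfl, Nat.cast_zero, mul_zero, zero_add, Nat.cast_one, mul_one] at h1
    have hiN : i < dmn M := by
      unfold dmn
      omega
    have h3 := hc i hiN
    have h4 : (cutv (edg M) u).getD i 0 = 1 := by
      rw [g5_cutv hi]
      rcases heu with h5 | h5
      · rw [if_pos h5]
      · rw [if_pos h5]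
        split_ifs <;> rfl
    rw [h4, h1, zero_mul, add_zero, Nat.cast_one, mul_one] at h3
    exact ⟨h3, h1⟩
  · obtain ⟨hI1, hI2⟩ := g5_incd (M := M) (v := v)
    have h' : l ∈ lnI M.length (List.range (dmn M)) (incd (edg M) (List.range (edg M).length) v) v := h
    obtain ⟨I, hI⟩ : ∃ I : List ℕ, I = incd (edg M) (List.range (edg M).length) v := ⟨_, rfl⟩
    rw [← hI] at h' hI1 hI2
    have hmN : (edg M).length ≤ dmn M := by
      unfold dmn
      omega
    unfold lnI at h'
    split_ifs at h' with h4
    · rw [List.mem_singleton] at h'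
      subst h'
      simp only at hc
      have e0 : I.getD 0 0 = I[0] := List.getD_eq_getElem _ _ (by omega)
      have e1 : I.getD 1 0 = I[1] := List.getD_eq_getElem _ _ (by omega)
      have e2 : I.getD 2 0 = I[2] := List.getD_eq_getElem _ _ (by omega)
      have f01 : I[0] < I[1] := List.pairwise_iff_getElem.1 hI1 0 1 (by omega) (by omega) (by omega)
      have f12 : I[1] < I[2] := List.pairwise_iff_getElem.1 hI1 1 2 (by omega) (by omega) (by omega)
      have m1 := hI2 I[1] (List.getElem_mem _)
      have m2 := hI2 I[2] (List.getElem_mem _)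
      rw [e0, e1, e2] at hc
      have h1 := hc I[1] (by omega)
      have h2 := hc I[2] (by omega)
      rw [g5_addv (by omega), g5_addv (by omega), g5_unv (by omega), g5_unv (by omega),
        g5_unv (by omega), if_neg (by omega), if_pos rfl, if_neg (by omega)] at h1
      rw [g5_addv (by omega), g5_addv (by omega), g5_unv (by omega), g5_unv (by omega),
        g5_unv (by omega), if_neg (by omega), if_neg (by omega), if_pos rfl] at h2
      constructor
      · simpa using h1
      · simpa using h2
    · rw [List.mem_map] at h'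
      obtain ⟨q, hq, rfl⟩ := h'
      simp only at hc
      obtain ⟨q1, q2, q3⟩ := g5_prs_mem hq
      have hsub : ∀ x ∈ I.reverse.tail.reverse, x ∈ I := by
        intro x hx
        rw [List.mem_reverse] at hx
        exact List.mem_reverse.1 (List.mem_of_mem_tail hx)
      have m1 := hI2 _ (hsub _ q1)
      have m2 := hI2 _ (hsub _ q2)
      have h1 := hc q.1 (by omega)
      have h2 := hc q.2 (by omega)
      rw [g5_unv (by omega), g5_unv (by omega), if_pos rfl, if_neg (by omega)] at h1
      rw [g5_unv (by omega), g5_unv (by omega), if_neg (by omega), if_pos rfl] at h2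
      constructor
      · simpa using h1
      · simpa using h2

end Pool.Agent.H203
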