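import Pool.Agent.H203.XP1

/-!
Part P2 (polynomial time, part 2).  Model: `poly_upd`, `poly_nbr`, `poly_impr`, `upd_st`, `impr_mem`,
`nbr_st`, `impr_st`, `iter_st`, `sz_st`, `poly_search` in `Pool/Agent/H442R3/MPar/Alg.lean`, which do the
same for very similar functions.
Size bound for the iterates of `imprX` starting at `x0`: every iterate `x` is `x0`, or
`x.length = St.length` and every entry of `x` is `[]` or a member of `Vs` or a member of `x0`; so
`sz x ≤ sz x0 + St.length * (sz Vs + sz x0 + sz ([] : List ℕ) + 1) + 1` (`sz_le_length_mul`, `sz_le_of_mem`).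
-/

namespace Pool.Agent.H203

open Pool.Agent.NPC Pool.Agent.H442R3.MPar

variable {α : Type} [TEnc α]


theorem p2_updX {St : α → List ℕ} {x : α → List (List ℕ)} {k k' : α → ℕ} {v v' : α → List ℕ}
    (hSt : Poly St) (hx : Poly x) (hk : Poly k) (hv : Poly v) (hk' : Poly k') (hv' : Poly v') :
    Poly (fun a => updX (St a) (x a) (k a) (v a) (k' a) (v' a)) := by
  unfold updX
  fun_prop

attribute [local fun_prop] p2_updX

theorem p2_nbrX {St : α → List ℕ} {Vs x : α → List (List ℕ)}
    {ml : α → List (ℕ × List ℕ × List ℕ)} (hSt : Poly St) (hVs : Poly Vs) (hml : Poly ml)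
    (hx : Poly x) : Poly (fun a => nbrX (St a) (Vs a) (ml a) (x a)) := by
  unfold nbrX
  fun_prop

attribute [local fun_prop] p2_nbrX

theorem p2_imprX {S Rn RN St : α → List ℕ} {T Vs x : α → List (List ℕ)}
    {ml lines : α → List (ℕ × List ℕ × List ℕ)} (hS : Poly S) (hRn : Poly Rn) (hRN : Poly RN)
    (hT : Poly T) (hSt : Poly St) (hVs : Poly Vs) (hml : Poly ml) (hl : Poly lines)
    (hx : Poly x) :
    Poly (fun a => imprX (S a) (Rn a) (RN a) (T a) (St a) (Vs a) (ml a) (lines a) (x a)) := by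
  unfold imprX
  have h1 : Poly (fun a => (nbrX (St a) (Vs a) (ml a) (x a)).filter (fun y =>
      decide (psiX (S a) (Rn a) (RN a) (T a) (ml a) (lines a) y <
        psiX (S a) (Rn a) (RN a) (T a) (ml a) (lines a) (x a)))) := by
    refine NPC.Poly.filter (l := fun a => nbrX (St a) (Vs a) (ml a) (x a)) (p := fun a y =>
      decide (psiX (S a) (Rn a) (RN a) (T a) (ml a) (lines a) y <
        psiX (S a) (Rn a) (RN a) (T a) (ml a) (lines a) (x a)))
      (by fun_prop) ?_
    refine NPC.Poly.decide_lt ?_ ?_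
    · exact poly_psiX (by fun_prop) (by fun_prop) (by fun_prop) (by fun_prop)
        (by fun_prop) (by fun_prop) (by fun_prop)
    · exact poly_psiX (by fun_prop) (by fun_prop) (by fun_prop) (by fun_prop)
        (by fun_prop) (by fun_prop) (by fun_prop)
  fun_prop

/-- invariant of the iterates -/
def P2St (St : List ℕ) (Vs x0 x : List (List ℕ)) : Prop :=
  x = x0 ∨ (x.length = St.length ∧ ∀ v ∈ x, v = [] ∨ v ∈ Vs ∨ v ∈ x0)

theorem p2_mem {St : List ℕ} {Vs x0 x : List (List ℕ)} (hx : P2St St Vs x0 x) :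
    ∀ v ∈ x, v = [] ∨ v ∈ Vs ∨ v ∈ x0 := by
  rcases hx with rfl | hx
  · exact fun v hv => Or.inr (Or.inr hv)
  · exact hx.2

theorem p2_upd_st {St : List ℕ} {Vs x0 x : List (List ℕ)} (hx : P2St St Vs x0 x) {k k' : ℕ}
    {v v' : List ℕ} (hv : v ∈ Vs) (hv' : v' ∈ Vs) : P2St St Vs x0 (updX St x k v k' v') := by
  refine Or.inr ⟨by rw [updX, List.length_map], ?_⟩
  intro w hw
  obtain ⟨i, _, rfl⟩ := List.mem_map.1 hw
  split
  · exact Or.inr (Or.inl hv')
  split
  · exact Or.inr (Or.inl hv)
  · by_cases h : i < x.length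
    · rw [List.getD_eq_getElem _ _ h]
      exact p2_mem hx _ (List.getElem_mem h)
    · rw [List.getD_eq_default _ _ (by omega)]
      exact Or.inl rfl

theorem p2_impr_mem (S Rn RN : List ℕ) (T : List (List ℕ)) (St : List ℕ) (Vs : List (List ℕ))
    (ml lines : List (ℕ × List ℕ × List ℕ)) (x : List (List ℕ)) :
    imprX S Rn RN T St Vs ml lines x = x ∨
      imprX S Rn RN T St Vs ml lines x ∈ nbrX St Vs ml x := by
  rw [imprX]
  cases h : ((nbrX St Vs ml x).filter (fun y =>
    decide (psiX S Rn RN T ml lines y < psiX S Rn RN T ml lines x))) with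
  | nil =>
    left
    rfl
  | cons y l =>
    right
    have h1 : y ∈ (nbrX St Vs ml x).filter (fun y =>
      decide (psiX S Rn RN T ml lines y < psiX S Rn RN T ml lines x)) := by
      rw [h]; exact List.mem_cons_self
    rw [List.mem_filter] at h1
    exact h1.1

theorem p2_nbr_st {St : List ℕ} {Vs x0 x y : List (List ℕ)} {ml : List (ℕ × List ℕ × List ℕ)}
    (hx : P2St St Vs x0 x) (hy : y ∈ nbrX St Vs ml x) : P2St St Vs x0 y := by
  simp only [nbrX, List.mem_flatMap, List.mem_map] at hy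
  obtain ⟨k, _, v, hv, k', _, v', hv', rfl⟩ := hy
  exact p2_upd_st hx hv hv'

theorem p2_iter_st (S Rn RN : List ℕ) (T : List (List ℕ)) (St : List ℕ) (Vs : List (List ℕ))
    (ml lines : List (ℕ × List ℕ × List ℕ)) (x0 : List (List ℕ)) (k : ℕ) :
    P2St St Vs x0 ((imprX S Rn RN T St Vs ml lines)^[k] x0) := by
  induction k with
  | zero => exact Or.inl rfl
  | succ k ih =>
    rw [Function.iterate_succ_apply']
    rcases p2_impr_mem S Rn RN T St Vs ml lines
      ((imprX S Rn RN T St Vs ml lines)^[k] x0) with h | h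
    · rw [h]; exact ih
    · exact p2_nbr_st ih h

theorem p2_sz {St : List ℕ} {Vs x0 x : List (List ℕ)} (hx : P2St St Vs x0 x) :
    sz x ≤ sz x0 + (St.length * (sz Vs + sz x0 + sz ([] : List ℕ) + 1) + 1) := by
  rcases hx with rfl | hx
  · exact Nat.le_add_right _ _
  · have := sz_le_length_mul x (sz Vs + sz x0 + sz ([] : List ℕ)) (by
      intro v hv
      rcases hx.2 v hv with rfl | h | h
      · omega
      · have := sz_le_of_mem h
        omega
      · have := sz_le_of_mem h
        omega)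
    rw [hx.1] at this
    exact this.trans (Nat.le_add_left _ _)

/-- TARGET -/
theorem poly_searchX {S Rn RN St TT : α → List ℕ} {T Vs x0 : α → List (List ℕ)}
    {ml lines : α → List (ℕ × List ℕ × List ℕ)} (hS : Poly S) (hRn : Poly Rn) (hRN : Poly RN)
    (hT : Poly T) (hSt : Poly St) (hVs : Poly Vs) (hml : Poly ml) (hl : Poly lines)
    (hTT : Poly TT) (hx0 : Poly x0) :
    Poly (fun a => searchX (S a) (Rn a) (RN a) (T a) (St a) (Vs a) (ml a) (lines a) (TT a) (x0 a)) := by
  obtain ⟨rI, hrI⟩ := hSt.sz_le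
  obtain ⟨rV, hrV⟩ := hVs.sz_le
  obtain ⟨rx, hrx⟩ := hx0.sz_le
  unfold searchX
  refine NPC.Poly.iterLen (l := TT) (s := x0)
    (F := fun a x => imprX (S a) (Rn a) (RN a) (T a) (St a) (Vs a) (ml a) (lines a) x) hTT hx0
    (p2_imprX (by fun_prop) (by fun_prop) (by fun_prop) (by fun_prop) (by fun_prop)
      (by fun_prop) (by fun_prop) (by fun_prop) (by fun_prop))
    (rx + (rI * (rV + rx + Polynomial.C (sz ([] : List ℕ)) + 1) + 1)) ?_
  intro a k _
  refine (p2_sz (p2_iter_st _ _ _ _ _ _ _ _ _ k)).trans ?_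
  have h1 := hrI a
  have h2 := hrV a
  have h5 := hrx a
  have h3 := length_lt_sz (St a)
  have h4 : (St a).length ≤ rI.eval (sz a) := by omega
  simp only [Polynomial.eval_add, Polynomial.eval_mul, Polynomial.eval_C, Polynomial.eval_one]
  gcongr

end Pool.Agent.H203
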