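import Pool.Agent.H203.XDefs

/-!
Part P3 (polynomial time, part 3: the graph functions).  Model: the `poly_...` lemmas in
`Pool/Agent/H442R3/MPar/Alg.lean` and in section `poly` of `Pool/Agent/H442R3/MPar/Main.lean`;
`fun_prop` proves most of it (`Pool/Agent/H671R2/PolyAuto.lean` lists the rules).  Note that
`List.range n` needs `UPoly n` (`UPoly.length`, `UPoly.add`, `UPoly.mul`, `UPoly.const`, `UPoly.sub`? else
`UPoly.of_le`), and that under a binder one composes with `NPC.Poly.fst`/`snd` (see `poly_linesOf`).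
Suggested order: `poly_par`, `poly_edg`, `poly_cutv`, `poly_unv`, `poly_addv`, `poly_incd`, `upoly_dmn`,
`poly_lnC`, `poly_prs`, `poly_lnI`, `poly_lnV`, `poly_dgX`, `poly_ordi`, `poly_exc`, `poly_mlX`, `poly_flX`,
`upoly_bdX`, `poly_st0`, `poly_wfX`.
-/

namespace Pool.Agent.H203

open Pool.Agent.NPC Pool.Agent.H442R3.MPar

variable {α : Type} [TEnc α]

@[fun_prop]
theorem poly_rl {β : Type} [TEnc β] {l : α → List β} (hl : Poly l) :
    Poly (fun a => List.range (l a).length) := (UPoly.length hl).range

@[fun_prop]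
theorem poly_rl1 {β : Type} [TEnc β] {l : α → List β} (hl : Poly l) :
    Poly (fun a => List.range ((l a).length - 1)) :=
  (UPoly.length (l := fun a => (l a).tail) (by fun_prop)).range.congr fun a => by simp

theorem poly_par {M : α → List (List ℕ)} {u v : α → ℕ} (hM : Poly M) (hu : Poly u) (hv : Poly v) :
    Poly (fun a => par (M a) (u a) (v a)) := by
  unfold par
  fun_prop

attribute [fun_prop] poly_par

theorem poly_edg {M : α → List (List ℕ)} (hM : Poly M) : Poly (fun a => edg (M a)) := by
  unfold edg
  fun_prop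

attribute [fun_prop] poly_edg

theorem poly_cutv {E : α → List (ℕ × ℕ)} {u : α → ℕ} (hE : Poly E) (hu : Poly u) :
    Poly (fun a => cutv (E a) (u a)) := by
  unfold cutv
  fun_prop

theorem poly_unv {R : α → List ℕ} {i : α → ℕ} (hR : Poly R) (hi : Poly i) :
    Poly (fun a => unv (R a) (i a)) := by
  unfold unv
  fun_prop

theorem poly_addv {R v w : α → List ℕ} (hR : Poly R) (hv : Poly v) (hw : Poly w) :
    Poly (fun a => addv (R a) (v a) (w a)) := by
  unfold addv
  fun_prop

theorem poly_incd {E : α → List (ℕ × ℕ)} {El : α → List ℕ} {v : α → ℕ} (hE : Poly E)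
    (hEl : Poly El) (hv : Poly v) : Poly (fun a => incd (E a) (El a) (v a)) := by
  unfold incd
  fun_prop

attribute [fun_prop] poly_cutv poly_unv poly_addv poly_incd

/-- TARGET (the seven statements below are one target) -/
theorem upoly_dmn {M : α → List (List ℕ)} (hM : Poly M) : UPoly (fun a => dmn (M a)) := by
  unfold dmn
  refine UPoly.add (UPoly.length (poly_edg hM)) ?_
  exact (UPoly.length (l := fun a => (M a).tail) (by fun_prop)).congr fun a => by simp

@[fun_prop]
theorem poly_rdmn {M : α → List (List ℕ)} (hM : Poly M) :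
    Poly (fun a => List.range (dmn (M a))) := (upoly_dmn hM).range

theorem poly_lnC {M : α → List (List ℕ)} (hM : Poly M) : Poly (fun a => lnC (M a)) := by
  unfold lnC
  fun_prop

theorem poly_prs {I : α → List ℕ} (hI : Poly I) : Poly (fun a => prs (I a)) := by
  unfold prs
  fun_prop

attribute [fun_prop] poly_lnC poly_prs

theorem poly_lnI {n v : α → ℕ} {R I : α → List ℕ} (hn : Poly n) (hR : Poly R) (hI : Poly I)
    (hv : Poly v) : Poly (fun a => lnI (n a) (R a) (I a) (v a)) := by
  unfold lnI
  fun_prop

attribute [fun_prop] poly_lnI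

theorem poly_lnV {M : α → List (List ℕ)} {v : α → ℕ} (hM : Poly M) (hv : Poly v) :
    Poly (fun a => lnV (M a) (v a)) := by
  unfold lnV
  fun_prop

theorem poly_dgX {M : α → List (List ℕ)} {v : α → ℕ} (hM : Poly M) (hv : Poly v) :
    Poly (fun a => dgX (M a) (v a)) := by
  unfold dgX
  fun_prop

attribute [fun_prop] poly_lnV poly_dgX

theorem poly_ordi {M : α → List (List ℕ)} (hM : Poly M) : Poly (fun a => ordi (M a)) := by
  unfold ordi
  fun_prop

theorem poly_exc {M : α → List (List ℕ)} (hM : Poly M) : Poly (fun a => exc (M a)) := by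
  unfold exc
  fun_prop

attribute [fun_prop] poly_ordi poly_exc

theorem poly_mlX {M : α → List (List ℕ)} (hM : Poly M) : Poly (fun a => mlX (M a)) := by
  unfold mlX
  fun_prop

theorem poly_flX {M : α → List (List ℕ)} (hM : Poly M) : Poly (fun a => flX (M a)) := by
  unfold flX
  fun_prop

theorem upoly_bdX {M : α → List (List ℕ)} (hM : Poly M) : UPoly (fun a => bdX (M a)) := by
  have h := UPoly.add (UPoly.length (poly_mlX hM)) (UPoly.const 1)
  exact UPoly.add (UPoly.mul (UPoly.mul h h) (UPoly.add (upoly_dmn hM) (UPoly.const 2)))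
    (UPoly.const 2)

theorem poly_st0 {n : α → ℕ} {St ex : α → List ℕ} {z : α → List (List ℕ)} (hn : Poly n)
    (hSt : Poly St) (hex : Poly ex) (hz : Poly z) :
    Poly (fun a => st0 (n a) (St a) (ex a) (z a)) := by
  unfold st0
  fun_prop

theorem poly_wfX {M : α → List (List ℕ)} (hM : Poly M) : Poly (fun a => wfX (M a)) := by
  unfold wfX
  fun_prop

end Pool.Agent.H203
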