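import Pool.Agent.H203.XDefs

/-!
Part P4 (the list of values: specification and polynomial time; the assignments).
* `vals_spec`: by induction on `k`, `(dbl B)^[k] [[]]` is the list of all bit lists of length `j` for some
  `j ≤ k`, of length `2^j`, with `2^j ≤ 2 B`, and (`j = k` or `B < 2^j`); for `k = B` we have `B < 2^B`.
* `poly_vals`: `NPC.Poly.iterLen` (model: `poly_search` in `Pool/Agent/H442R3/MPar/Alg.lean`).  Size bound: the
  `k`-th iterate has at most `2 B + 1` elements, each a bit list of length at most `k ≤ (L a).length`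
  (`sz_le_length_mul` twice); so `B` is assumed `UPoly` (bounded by a polynomial; `UPoly.le`-like lemma in
  `Pool/Agent/NPC`, see how `UPoly` is defined).
* `poly_asg`: induction on `k`, `fun_prop`.
-/

namespace Pool.Agent.H203

open Pool.Agent.NPC Pool.Agent.H442R3.MPar

variable {α : Type} [TEnc α]

theorem p4_step (acc : List (List ℕ)) (j : ℕ)
    (h1 : ∀ v, v ∈ acc ↔ v.length = j ∧ ∀ a ∈ v, a = 0 ∨ a = 1) (h2 : acc.length = 2 ^ j) :
    (∀ v, v ∈ acc.flatMap (fun l => [0 :: l, 1 :: l]) ↔
      v.length = j + 1 ∧ ∀ a ∈ v, a = 0 ∨ a = 1) ∧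
    (acc.flatMap (fun l => [0 :: l, 1 :: l])).length = 2 ^ (j + 1) := by
  constructor
  · intro v
    simp only [List.mem_flatMap, List.mem_cons, List.not_mem_nil, or_false]
    constructor
    · rintro ⟨l, hl, h | h⟩
      · subst h
        have h3 := (h1 l).1 hl
        refine ⟨by simp [h3.1], ?_⟩
        intro a ha
        rcases List.mem_cons.1 ha with h | h
        · exact Or.inl h
        · exact h3.2 a h
      · subst h
        have h3 := (h1 l).1 hl
        refine ⟨by simp [h3.1], ?_⟩
        intro a ha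
        rcases List.mem_cons.1 ha with h | h
        · exact Or.inr h
        · exact h3.2 a h
    · rintro ⟨h3, h4⟩
      cases v with
      | nil => simp at h3
      | cons b l =>
        have h5 : l ∈ acc := (h1 l).2 ⟨by simpa using h3, fun a ha =>
          h4 a (List.mem_cons_of_mem _ ha)⟩
        rcases h4 b (by simp) with h | h
        · exact ⟨l, h5, Or.inl (by rw [h])⟩
        · exact ⟨l, h5, Or.inr (by rw [h])⟩
  · rw [List.length_flatMap]
    simp [h2, pow_succ]

theorem p4_iter (B : ℕ) (hB : 1 ≤ B) (k : ℕ) : ∃ j, j ≤ k ∧ 2 ^ j ≤ 2 * B ∧ (j = k ∨ B < 2 ^ j) ∧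
    (∀ v, v ∈ (dbl B)^[k] [[]] ↔ v.length = j ∧ ∀ a ∈ v, a = 0 ∨ a = 1) ∧
    ((dbl B)^[k] [[]]).length = 2 ^ j := by
  induction k with
  | zero =>
    refine ⟨0, le_rfl, by omega, Or.inl rfl, ?_, by simp⟩
    intro v
    simp only [Function.iterate_zero, id, List.mem_singleton, List.length_eq_zero_iff]
    constructor
    · rintro rfl
      simp
    · exact fun h => h.1
  | succ k ih =>
    obtain ⟨j, h1, h2, h3, h4, h5⟩ := ih
    rw [Function.iterate_succ_apply']
    by_cases h : 2 ^ j ≤ B
    · have h6 : j = k := by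
        rcases h3 with h3 | h3
        · exact h3
        · omega
      have h7 : dbl B ((dbl B)^[k] [[]]) =
          ((dbl B)^[k] [[]]).flatMap (fun l => [0 :: l, 1 :: l]) := by
        refine if_pos ?_
        rw [h5]
        exact h
      rw [h7]
      obtain ⟨h8, h9⟩ := p4_step _ j h4 h5
      refine ⟨j + 1, by omega, ?_, Or.inl (by omega), h8, h9⟩
      rw [pow_succ]
      omega
    · have h7 : dbl B ((dbl B)^[k] [[]]) = (dbl B)^[k] [[]] := by
        refine if_neg ?_
        rw [h5]
        exact h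
      rw [h7]
      exact ⟨j, by omega, h2, Or.inr (by omega), h4, h5⟩

theorem p4_iter0 (k : ℕ) : ∀ v ∈ (dbl 0)^[k] [[]], v.length ≤ k ∧ ∀ a ∈ v, a = 0 ∨ a = 1 := by
  have h : (dbl 0)^[k] [[]] = [[]] := by
    induction k with
    | zero => rfl
    | succ k ih =>
      rw [Function.iterate_succ_apply', ih]
      rfl
  rw [h]
  intro v hv
  rw [List.mem_singleton] at hv
  subst hv
  simp

theorem p4_bd (B k : ℕ) : ((dbl B)^[k] [[]]).length ≤ 2 * B + 1 ∧
    ∀ v ∈ (dbl B)^[k] [[]], v.length ≤ k ∧ ∀ a ∈ v, a = 0 ∨ a = 1 := by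
  rcases Nat.eq_zero_or_pos B with h | h
  · subst h
    have h : (dbl 0)^[k] [[]] = [[]] := by
      induction k with
      | zero => rfl
      | succ k ih =>
        rw [Function.iterate_succ_apply', ih]
        rfl
    refine ⟨by rw [h]; simp, p4_iter0 k⟩
  · obtain ⟨j, h1, h2, h3, h4, h5⟩ := p4_iter B h k
    refine ⟨by omega, ?_⟩
    intro v hv
    have h6 := (h4 v).1 hv
    exact ⟨by omega, h6.2⟩

/-- TARGET (the four statements below are one target) -/
theorem vals_spec (B : ℕ) (hB : 1 ≤ B) : ∃ s, 0 < s ∧ B < 2 ^ s ∧ 2 ^ s ≤ 2 * B ∧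
    (∀ v, v ∈ vals B (List.range B) ↔ v.length = s ∧ ∀ a ∈ v, a = 0 ∨ a = 1) ∧
    (vals B (List.range B)).length = 2 ^ s := by
  obtain ⟨j, h1, h2, h3, h4, h5⟩ := p4_iter B hB B
  have h6 : B < 2 ^ j := by
    rcases h3 with h3 | h3
    · rw [h3]
      exact Nat.lt_two_pow_self
    · exact h3
  refine ⟨j, ?_, h6, h2, ?_, ?_⟩
  · rcases Nat.eq_zero_or_pos j with h | h
    · subst h
      simp at h6
      omega
    · exact h
  · unfold vals
    rw [List.length_range]
    exact h4
  · unfold vals
    rw [List.length_range]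
    exact h5

theorem poly_vals {B : α → ℕ} {L : α → List ℕ} (hB : UPoly B) (hL : Poly L) :
    Poly (fun a => vals (B a) (L a)) := by
  obtain ⟨rB, hrB⟩ := NPC.Poly.sz_le hB
  obtain ⟨rL, hrL⟩ := hL.sz_le
  have hBp : Poly B := hB.toPoly
  have hF : Poly (fun p : α × List (List ℕ) => dbl (B p.1) p.2) := by
    unfold dbl
    fun_prop
  unfold vals
  refine NPC.Poly.iterLen (l := L) (s := fun _ => [[]]) (F := fun a acc => dbl (B a) acc) hL
    (NPC.Poly.const _) hF
    ((2 * rB + 1) * ((rL * Polynomial.C (sz (0 : ℕ) + sz (1 : ℕ) + 1) + 1) + 1) + 1) ?_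
  intro a k hk
  obtain ⟨h1, h2⟩ := p4_bd (B a) k
  have h3 := hrB a
  have h4 := hrL a
  have h5 := length_lt_sz (List.replicate (B a) ())
  have h6 := length_lt_sz (L a)
  rw [List.length_replicate] at h5
  have h7 : B a ≤ rB.eval (sz a) := by omega
  have h8 : k ≤ rL.eval (sz a) := by omega
  have h9 : ∀ v ∈ (dbl (B a))^[k] [[]],
      sz v ≤ rL.eval (sz a) * (sz (0 : ℕ) + sz (1 : ℕ) + 1) + 1 := by
    intro v hv
    have h10 := h2 v hv
    refine (sz_le_length_mul v (sz (0 : ℕ) + sz (1 : ℕ)) ?_).trans ?_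
    · intro b hb
      rcases h10.2 b hb with h | h
      · rw [h]
        omega
      · rw [h]
        omega
    · have h11 : v.length ≤ rL.eval (sz a) := by omega
      gcongr
  refine (sz_le_length_mul _ _ h9).trans ?_
  simp only [Polynomial.eval_add, Polynomial.eval_mul, Polynomial.eval_C, Polynomial.eval_one,
    Polynomial.eval_ofNat]
  have h12 : ((dbl (B a))^[k] [[]]).length ≤ 2 * rB.eval (sz a) + 1 := by omega
  gcongr

theorem poly_asg {Vs : α → List (List ℕ)} (hVs : Poly Vs) (k : ℕ) :
    Poly (fun a => asg (Vs a) k) := by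
  induction k with
  | zero =>
    unfold asg
    exact NPC.Poly.const _
  | succ k ih =>
    have key : ∀ G : α → List (List (List ℕ)), Poly G →
        Poly (fun a => (Vs a).flatMap (fun v => (G a).map (fun l => v :: l))) := by
      intro G hG
      fun_prop
    exact key _ ih

theorem mem_asg (Vs : List (List ℕ)) (k : ℕ) (z : List (List ℕ)) :
    z ∈ asg Vs k ↔ z.length = k ∧ ∀ v ∈ z, v ∈ Vs := by
  induction k generalizing z with
  | zero =>
    simp only [asg, List.mem_singleton, List.length_eq_zero_iff]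
    constructor
    · rintro rfl
      simp
    · exact fun h => h.1
  | succ k ih =>
    simp only [asg, List.mem_flatMap, List.mem_map]
    constructor
    · rintro ⟨v, hv, l, hl, rfl⟩
      have h := (ih l).1 hl
      refine ⟨by simp [h.1], ?_⟩
      intro w hw
      rcases List.mem_cons.1 hw with h' | h'
      · rw [h']
        exact hv
      · exact h.2 w h'
    · rintro ⟨h1, h2⟩
      cases z with
      | nil => simp at h1
      | cons v l =>
        exact ⟨v, h2 v (by simp), l, (ih l).2 ⟨by simpa using h1, fun w hw =>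
          h2 w (List.mem_cons_of_mem _ hw)⟩, rfl⟩

end Pool.Agent.H203
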