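import Pool.Agent.H203.XDefs

/-!
Part S3 (the extension rings).
`ext_ring`: `R = AdjoinRoot F` with `F = X^s + ∑_{k<s} f_k X^k` over `ZMod 2`, which is monic of degree `s`
(`Polynomial.monic_X_pow_add`, `AdjoinRoot.powerBasis'`, `AdjoinRoot.nontrivial` or the basis with `s > 0`).
`ext_field`: take a primitive element `θ` of `GaloisField 2 s` over `ZMod 2` (`Field.exists_primitive_element`,
`PowerBasis`, `GaloisField.finrank`), `f` the list of the first `s` coefficients (as `ZMod.val`) of its minimal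
polynomial, which is monic of degree `s`; `minpoly.aeval` gives the relation.  (Alternatively use `AdjoinRoot` of
the minimal polynomial with `Fact (Irreducible _)`.)
-/

namespace Pool.Agent.H203

open Module

open Polynomial in
theorem isExt_of_monic {P : (ZMod 2)[X]} (hP : P.Monic) {s : ℕ} (hs : 0 < s)
    (hd : P.natDegree = s) (f : List ℕ)
    (hf : ∀ k < s, ((f.getD k 0 : ℕ) : ZMod 2) = P.coeff k) :
    ∃ b : Basis (Fin s) (ZMod 2) (AdjoinRoot P), IsExt (AdjoinRoot.root P) s f b := by
  have hdim : (AdjoinRoot.powerBasis' hP).dim = s := by rw [AdjoinRoot.powerBasis'_dim, hd]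
  refine ⟨(AdjoinRoot.powerBasis' hP).basis.reindex (finCongr hdim), hs, fun k => ?_, ?_⟩
  · rw [Basis.reindex_apply, PowerBasis.basis_eq_pow, AdjoinRoot.powerBasis'_gen]
    rfl
  · have h1 : aeval (AdjoinRoot.root P) P = 0 := AdjoinRoot.eval₂_root P
    have h2 := congrArg (aeval (AdjoinRoot.root P)) hP.as_sum
    rw [h1, map_add, map_sum, map_pow, aeval_X, hd] at h2
    have h3 : ∑ k ∈ Finset.range s, aeval (AdjoinRoot.root P) (C (P.coeff k) * X ^ k) =
        ∑ k ∈ Finset.range s, ((f.getD k 0 : ℕ) : AdjoinRoot P) * AdjoinRoot.root P ^ k := by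
      refine Finset.sum_congr rfl fun k hk => ?_
      rw [map_mul, aeval_C, map_pow, aeval_X, ← hf k (Finset.mem_range.1 hk), map_natCast]
    rw [h3] at h2
    have h4 : ∀ a : AdjoinRoot P, a + a = 0 := by
      intro a
      have h5 : (2 : ZMod 2) • a = 0 := by
        have : (2 : ZMod 2) = 0 := rfl
        rw [this, zero_smul]
      rwa [two_smul] at h5
    have h5 := h4 (∑ k ∈ Finset.range s, ((f.getD k 0 : ℕ) : AdjoinRoot P) *
      AdjoinRoot.root P ^ k)
    exact add_right_cancel (h2.symm.trans h5.symm)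

open Polynomial in
/-- TARGET (the two statements below are one target) -/
theorem ext_ring (s : ℕ) (hs : 0 < s) (f : List ℕ) : ∃ (R : Type) (_ : CommRing R)
    (_ : Nontrivial R) (_ : Algebra (ZMod 2) R) (θ : R) (b : Basis (Fin s) (ZMod 2) R),
    IsExt θ s f b := by
  set Q : (ZMod 2)[X] := ∑ k ∈ Finset.range s, C ((f.getD k 0 : ℕ) : ZMod 2) * X ^ k with hQ
  have hdeg : Q.degree < s := by
    rw [hQ]
    refine (degree_sum_le _ _).trans_lt ?_
    refine (Finset.sup_lt_iff (WithBot.bot_lt_coe s)).2 fun k hk => ?_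
    refine (degree_C_mul_X_pow_le _ _).trans_lt ?_
    exact WithBot.coe_lt_coe.2 (Finset.mem_range.1 hk)
  set P : (ZMod 2)[X] := X ^ s + Q with hPd
  have hP : P.Monic := monic_X_pow_add hdeg
  have hd : P.natDegree = s := natDegree_eq_of_degree_eq_some (by
    rw [hPd, degree_add_eq_left_of_degree_lt (by rwa [degree_X_pow]), degree_X_pow])
  have hc : ∀ k < s, ((f.getD k 0 : ℕ) : ZMod 2) = P.coeff k := by
    intro k hk
    rw [hPd, coeff_add, coeff_X_pow, if_neg hk.ne, zero_add, hQ, finsetSum_coeff]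
    simp only [coeff_C_mul_X_pow]
    rw [Finset.sum_ite_eq, if_pos (Finset.mem_range.2 hk)]
  obtain ⟨b, hb⟩ := isExt_of_monic hP hs hd f hc
  have hnt : Nontrivial (AdjoinRoot P) := AdjoinRoot.nontrivial P (by
    rw [degree_eq_natDegree hP.ne_zero, hd]
    exact_mod_cast hs.ne')
  exact ⟨AdjoinRoot P, inferInstance, hnt, inferInstance, AdjoinRoot.root P, b, hb⟩

open Polynomial in
theorem exists_irr (s : ℕ) (hs : 0 < s) : ∃ P : (ZMod 2)[X], Irreducible P ∧ P.Monic ∧
    P.natDegree = s := by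
  have : Fact (Nat.Prime 2) := ⟨Nat.prime_two⟩
  obtain ⟨α, hα⟩ := Field.exists_primitive_element (ZMod 2) (GaloisField 2 s)
  have hint : IsIntegral (ZMod 2) α := Algebra.IsIntegral.isIntegral α
  refine ⟨minpoly (ZMod 2) α, minpoly.irreducible hint, minpoly.monic hint, ?_⟩
  rw [← IntermediateField.adjoin.finrank hint, hα, IntermediateField.finrank_top',
    GaloisField.finrank 2 hs.ne']

open Polynomial in
theorem ext_field (s : ℕ) (hs : 0 < s) : ∃ f : List ℕ, f.length = s ∧ (∀ a ∈ f, a = 0 ∨ a = 1) ∧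
    ∃ (K : Type) (_ : Field K) (_ : Algebra (ZMod 2) K) (θ : K) (b : Basis (Fin s) (ZMod 2) K),
    IsExt θ s f b := by
  obtain ⟨P, hP1, hP2, hP3⟩ := exists_irr s hs
  have : Fact (Irreducible P) := ⟨hP1⟩
  set f : List ℕ := (List.range s).map (fun k => (P.coeff k).val) with hf
  refine ⟨f, by simp [hf], ?_, ?_⟩
  · intro a ha
    rw [hf, List.mem_map] at ha
    obtain ⟨k, -, rfl⟩ := ha
    have := ZMod.val_lt (P.coeff k)
    omega
  · have hc : ∀ k < s, ((f.getD k 0 : ℕ) : ZMod 2) = P.coeff k := by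
      intro k hk
      have h1 : f.getD k 0 = (P.coeff k).val := by
        rw [hf, List.getD_eq_getElem _ _ (by simpa using hk)]
        simp
      rw [h1, ZMod.natCast_zmod_val]
    obtain ⟨b, hb⟩ := isExt_of_monic hP2 hs hP3 f hc
    exact ⟨AdjoinRoot P, inferInstance, inferInstance, AdjoinRoot.root P, b, hb⟩

end Pool.Agent.H203
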