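import Pool.Agent.H203.XCore
import Pool.Agent.H203.XP2
import Pool.Agent.H203.XP3
import Pool.Agent.H203.XP4
import Pool.Agent.H203.XS3
import Pool.Agent.H203.XG3
import Pool.Agent.H203.XG4
import Pool.Agent.H203.XG5
import Pool.Agent.H203.XD1

/-!
# The decision procedure: polynomial time and correctness
-/

namespace Pool.Agent.H203

open Module Pool.Agent.NPC Pool.Agent.H442R3.MPar

section poly

variable {α : Type} [TEnc α]

theorem poly_vlX {M : α → List (List ℕ)} (hM : Poly M) : Poly (fun a => vlX (M a)) := by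
  unfold vlX
  exact poly_vals (upoly_bdX hM) (upoly_bdX hM).range

theorem poly_SX {M : α → List (List ℕ)} (hM : Poly M) : Poly (fun a => SX (M a)) := by
  unfold SX
  have h := poly_vlX hM
  exact (UPoly.length (by fun_prop)).range

theorem upoly_len {M : α → List (List ℕ)} (hM : Poly M) : UPoly (fun a => 2 * (M a).length) :=
  UPoly.mul (UPoly.const 2) (UPoly.length hM)

theorem poly_PW {M : α → List (List ℕ)} {f : α → List ℕ} (hM : Poly M) (hf : Poly f) :
    Poly (fun a => pwl (SX (M a)) (f a) (List.range (2 * (SX (M a)).length))) :=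
  poly_pwl (poly_SX hM) hf (UPoly.mul (UPoly.const 2) (UPoly.length (poly_SX hM))).range

theorem poly_finX {M z : α → List (List ℕ)} {f : α → List ℕ} (hM : Poly M) (hf : Poly f)
    (hz : Poly z) : Poly (fun a => finX (M a) (f a) (z a)) := by
  have h1 := poly_SX hM
  have h2 := upoly_dmn hM
  have h3 := poly_mlX hM
  have h4 := poly_flX hM
  have h5 := UPoly.add (UPoly.length h3) (UPoly.const 1)
  have h6 := UPoly.add h2 (UPoly.const 2)
  unfold finX
  exact poly_searchX h1 h2.range h6.range (poly_PW hM hf) (upoly_len hM).range (poly_vlX hM) h3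
    (by fun_prop) (UPoly.mul (UPoly.mul h5 h5) (UPoly.mul h6 (UPoly.length h1))).range
    (poly_st0 (by fun_prop) (upoly_len hM).range (poly_exc hM) hz)

theorem poly_okX {M z : α → List (List ℕ)} {f : α → List ℕ} (hM : Poly M) (hf : Poly f)
    (hz : Poly z) : Poly (fun a => okX (M a) (f a) (z a)) := by
  have h3 := poly_mlX hM
  have h4 := poly_flX hM
  have h5 : Poly (fun a => mlX (M a) ++ flX (M a)) := by fun_prop
  have h6 := poly_nulM (poly_SX hM) (upoly_dmn hM).range (poly_PW hM hf)
    (poly_matA (poly_SX hM) (upoly_dmn hM).range h5 (poly_finX hM hf hz))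
  unfold okX
  exact NPC.Poly.decide_eq h6 (NPC.Poly.const 0)

theorem poly_decX (k : ℕ) {M : α → List (List ℕ)} (hM : Poly M) :
    Poly (fun a => decX k (M a)) := by
  have h1 := poly_wfX hM
  have h2 := poly_exc hM
  have h3 := poly_vlX hM
  unfold decX
  refine NPC.Poly.and (NPC.Poly.and (NPC.Poly.and h1 (by fun_prop)) (by fun_prop)) ?_
  refine NPC.Poly.any (l := fun a => vlX (M a))
    (p := fun a f => (asg (vlX (M a)) k).any (fun z => okX (M a) f z)) h3 ?_
  refine NPC.Poly.any (l := fun q : α × List ℕ => asg (vlX (M q.1)) k)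
    (p := fun q z => okX (M q.1) q.2 z) (poly_asg (h3.comp (NPC.Poly.fst NPC.Poly.id)) k) ?_
  exact poly_okX (hM.comp (NPC.Poly.fst (NPC.Poly.fst NPC.Poly.id)))
    (NPC.Poly.snd (NPC.Poly.fst NPC.Poly.id)) (NPC.Poly.snd NPC.Poly.id)

end poly

section correct

theorem vlX_spec (M : List (List ℕ)) : ∃ s, 0 < s ∧ bdX M < 2 ^ s ∧
    (∀ v, v ∈ vlX M ↔ v.length = s ∧ ∀ a ∈ v, a = 0 ∨ a = 1) ∧ SX M = List.range s := by
  have hB : 1 ≤ bdX M := by rw [bdX]; omega
  obtain ⟨s, hs, h1, _, h2, h3⟩ := vals_spec (bdX M) hB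
  refine ⟨s, hs, h1, h2, ?_⟩
  have h4 : (vlX M).length = 2 ^ s := h3
  rw [SX]
  cases hV : vlX M with
  | nil =>
    rw [hV] at h4
    simp at h4
    omega
  | cons v l =>
    have h5 : v ∈ vlX M := by rw [hV]; exact List.mem_cons_self
    rw [List.head?_cons, Option.getD_some, ((h2 v).1 h5).1]

theorem two_le_dmn (M : List (List ℕ)) : M.length ≤ bdX M := by
  have h1 : M.length - 1 ≤ dmn M := Nat.le_add_left _ _
  have h2 : dmn M + 2 ≤ ((mlX M).length + 1) * ((mlX M).length + 1) * (dmn M + 2) :=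
    Nat.le_mul_of_pos_left _ (Nat.mul_pos (Nat.succ_pos _) (Nat.succ_pos _))
  rw [bdX]
  omega

theorem flX_idx (M : List (List ℕ)) (l : ℕ × List ℕ × List ℕ) (hl : l ∈ flX M) :
    ∃ v ∈ exc M, l.1 = M.length + v := by
  rw [flX, List.mem_flatMap] at hl
  obtain ⟨v, hv, hl⟩ := hl
  refine ⟨v, hv, ?_⟩
  rw [lnV, lnI] at hl
  split at hl
  · rw [List.mem_singleton] at hl
    rw [hl]
  · obtain ⟨q, _, rfl⟩ := List.mem_map.1 hl
    rfl

theorem st0_get (n L : ℕ) (ex : List ℕ) (z : List (List ℕ)) (g : ℕ → List ℕ)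
    (pad : List (List ℕ)) (hz : z = ex.map g ++ pad) (v : ℕ) (hv : v ∈ ex) (hL : n + v < L) :
    (st0 n (List.range L) ex z).getD (n + v) [] = g v := by
  rw [st0, List.getD_eq_getElem _ _ (by simpa using hL)]
  simp only [List.getElem_map, List.getElem_range]
  have hzip : ex.zip z = ex.map (fun v => (v, g v)) := by
    rw [hz]
    clear hz hv
    induction ex with
    | nil => simp
    | cons a ex ih => simp [ih]
  rw [hzip]
  cases hF : (ex.map (fun v => (v, g v))).filter (fun q => decide (n + q.1 = n + v)) with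
  | nil =>
    rw [List.filter_eq_nil_iff] at hF
    have := hF (v, g v) (List.mem_map.2 ⟨v, hv, rfl⟩)
    simp at this
  | cons q l =>
    have h1 : q ∈ (ex.map (fun v => (v, g v))).filter (fun q => decide (n + q.1 = n + v)) := by
      rw [hF]; exact List.mem_cons_self
    rw [List.mem_filter] at h1
    obtain ⟨w, _, hw⟩ := List.mem_map.1 h1.1
    have h2 : n + q.1 = n + v := by simpa using h1.2
    rw [List.head?_cons, Option.getD_some, ← hw]
    rw [← hw] at h2
    have : w = v := by simpa using h2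
    rw [this]

theorem cM_sy {M : List (List ℕ)} (hM : WF M) (u v : ℕ) : cM M u v = cM M v u := by
  rw [cM, cM, par, par, hM.sym]

theorem cM_dg {M : List (List ℕ)} (hM : WF M) (u : ℕ) : cM M u u = 0 := by
  rw [cM, par, hM.diag]
  simp

theorem infinite_of_algClosure (K : Type) [Field K] : Infinite (AlgebraicClosure K) :=
  IsAlgClosed.instInfinite

/-- **Soundness.** -/
theorem decX_sound (M : List (List ℕ)) (hM : WF M) (hn : 1 ≤ M.length) (f : List ℕ)
    (z : List (List ℕ)) (h : okX M f z = true) : ∃ r, DC (cM M) r (Finset.range M.length) := by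
  obtain ⟨s, hs, _, _, hS⟩ := vlX_spec M
  obtain ⟨R, _, _, _, θ, b, hext⟩ := ext_ring s hs f
  rw [okX, decide_eq_true_iff, hS, List.length_range] at h
  obtain ⟨m, hm⟩ := Ideal.exists_maximal R
  let _ : Field (R ⧸ m) := Ideal.Quotient.field m
  let φ : R →+* AlgebraicClosure (R ⧸ m) :=
    (algebraMap (R ⧸ m) (AlgebraicClosure (R ⧸ m))).comp (Ideal.Quotient.mk m)
  have htk := test_sound hext (dmn M) (mlX M ++ flX M) (finX M f z) h φ
  have h2 : (2 : AlgebraicClosure (R ⧸ m)) = 0 := by
    have h3 : (2 : R) = 0 := by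
      have h4 : (2 : R) = algebraMap (ZMod 2) R 2 := (map_ofNat (algebraMap (ZMod 2) R) 2).symm
      rw [h4, show (2 : ZMod 2) = 0 from rfl, map_zero]
    have h5 : (2 : AlgebraicClosure (R ⧸ m)) = φ 2 := (map_ofNat φ 2).symm
    rw [h5, h3, map_zero]
  have hch : CharP (AlgebraicClosure (R ⧸ m)) 2 := CharTwo.of_one_ne_zero_of_two_eq_zero one_ne_zero h2
  have hnd := nd_of_triv M hM hn _ htk
  have hinf : Infinite (AlgebraicClosure (R ⧸ m)) := infinite_of_algClosure _
  exact ⟨0, dc_of_nd (cM_sy hM) (cM_dg hM) hnd (Finset.mem_range.2 (by omega))⟩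

/-- **Completeness.** -/
theorem decX_complete (M : List (List ℕ)) (hM : WF M) (hn : 1 ≤ M.length) (k : ℕ)
    (hk : (exc M).length ≤ k) (r : ℕ) (hr : DC (cM M) r (Finset.range M.length)) :
    ∃ f ∈ vlX M, ∃ z ∈ asg (vlX M) k, okX M f z = true := by
  classical
  obtain ⟨s, hs, hbd, hV, hS⟩ := vlX_spec M
  obtain ⟨f, hf1, hf2, K, _, _, θ, b, hext⟩ := ext_field s hs
  have hch := charP_of_alg K
  obtain ⟨hfin, hcard⟩ := card_ext hext
  obtain ⟨p, hp⟩ := nd_of_dc (K := K) (cM_sy hM) (cM_dg hM) hr Finset.univ (by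
    rw [Finset.card_range, Finset.card_univ, hcard]
    have := two_le_dmn M
    omega)
  have hbits : ∀ v : K, ∃ l : List ℕ, l.length = s ∧ (∀ a ∈ l, a = 0 ∨ a = 1) ∧
      repv θ s l = v := exists_bits hext
  choose g hg1 hg2 hg3 using hbits
  let z : List (List ℕ) := (exc M).map (fun v => g (p v)) ++
    List.replicate (k - (exc M).length) (g 0)
  have hz : z ∈ asg (vlX M) k := by
    rw [mem_asg]
    refine ⟨?_, ?_⟩
    · simp only [z, List.length_append, List.length_map, List.length_replicate]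
      omega
    · intro v hv
      rw [List.mem_append] at hv
      rcases hv with hv | hv
      · obtain ⟨w, _, rfl⟩ := List.mem_map.1 hv
        exact (hV _).2 ⟨hg1 _, hg2 _⟩
      · rw [List.eq_of_mem_replicate hv]
        exact (hV _).2 ⟨hg1 _, hg2 _⟩
  refine ⟨f, (hV f).2 ⟨hf1, hf2⟩, z, hz, ?_⟩
  let st : ℕ → K := fun i => if i < M.length then 1 else p (i - M.length)
  have hst : ∀ v, st (M.length + v) = p v := by
    intro v
    simp only [st]
    rw [if_neg (by omega), Nat.add_sub_cancel_left]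
  have htk : TrivKer (mlX M ++ flX M) st (dmn M) := by
    apply triv_of_nd M hM hn st
    · intro u hu
      simp only [st, if_pos hu]
    · have : (fun v => st (M.length + v)) = p := funext hst
      rw [this]
      exact hp
  obtain ⟨i1, i2, i3, _, _⟩ := ml_idx M
  have hexc : ∀ v ∈ exc M, v < M.length := by
    intro v hv
    rw [exc, List.mem_filter, List.mem_range] at hv
    exact hv.1
  rw [okX, decide_eq_true_iff, hS, List.length_range, finX, hS, List.length_range]
  apply search_complete hext (dmn M) (2 * M.length) (mlX M) (flX M) (vlX M)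
    (fun v h1 h2 => (hV v).2 ⟨h1, h2⟩) i1 i2
    (fun l hl => by
      obtain ⟨v, hv, hlv⟩ := flX_idx M l hl
      have := hexc v hv
      omega)
    i3
    (fun l hl => ml_dim M hM (fun u hu => by
      obtain ⟨v, hv⟩ := nd_nonempty (cM_sy hM) hp (Finset.mem_range.2 (by omega : u < M.length))
        (Finset.mem_range.2 (by omega : M.length - 1 < M.length)) (by omega)
      rw [Finset.mem_filter, Finset.mem_range] at hv
      exact ⟨v, hv.1, hv.2⟩) l hl)
    hbd
    (List.range (((mlX M).length + 1) * ((mlX M).length + 1) * ((dmn M + 2) * s)))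
    (by rw [List.length_range])
    (st0 M.length (List.range (2 * M.length)) (exc M) z)
    (by rw [st0, List.length_map, List.length_range]) st
    (fun l hl => by
      obtain ⟨v, hv, hlv⟩ := flX_idx M l hl
      rw [hlv, hst, stL, st0_get M.length (2 * M.length) (exc M) z (fun v => g (p v)) _ rfl v hv
        (by have := hexc v hv; omega), hg3]) htk

/-- **Correctness of the decision procedure.** -/
theorem decX_iff (k : ℕ) (M : List (List ℕ)) :
    decX k M = true ↔ WF M ∧ 1 ≤ M.length ∧ (exc M).length ≤ k ∧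
      ∃ r, DC (cM M) r (Finset.range M.length) := by
  rw [decX, Bool.and_eq_true, Bool.and_eq_true, Bool.and_eq_true, wfX_iff, decide_eq_true_iff,
    decide_eq_true_iff, List.any_eq_true]
  constructor
  · rintro ⟨⟨⟨h1, h2⟩, h3⟩, f, _, h4⟩
    rw [List.any_eq_true] at h4
    obtain ⟨z, _, h5⟩ := h4
    exact ⟨h1, h2, h3, decX_sound M h1 h2 f z h5⟩
  · rintro ⟨h1, h2, h3, r, hr⟩
    obtain ⟨f, hf, z, hz, h4⟩ := decX_complete M h1 h2 k h3 r hr
    exact ⟨⟨⟨h1, h2⟩, h3⟩, f, hf, List.any_eq_true.2 ⟨z, hz, h4⟩⟩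

end correct

end Pool.Agent.H203
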