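import Pool.Agent.H203.XInc

/-!
The action of the lines of one vertex.
-/

namespace Pool.Agent.H203



/-- a list of lines acts as the sum of its members -/
theorem g1_act {K : Type*} [CommRing K] (lines : List (ℕ × List ℕ × List ℕ)) (st y : ℕ → K)
    (N r : ℕ) : ∑ c ∈ Finset.range N, AE lines st r c * y c =
      (lines.map (fun l => st l.1 * (((l.2.1.getD r 0 : ℕ) : K) *
        (∑ c ∈ Finset.range N, ((l.2.2.getD c 0 : ℕ) : K) * y c) +
        ((l.2.2.getD r 0 : ℕ) : K) * (∑ c ∈ Finset.range N, ((l.2.1.getD c 0 : ℕ) : K) * y c)))).sum := by
  induction lines with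
  | nil => simp [AE]
  | cons l L ih =>
    have e : ∀ c, AE (l :: L) st r c = ((l.2.2.getD c 0 * l.2.1.getD r 0 +
        l.2.1.getD c 0 * l.2.2.getD r 0 : ℕ) : K) * st l.1 + AE L st r c := by
      intro c
      simp only [AE, List.map_cons, List.sum_cons]
    simp only [e, add_mul, Finset.sum_add_distrib, List.map_cons, List.sum_cons, ih]
    congr 1
    rw [mul_add, Finset.mul_sum, Finset.mul_sum, Finset.mul_sum, Finset.mul_sum,
      ← Finset.sum_add_distrib]
    apply Finset.sum_congr rfl
    intro c _
    push_cast
    ring

theorem g1_unv (N i c : ℕ) (hi : i < N) :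
    (unv (List.range N) i).getD c 0 = if c = i then 1 else 0 := by
  unfold unv
  by_cases hc : c < N
  · rw [List.getD_eq_getElem _ _ (by simpa using hc)]
    simp
  · rw [List.getD_eq_default _ _ (by simpa using hc), if_neg]
    omega

theorem g1_addv (N c : ℕ) (v w : List ℕ) (hc : c < N) :
    (addv (List.range N) v w).getD c 0 = v.getD c 0 + w.getD c 0 := by
  unfold addv
  rw [List.getD_eq_getElem _ _ (by simpa using hc)]
  simp

theorem g1_addv' (N c : ℕ) (v w : List ℕ) (hc : N ≤ c) :
    (addv (List.range N) v w).getD c 0 = 0 := by
  unfold addv
  rw [List.getD_eq_default _ _ (by simpa using hc)]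

theorem g1_unv_sum {K : Type*} [CommRing K] (N i : ℕ) (hi : i < N) (y : ℕ → K) :
    ∑ c ∈ Finset.range N, (((unv (List.range N) i).getD c 0 : ℕ) : K) * y c = y i := by
  rw [Finset.sum_eq_single i]
  · rw [g1_unv N i i hi, if_pos rfl]; simp
  · intro c _ hc
    rw [g1_unv N i c hi, if_neg hc]; simp
  · intro h
    exact absurd (Finset.mem_range.2 hi) h

/-- the pairs of a list without repetitions -/
theorem g1_prs {K : Type*} [AddCommMonoid K] (J : List ℕ) (hJ : J.Nodup) (f : ℕ × ℕ → K) :
    ((prs J).map f).sum = ∑ a ∈ J.toFinset, ∑ b ∈ J.toFinset, if a < b then f (a, b) else 0 := by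
  have h1 : ∀ L : List ℕ, ((L.flatMap (fun a => (J.filter (fun b => decide (a < b))).map
      (fun b => (a, b)))).map f).sum =
      (L.map (fun a => ∑ b ∈ J.toFinset, if a < b then f (a, b) else 0)).sum := by
    intro L
    induction L with
    | nil => simp
    | cons a L ih =>
      rw [List.flatMap_cons, List.map_append, List.sum_append, ih, List.map_cons, List.sum_cons]
      congr 1
      rw [List.map_map, ← Finset.sum_filter]
      have h2 : (J.toFinset.filter (fun b => a < b)) = (J.filter (fun b => decide (a < b))).toFinset := by
        ext b
        simp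
      rw [h2, List.sum_toFinset _ (hJ.filter _)]
      rfl
  unfold prs
  rw [h1 J, List.sum_toFinset _ hJ]

/-- TARGET -/
theorem lnV_action {K : Type*} [Field K] [CharP K 2] (M : List (List ℕ)) (v : ℕ) (st y : ℕ → K)
    (h0 : ∑ i ∈ Finset.range (edg M).length, (if incI M v i then y i else 0) = 0) :
    ∃ lam : K, ((∀ i < (edg M).length, y i = 0) → lam = 0) ∧
      (∀ r < (edg M).length, ∑ c ∈ Finset.range (dmn M), AE (lnV M v) st r c * y c =
        st (M.length + v) * (if incI M v r then y r + lam else 0)) ∧
      (∀ r, (edg M).length ≤ r → ∑ c ∈ Finset.range (dmn M), AE (lnV M v) st r c * y c = 0) := by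
  have two : ∀ x : K, x + x = 0 := fun x => CharTwo.add_self_eq_zero x
  have hN : (edg M).length ≤ dmn M := Nat.le_add_right _ _
  set m := (edg M).length with hm
  set N := dmn M with hNd
  set I := incd (edg M) (List.range m) v with hI
  have hmem : ∀ i, i ∈ I ↔ i < m ∧ incI M v i := by
    intro i
    rw [hI]
    unfold incd incI
    rw [List.mem_filter, List.mem_range]
    simp
  have hnd : I.Nodup := List.Nodup.filter _ List.nodup_range
  have hsum : ∑ i ∈ I.toFinset, y i = 0 := by
    rw [← h0, ← Finset.sum_filter]
    apply Finset.sum_congr
    · ext i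
      rw [List.mem_toFinset, hmem, Finset.mem_filter, Finset.mem_range]
    · intro i _; rfl
  have hV : lnV M v = lnI M.length (List.range N) I v := rfl
  rw [hV]
  by_cases h4 : I.length = 4
  · -- the case of degree four
    obtain ⟨i1, i2, i3, i4, hI4⟩ : ∃ i1 i2 i3 i4, I = [i1, i2, i3, i4] := by
      match hh : I, h4 with
      | [a, b, c, d], _ => exact ⟨a, b, c, d, rfl⟩
    have hl : lnI M.length (List.range N) I v = [(M.length + v,
        addv (List.range N) (unv (List.range N) i1) (unv (List.range N) i2),
        addv (List.range N) (unv (List.range N) i1) (unv (List.range N) i3))] := by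
      unfold lnI
      rw [if_pos h4, hI4]
      rfl
    have m1 := (hmem i1).1 (by rw [hI4]; simp)
    have m2 := (hmem i2).1 (by rw [hI4]; simp)
    have m3 := (hmem i3).1 (by rw [hI4]; simp)
    have m4 := (hmem i4).1 (by rw [hI4]; simp)
    rw [hI4] at hnd
    have hs : y i1 + y i2 + y i3 + y i4 = 0 := by
      rw [← hsum, hI4, List.sum_toFinset _ hnd]
      simp [add_assoc]
    simp only [List.nodup_cons, List.mem_cons, List.not_mem_nil, not_or, or_false] at hnd
    obtain ⟨⟨d12, d13, d14⟩, ⟨d23, d24⟩, d34, -⟩ := hnd
    have ga : ∀ i j, i < N → j < N → ∀ c, c < N →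
        (((addv (List.range N) (unv (List.range N) i) (unv (List.range N) j)).getD c 0 : ℕ) : K) =
        (if c = i then 1 else 0) + (if c = j then 1 else 0) := by
      intro i j hi hj c hc
      rw [g1_addv N c _ _ hc, g1_unv N i c hi, g1_unv N j c hj]
      push_cast
      rfl
    have sa : ∀ i j, i < N → j < N → ∑ c ∈ Finset.range N,
        (((addv (List.range N) (unv (List.range N) i) (unv (List.range N) j)).getD c 0 : ℕ) : K) * y c =
        y i + y j := by
      intro i j hi hj
      rw [← g1_unv_sum N i hi y, ← g1_unv_sum N j hj y, ← Finset.sum_add_distrib]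
      apply Finset.sum_congr rfl
      intro c hc
      rw [g1_addv N c _ _ (Finset.mem_range.1 hc)]
      push_cast
      ring
    have n1 : i1 < N := lt_of_lt_of_le m1.1 hN
    have n2 : i2 < N := lt_of_lt_of_le m2.1 hN
    have n3 : i3 < N := lt_of_lt_of_le m3.1 hN
    have n4 : i4 < N := lt_of_lt_of_le m4.1 hN
    have key : ∀ r, ∑ c ∈ Finset.range N, AE (lnI M.length (List.range N) I v) st r c * y c =
        st (M.length + v) *
        ((((addv (List.range N) (unv (List.range N) i1) (unv (List.range N) i2)).getD r 0 : ℕ) : K) *
          (y i1 + y i3) +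
        (((addv (List.range N) (unv (List.range N) i1) (unv (List.range N) i3)).getD r 0 : ℕ) : K) *
          (y i1 + y i2)) := by
      intro r
      rw [g1_act, hl]
      simp only [List.map_cons, List.map_nil, List.sum_cons, List.sum_nil, add_zero]
      rw [sa i1 i3 n1 n3, sa i1 i2 n1 n2]
    refine ⟨y i4, fun h => h i4 m4.1, ?_, ?_⟩
    · intro r hr
      rw [key r, ga i1 i2 n1 n2 r (lt_of_lt_of_le hr hN), ga i1 i3 n1 n3 r (lt_of_lt_of_le hr hN)]
      congr 1
      by_cases hir : incI M v r
      · rw [if_pos hir]
        have hrI : r ∈ I := (hmem r).2 ⟨hr, hir⟩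
        rw [hI4] at hrI
        simp only [List.mem_cons, List.not_mem_nil, or_false] at hrI
        rcases hrI with rfl | rfl | rfl | rfl
        · rw [if_pos rfl, if_neg d12, if_neg d13]
          linear_combination two (y r) + two (y i2) + two (y i3) - hs
        · rw [if_neg (Ne.symm d12), if_pos rfl, if_neg d23]
          linear_combination hs - two (y r) - two (y i4)
        · rw [if_neg (Ne.symm d13), if_neg (Ne.symm d23), if_pos rfl]
          linear_combination hs - two (y r) - two (y i4)
        · rw [if_neg (Ne.symm d14), if_neg (Ne.symm d24), if_neg (Ne.symm d34)]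
          linear_combination - two (y r)
      · rw [if_neg hir]
        have e1 : r ≠ i1 := fun e => hir (e ▸ m1.2)
        have e2 : r ≠ i2 := fun e => hir (e ▸ m2.2)
        have e3 : r ≠ i3 := fun e => hir (e ▸ m3.2)
        rw [if_neg e1, if_neg e2, if_neg e3]
        ring
    · intro r hr
      rw [key r]
      by_cases hrN : r < N
      · have e1 : r ≠ i1 := fun e => by omega
        have e2 : r ≠ i2 := fun e => by omega
        have e3 : r ≠ i3 := fun e => by omega
        rw [ga i1 i2 n1 n2 r hrN, ga i1 i3 n1 n3 r hrN, if_neg e1, if_neg e2, if_neg e3]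
        ring
      · rw [g1_addv' N r _ _ (by omega), g1_addv' N r _ _ (by omega)]
        simp
  · -- the other degrees
    have hl : lnI M.length (List.range N) I v = (prs I.dropLast).map (fun q =>
        (M.length + v, unv (List.range N) q.1, unv (List.range N) q.2)) := by
      unfold lnI
      rw [if_neg h4, List.tail_reverse, List.reverse_reverse]
    have hJsub : ∀ i ∈ I.dropLast, i ∈ I := fun i hi => List.dropLast_subset I hi
    have hJnd : I.dropLast.Nodup := hnd.sublist (List.dropLast_sublist I)
    have hJN : ∀ i ∈ I.dropLast, i < N := fun i hi => lt_of_lt_of_le ((hmem i).1 (hJsub i hi)).1 hN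
    have key : ∀ r, ∑ c ∈ Finset.range N, AE (lnI M.length (List.range N) I v) st r c * y c =
        st (M.length + v) * (if r ∈ I.dropLast then (∑ a ∈ I.dropLast.toFinset, y a) - y r else 0) := by
      intro r
      rw [g1_act, hl, List.map_map, g1_prs _ hJnd]
      have e1 : ∀ a ∈ I.dropLast.toFinset, ∀ b ∈ I.dropLast.toFinset,
          (if a < b then ((fun l : ℕ × List ℕ × List ℕ => st l.1 * (((l.2.1.getD r 0 : ℕ) : K) *
            (∑ c ∈ Finset.range N, ((l.2.2.getD c 0 : ℕ) : K) * y c) +
            ((l.2.2.getD r 0 : ℕ) : K) * (∑ c ∈ Finset.range N, ((l.2.1.getD c 0 : ℕ) : K) * y c))) ∘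
            fun q : ℕ × ℕ => (M.length + v, unv (List.range N) q.1, unv (List.range N) q.2)) (a, b)
            else 0) =
          (if a = r then (if r < b then st (M.length + v) * y b else 0) else 0) +
          (if b = r then (if a < r then st (M.length + v) * y a else 0) else 0) := by
        intro a ha b hb
        have ha' : a < N := hJN a (by simpa using ha)
        have hb' : b < N := hJN b (by simpa using hb)
        simp only [Function.comp]
        rw [g1_unv_sum N a ha' y, g1_unv_sum N b hb' y, g1_unv N a r ha', g1_unv N b r hb']
        by_cases hab : a < b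
        · rw [if_pos hab]
          by_cases har : a = r
          · subst har
            rw [if_pos rfl, if_pos rfl, if_pos hab, if_neg (Nat.ne_of_lt hab), if_neg (Nat.ne_of_gt hab)]
            simp
          · by_cases hbr : b = r
            · subst hbr
              rw [if_neg (Ne.symm har), if_neg har, if_pos rfl, if_pos rfl, if_pos hab]
              simp
            · rw [if_neg (Ne.symm har), if_neg har, if_neg hbr, if_neg (Ne.symm hbr)]
              simp
        · rw [if_neg hab]
          by_cases har : a = r
          · subst har
            rw [if_pos rfl, if_neg hab]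
            by_cases hbr : b = a
            · subst hbr
              simp
            · rw [if_neg hbr, add_zero]
          · rw [if_neg har]
            by_cases hbr : b = r
            · subst hbr
              rw [if_pos rfl, if_neg hab, add_zero]
            · rw [if_neg hbr, add_zero]
      rw [Finset.sum_congr rfl (fun a ha => Finset.sum_congr rfl (e1 a ha))]
      simp only [Finset.sum_add_distrib]
      have e2 : ∑ a ∈ I.dropLast.toFinset, ∑ b ∈ I.dropLast.toFinset,
          (if a = r then (if r < b then st (M.length + v) * y b else 0) else 0) =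
          if r ∈ I.dropLast.toFinset then ∑ b ∈ I.dropLast.toFinset,
            (if r < b then st (M.length + v) * y b else 0) else 0 := by
        rw [← Finset.sum_ite_eq' I.dropLast.toFinset r (fun _ => ∑ b ∈ I.dropLast.toFinset,
            (if r < b then st (M.length + v) * y b else 0))]
        apply Finset.sum_congr rfl
        intro a _
        by_cases har : a = r
        · simp only [if_pos har]
        · simp only [if_neg har, Finset.sum_const_zero]
      have e3 : ∑ a ∈ I.dropLast.toFinset, ∑ b ∈ I.dropLast.toFinset,
          (if b = r then (if a < r then st (M.length + v) * y a else 0) else 0) =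
          if r ∈ I.dropLast.toFinset then ∑ a ∈ I.dropLast.toFinset,
            (if a < r then st (M.length + v) * y a else 0) else 0 := by
        have e4 : ∀ a, ∑ b ∈ I.dropLast.toFinset,
            (if b = r then (if a < r then st (M.length + v) * y a else 0) else 0) =
            if r ∈ I.dropLast.toFinset then (if a < r then st (M.length + v) * y a else 0) else 0 :=
          fun a => Finset.sum_ite_eq' I.dropLast.toFinset r
            (fun _ => if a < r then st (M.length + v) * y a else 0)
        rw [Finset.sum_congr rfl (fun a _ => e4 a)]
        by_cases hr : r ∈ I.dropLast.toFinset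
        · simp only [if_pos hr]
        · simp only [if_neg hr, Finset.sum_const_zero]
      rw [e2, e3]
      by_cases hr : r ∈ I.dropLast
      · have hr' : r ∈ I.dropLast.toFinset := by simpa using hr
        rw [if_pos hr', if_pos hr', if_pos hr, ← Finset.sum_add_distrib]
        have e5 : ∀ a ∈ I.dropLast.toFinset, (if r < a then st (M.length + v) * y a else 0) +
            (if a < r then st (M.length + v) * y a else 0) =
            st (M.length + v) * y a - (if a = r then st (M.length + v) * y a else 0) := by
          intro a _
          rcases lt_trichotomy r a with h | h | h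
          · rw [if_pos h, if_neg (by omega), if_neg (by omega)]; ring
          · rw [if_neg (by omega), if_neg (by omega), if_pos h.symm]; ring
          · rw [if_neg (by omega), if_pos h, if_neg (by omega)]; ring
        rw [Finset.sum_congr rfl e5, Finset.sum_sub_distrib,
          Finset.sum_ite_eq' I.dropLast.toFinset r (fun a => st (M.length + v) * y a), if_pos hr',
          ← Finset.mul_sum]
        ring
      · have hr' : r ∉ I.dropLast.toFinset := by simpa using hr
        rw [if_neg hr', if_neg hr', if_neg hr]
        ring
    by_cases hnil : I = []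
    · refine ⟨0, fun _ => rfl, ?_, ?_⟩
      · intro r hr
        have hir : ¬ incI M v r := by
          intro h
          have := (hmem r).2 ⟨hr, h⟩
          rw [hnil] at this
          exact absurd this List.not_mem_nil
        rw [key r, if_neg hir, if_neg]
        rw [hnil]
        simp
      · intro r _
        rw [key r, if_neg, mul_zero]
        rw [hnil]
        simp
    · obtain ⟨J, l, hJl⟩ : ∃ J l, I = J ++ [l] :=
        ⟨I.dropLast, I.getLast hnil, (List.dropLast_append_getLast hnil).symm⟩
      have hdl : I.dropLast = J := by rw [hJl, List.dropLast_concat]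
      rw [hdl] at key hJnd
      have hlI : l ∈ I := by rw [hJl]; simp
      have hlm := (hmem l).1 hlI
      have hlJ : l ∉ J := by
        rw [hJl, List.nodup_append] at hnd
        intro h
        exact hnd.2.2 l h l (by simp) rfl
      have hJs : ∑ a ∈ J.toFinset, y a = y l := by
        have h1 : I.toFinset = insert l J.toFinset := by
          rw [hJl]
          ext a
          simp
        rw [h1, Finset.sum_insert (by simpa using hlJ)] at hsum
        linear_combination hsum - two (y l)
      refine ⟨y l, fun h => h l hlm.1, ?_, ?_⟩
      · intro r hr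
        rw [key r, hJs]
        congr 1
        by_cases hir : incI M v r
        · rw [if_pos hir]
          have hrI : r ∈ I := (hmem r).2 ⟨hr, hir⟩
          rw [hJl, List.mem_append, List.mem_singleton] at hrI
          by_cases hrJ : r ∈ J
          · rw [if_pos hrJ]
            linear_combination - two (y r)
          · rw [if_neg hrJ]
            rw [hrI.resolve_left hrJ]
            linear_combination - two (y l)
        · rw [if_neg hir, if_neg]
          intro h
          exact hir ((hmem r).1 (by rw [hJl]; exact List.mem_append_left _ h)).2
      · intro r hr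
        rw [key r, if_neg, mul_zero]
        intro h
        have := ((hmem r).1 (by rw [hJl]; exact List.mem_append_left _ h)).1
        omega

end Pool.Agent.H203
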