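import Pool.Agent.H203.XDefs

/-!
# Incidence of an edge number with a vertex
-/

namespace Pool.Agent.H203

/-- is the edge number `i` incident with `v`? -/
def incI (M : List (List ℕ)) (v i : ℕ) : Prop :=
  ((edg M).getD i (0, 0)).1 = v ∨ ((edg M).getD i (0, 0)).2 = v

instance (M : List (List ℕ)) (v i : ℕ) : Decidable (incI M v i) := by
  unfold incI
  infer_instance

end Pool.Agent.H203
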