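import Pool.Agent.H203.XDefs

namespace Pool.Agent.H203

open Pool.Agent.NPC Pool.Agent.H442R3.MPar

variable {α : Type} [TEnc α]

theorem poly_scv {S : α → List ℕ} {b : α → ℕ} (hS : Poly S) (hb : Poly b) :
    Poly (fun a => scv (S a) (b a)) := by
  unfold scv
  fun_prop

attribute [fun_prop] poly_scv

theorem poly_nxt {S f v : α → List ℕ} (hS : Poly S) (hf : Poly f) (hv : Poly v) :
    Poly (fun a => nxt (S a) (f a) (v a)) := by
  unfold nxt
  fun_prop

attribute [fun_prop] poly_nxt

theorem nxt_iter (S f : List ℕ) (k : ℕ) : ((nxt S f)^[k] (scv S 1)).length = S.length ∧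
    ∀ v ∈ (nxt S f)^[k] (scv S 1), v ≤ 1 := by
  induction k with
  | zero =>
    refine ⟨by simp [scv], ?_⟩
    intro v hv
    simp only [Function.iterate_zero, id_eq, scv, List.mem_map] at hv
    obtain ⟨i, _, rfl⟩ := hv
    split <;> omega
  | succ k ih =>
    rw [Function.iterate_succ_apply']
    refine ⟨by rw [nxt, List.length_map], ?_⟩
    intro v hv
    rw [nxt, List.mem_map] at hv
    obtain ⟨i, _, rfl⟩ := hv
    have := Nat.mod_lt ((if i = 0 then 0 else ((nxt S f)^[k] (scv S 1)).getD (i - 1) 0) +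
      ((nxt S f)^[k] (scv S 1)).getD (S.length - 1) 0 * f.getD i 0) (show 0 < 2 by omega)
    omega

theorem sz_nxt_iter (S f : List ℕ) (k : ℕ) : sz ((nxt S f)^[k] (scv S 1)) ≤
    S.length * (sz (1 : ℕ) + sz (0 : ℕ) + 1) + 1 := by
  obtain ⟨h1, h2⟩ := nxt_iter S f k
  have := sz_le_length_mul ((nxt S f)^[k] (scv S 1)) (sz (1 : ℕ) + sz (0 : ℕ)) (by
    intro v hv
    have h3 := h2 v hv
    have h4 : v = 0 ∨ v = 1 := by omega
    rcases h4 with rfl | rfl <;> omega)
  rw [h1] at this
  exact this

/-- TARGET (the four statements below are one target) -/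
theorem poly_pwl {S f L : α → List ℕ} (hS : Poly S) (hf : Poly f) (hL : Poly L) :
    Poly (fun a => pwl (S a) (f a) (L a)) := by
  obtain ⟨rS, hrS⟩ := (show Poly (fun q : α × ℕ => S q.1) by fun_prop).sz_le
  unfold pwl
  refine NPC.Poly.map (l := L) (F := fun a i =>
    (nxt (S a) (f a))^[((L a).filter (fun j => decide (j < i))).length] (scv (S a) 1)) hL ?_
  refine NPC.Poly.iterLen (l := fun q : α × ℕ => (L q.1).filter (fun j => decide (j < q.2)))
    (s := fun q => scv (S q.1) 1) (F := fun q v => nxt (S q.1) (f q.1) v) (by fun_prop)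
    (by fun_prop) (by fun_prop)
    (rS * (Polynomial.C (sz (1 : ℕ)) + Polynomial.C (sz (0 : ℕ)) + 1) + 1) ?_
  intro q k _
  refine (sz_nxt_iter _ _ k).trans ?_
  have h1 := hrS q
  have h3 := length_lt_sz (S q.1)
  have h4 : (S q.1).length ≤ rS.eval (sz q) := by omega
  simp only [Polynomial.eval_add, Polynomial.eval_mul, Polynomial.eval_C, Polynomial.eval_one]
  gcongr

attribute [fun_prop] poly_pwl

theorem poly_entX {S : α → List ℕ} {lines : α → List (ℕ × List ℕ × List ℕ)}
    {x : α → List (List ℕ)} {r c : α → ℕ} (hS : Poly S) (hl : Poly lines) (hx : Poly x)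
    (hr : Poly r) (hc : Poly c) : Poly (fun a => entX (S a) (lines a) (x a) (r a) (c a)) := by
  unfold entX
  fun_prop

attribute [fun_prop] poly_entX

theorem poly_matA {S Rn : α → List ℕ} {lines : α → List (ℕ × List ℕ × List ℕ)}
    {x : α → List (List ℕ)} (hS : Poly S) (hRn : Poly Rn) (hl : Poly lines) (hx : Poly x) :
    Poly (fun a => matA (S a) (Rn a) (lines a) (x a)) := by
  unfold matA
  fun_prop

attribute [fun_prop] poly_matA

theorem poly_matB {S Rn : α → List ℕ} {lines : α → List (ℕ × List ℕ × List ℕ)}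
    {x : α → List (List ℕ)} {j k : α → List ℕ × List ℕ} (hS : Poly S) (hRn : Poly Rn)
    (hl : Poly lines) (hx : Poly x) (hj : Poly j) (hk : Poly k) :
    Poly (fun a => matB (S a) (Rn a) (lines a) (x a) (j a) (k a)) := by
  unfold matB
  fun_prop

attribute [fun_prop] poly_matB

theorem poly_expd {S RN : α → List ℕ} {T : α → List (List ℕ)} {mat : α → List (List (List ℕ))}
    (hS : Poly S) (hRN : Poly RN) (hT : Poly T) (hm : Poly mat) :
    Poly (fun a => expd (S a) (RN a) (T a) (mat a)) := by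
  unfold expd
  fun_prop

attribute [fun_prop] poly_expd

theorem poly_nulM {S RN : α → List ℕ} {T : α → List (List ℕ)} {mat : α → List (List (List ℕ))}
    (hS : Poly S) (hRN : Poly RN) (hT : Poly T) (hm : Poly mat) :
    Poly (fun a => nulM (S a) (RN a) (T a) (mat a)) := by
  unfold nulM
  exact NPC.Poly.length (poly_kerL (p := fun _ => 2) (NPC.Poly.const 2)
    (UPoly.mul (UPoly.length hRN) (UPoly.length hS)).range (poly_expd hS hRN hT hm)
    (fun _ => by omega))

attribute [fun_prop] poly_nulM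

theorem poly_psiX {S Rn RN : α → List ℕ} {T x : α → List (List ℕ)}
    {ml lines : α → List (ℕ × List ℕ × List ℕ)} (hS : Poly S) (hRn : Poly Rn) (hRN : Poly RN)
    (hT : Poly T) (hml : Poly ml) (hl : Poly lines) (hx : Poly x) :
    Poly (fun a => psiX (S a) (Rn a) (RN a) (T a) (ml a) (lines a) (x a)) := by
  unfold psiX
  fun_prop

attribute [fun_prop] poly_psiX

end Pool.Agent.H203
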