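import Pool.Agent.H203.XDefs
import Pool.Agent.H442R3.MPar.Ker

/-!
Part S1 (semantics of the nullity computation).
-/

namespace Pool.Agent.H203

open Module Pool.Agent.H442R3.MPar

theorem s1_cast_mod {R : Type*} [CommRing R] [Algebra (ZMod 2) R] (n : ℕ) :
    ((n % 2 : ℕ) : R) = (n : R) := by
  rw [← map_natCast (algebraMap (ZMod 2) R) (n % 2), ← map_natCast (algebraMap (ZMod 2) R) n,
    ZMod.natCast_mod]

theorem s1_getD_map_range {α : Type*} (N : ℕ) (f : ℕ → α) (d : α) (i : ℕ) (hi : i < N) :
    ((List.range N).map f).getD i d = f i := by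
  rw [List.getD_eq_getElem _ _ (by simpa using hi)]
  simp

theorem s1_repv_scv {R : Type*} [CommRing R] (θ : R) (s : ℕ) (hs : 0 < s) :
    repv θ s (scv (List.range s) 1) = 1 := by
  rw [repv, scv, Finset.sum_eq_single 0]
  · rw [s1_getD_map_range _ _ _ _ hs]
    simp
  · intro k hk hk0
    rw [s1_getD_map_range _ _ _ _ (Finset.mem_range.1 hk), if_neg hk0]
    simp
  · intro h
    exact absurd (Finset.mem_range.2 hs) h

theorem s1_repv_nxt {R : Type*} [CommRing R] [Algebra (ZMod 2) R] (θ : R) (s : ℕ) (f : List ℕ)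
    (hs : 0 < s) (hf : θ ^ s = ∑ k ∈ Finset.range s, ((f.getD k 0 : ℕ) : R) * θ ^ k) (v : List ℕ) :
    repv θ s (nxt (List.range s) f v) = θ * repv θ s v := by
  obtain ⟨t, rfl⟩ : ∃ t, s = t + 1 := ⟨s - 1, by omega⟩
  have h1 : repv θ (t + 1) (nxt (List.range (t + 1)) f v) =
      ∑ k ∈ Finset.range (t + 1), (((if k = 0 then 0 else v.getD (k - 1) 0 : ℕ) : R) * θ ^ k +
        ((v.getD t 0 : ℕ) : R) * (((f.getD k 0 : ℕ) : R) * θ ^ k)) := by
    rw [repv]
    apply Finset.sum_congr rfl
    intro k hk
    rw [nxt, s1_getD_map_range _ _ _ _ (Finset.mem_range.1 hk), s1_cast_mod, List.length_range]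
    push_cast
    ring
  rw [h1, Finset.sum_add_distrib, ← Finset.mul_sum, ← hf, Finset.sum_range_succ', repv,
    Finset.sum_range_succ, mul_add, Finset.mul_sum]
  simp only [if_true, Nat.cast_zero, zero_mul, add_zero, Nat.succ_ne_zero, if_false,
    Nat.add_sub_cancel]
  congr 1
  · apply Finset.sum_congr rfl
    intro k _
    ring
  · ring

theorem s1_repv_iter {R : Type*} [CommRing R] [Algebra (ZMod 2) R] (θ : R) (s : ℕ) (f : List ℕ)
    (hs : 0 < s) (hf : θ ^ s = ∑ k ∈ Finset.range s, ((f.getD k 0 : ℕ) : R) * θ ^ k) (i : ℕ) :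
    repv θ s ((nxt (List.range s) f)^[i] (scv (List.range s) 1)) = θ ^ i := by
  induction i with
  | zero => rw [Function.iterate_zero, id, pow_zero, s1_repv_scv θ s hs]
  | succ i ih => rw [Function.iterate_succ_apply', s1_repv_nxt θ s f hs hf, ih, pow_succ']

theorem s1_filter_lt (n : ℕ) (i : ℕ) (hi : i < n) :
    ((List.range n).filter (fun j => decide (j < i))).length = i := by
  induction n with
  | zero => omega
  | succ n ih =>
    rw [List.range_succ, List.filter_append, List.length_append]
    rcases Nat.lt_or_ge i n with h | h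
    · rw [ih h]
      have : ¬ n < i := by omega
      simp [this]
    · have : i = n := by omega
      subst this
      have h2 : ((List.range i).filter (fun j => decide (j < i))) = List.range i :=
        List.filter_eq_self.2 fun a ha => by simpa using ha
      rw [h2]
      simp

theorem s1_pwl (s : ℕ) (f : List ℕ) (i : ℕ) (hi : i < 2 * s) :
    (pwl (List.range s) f (List.range (2 * s))).getD i [] =
      (nxt (List.range s) f)^[i] (scv (List.range s) 1) := by
  rw [pwl, s1_getD_map_range _ _ _ _ hi, s1_filter_lt _ _ hi]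

theorem s1_repv_repr {R : Type*} [CommRing R] [Algebra (ZMod 2) R] {θ : R} {s : ℕ} {f : List ℕ}
    {b : Basis (Fin s) (ZMod 2) R} (h : IsExt θ s f b) (w : List ℕ) (k' : Fin s) :
    b.repr (repv θ s w) k' = ((w.getD k' 0 : ℕ) : ZMod 2) := by
  have h1 : repv θ s w = ∑ k : Fin s, ((w.getD k 0 : ℕ) : ZMod 2) • b k := by
    rw [repv, ← Fin.sum_univ_eq_sum_range (fun k => ((w.getD k 0 : ℕ) : R) * θ ^ k) s]
    apply Finset.sum_congr rfl
    intro k _
    rw [h.hb, Algebra.smul_def, map_natCast]
  rw [h1, Basis.repr_sum_self]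

theorem s1_flat {α : Type*} (s : ℕ) (g : ℕ → ℕ → α) (d : α) (N : ℕ) (c j : ℕ) (hc : c < N)
    (hj : j < s) :
    ((List.range N).flatMap (fun c => (List.range s).map (g c))).getD (j + s * c) d = g c j := by
  have hlen : ∀ N, ((List.range N).flatMap (fun c => (List.range s).map (g c))).length = s * N := by
    intro N
    induction N with
    | zero => simp
    | succ N ih =>
      rw [List.range_succ, List.flatMap_append, List.length_append, ih]
      simp
      ring
  induction N with
  | zero => omega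
  | succ N ih =>
    rw [List.range_succ, List.flatMap_append]
    rcases Nat.lt_or_ge c N with h | h
    · have h2 : j + s * c < s * N := by
        calc j + s * c < s + s * c := by omega
          _ = s * (c + 1) := by ring
          _ ≤ s * N := Nat.mul_le_mul_left _ h
      rw [List.getD_append _ _ _ _ (by rw [hlen]; exact h2), ih h]
    · have : c = N := by omega
      subst this
      rw [List.getD_append_right _ _ _ _ (by rw [hlen]; omega), hlen, Nat.add_sub_cancel]
      rw [List.flatMap_cons, List.flatMap_nil, List.append_nil, s1_getD_map_range _ _ _ _ hj]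

/-- TARGET -/
theorem nulM_eq {R : Type*} [CommRing R] [Algebra (ZMod 2) R] {θ : R} {s : ℕ} {f : List ℕ}
    {b : Basis (Fin s) (ZMod 2) R} (h : IsExt θ s f b) (N : ℕ) (mat : List (List (List ℕ)))
    (U : Submodule (ZMod 2) (Fin N → R))
    (hU : ∀ y, y ∈ U ↔ ∀ row ∈ mat, ∑ c : Fin N, repv θ s (row.getD c []) * y c = 0) :
    nulM (List.range s) (List.range N) (pwl (List.range s) f (List.range (2 * s))) mat =
      finrank (ZMod 2) U := by
  have : Fact (Nat.Prime 2) := ⟨Nat.prime_two⟩
  let Φ : (Fin (N * s) → ZMod 2) ≃ₗ[ZMod 2] (Fin N → R) :=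
    (LinearEquiv.funCongrLeft (ZMod 2) (ZMod 2) (finProdFinEquiv (m := N) (n := s))).trans
      ((LinearEquiv.curry (ZMod 2) (ZMod 2) (Fin N) (Fin s)).trans
        (LinearEquiv.piCongrRight (fun _ => b.equivFun.symm)))
  have hΦ : ∀ y c, Φ y c = ∑ j : Fin s, y (finProdFinEquiv (c, j)) • b j := by
    intro y c
    have : Φ y c = b.equivFun.symm (fun j => y (finProdFinEquiv (c, j))) := rfl
    rw [this, Basis.equivFun_symm_apply]
  -- the functional of a row
  have hrow : ∀ (row : List (List ℕ)) (k' : Fin s) (y : Fin (N * s) → ZMod 2),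
      DL 2 (N * s) ((List.range N).flatMap (fun c => (List.range s).map (fun j =>
        (((List.range s).map (fun k => (row.getD c []).getD k 0 *
          ((pwl (List.range s) f (List.range (2 * s))).getD (j + k) []).getD k' 0)).sum) % 2))) y =
        b.repr (∑ c : Fin N, repv θ s (row.getD c []) * Φ y c) k' := by
    intro row k' y
    rw [DL_apply, ← (finProdFinEquiv (m := N) (n := s)).sum_comp, Fintype.sum_prod_type, map_sum,
      Finsupp.finsetSum_apply]
    apply Finset.sum_congr rfl
    intro c _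
    rw [hΦ, Finset.mul_sum, map_sum, Finsupp.finsetSum_apply]
    apply Finset.sum_congr rfl
    intro j _
    rw [vec, finProdFinEquiv_apply_val, s1_flat _ _ _ _ _ _ c.2 j.2, ZMod.natCast_mod, sum_range_list,
      Nat.cast_sum, mul_smul_comm, map_smul, Finsupp.smul_apply, smul_eq_mul, mul_comm]
    congr 1
    have h1 : repv θ s (row.getD c []) * b j = ∑ k : Fin s,
        ((((row.getD c []).getD k 0 : ℕ) : ZMod 2)) • θ ^ ((j : ℕ) + (k : ℕ)) := by
      rw [repv, ← Fin.sum_univ_eq_sum_range (fun k => (((row.getD c []).getD k 0 : ℕ) : R) * θ ^ k) s,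
        Finset.sum_mul]
      apply Finset.sum_congr rfl
      intro k _
      rw [h.hb, Algebra.smul_def, map_natCast]
      ring
    rw [h1, map_sum, Finsupp.finsetSum_apply]
    apply Finset.sum_congr rfl
    intro k _
    rw [map_smul, Finsupp.smul_apply, smul_eq_mul, Nat.cast_mul,
      s1_pwl s f _ (by have := j.2; have := k.2; omega),
      ← s1_repv_repr h ((nxt (List.range s) f)^[(j : ℕ) + (k : ℕ)] (scv (List.range s) 1)) k',
      s1_repv_iter θ s f h.pos h.hf]
  rw [nulM, List.length_range, List.length_range,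
    kerL_length 2 (N * s) _ (U.comap (Φ : (Fin (N * s) → ZMod 2) →ₗ[ZMod 2] (Fin N → R)))]
  · have h1 := LinearEquiv.finrank_map_eq Φ
      (U.comap (Φ : (Fin (N * s) → ZMod 2) →ₗ[ZMod 2] (Fin N → R)))
    have h3 : (U.comap (Φ : (Fin (N * s) → ZMod 2) →ₗ[ZMod 2] (Fin N → R))).map
        (Φ : (Fin (N * s) → ZMod 2) →ₗ[ZMod 2] (Fin N → R)) = U :=
      Submodule.map_comap_eq_of_surjective Φ.surjective U
    rw [h3] at h1
    exact h1.symm
  · intro y
    rw [Submodule.mem_comap]
    rw [LinearEquiv.coe_coe, hU]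
    constructor
    · intro h1 g hg
      rw [expd, List.mem_flatMap] at hg
      obtain ⟨row, hrow', hg⟩ := hg
      rw [List.mem_map] at hg
      obtain ⟨k', hk', rfl⟩ := hg
      rw [List.mem_range] at hk'
      have h2 := hrow row ⟨k', hk'⟩ y
      rw [h1 row hrow'] at h2
      simpa using h2
    · intro h1 row hr
      apply b.ext_elem
      intro k'
      rw [← hrow row k' y, map_zero, Finsupp.zero_apply]
      apply h1
      rw [expd, List.mem_flatMap]
      exact ⟨row, hr, List.mem_map.2 ⟨k', List.mem_range.2 k'.2, rfl⟩⟩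

end Pool.Agent.H203
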