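import Pool.Agent.H203.XS1
import Pool.Agent.H442R3.MPar.Sem

/-!
Part S2 (nullities over `𝔽₂` versus nullities over the extension field `K`).
The nullity over `𝔽₂` of a `K`-subspace `W` is `s * finrank K W` (`Module.finrank_mul_finrank` with the tower
`ZMod 2, K, W`; `finrank (ZMod 2) K = s` from the basis `b`).
`nulA_eq`: apply `nulM_eq` with `U` the kernel of the matrix, and the isomorphism
`Dual K (Fin N → K) ≃ (Fin N → K)`, `φ ↦ (φ (Pi.single c 1))_c`.
`nulB_eq`: the same with `Phi : (Fin (N + 2) → K) ≃ Dual K (Fin N → K) × K × K` (model: `Phi`, `Phi_bij`,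
`finrank_ker_comp`, `nulL_eq` in `Pool/Agent/H442R3/MPar/Sem.lean`, written there for `ZMod p` only).
`TM`, `nl`, `ov`, `Dual` are in `Pool/Agent/H442R3/MPar/Pot.lean`.
The entries number `N`, `N+1` of the last two rows of `matB` are absent, `[].getD`, and represent `0`.
-/

namespace Pool.Agent.H203

open Module Pool.Agent.H442R3.MPar


/-! auxiliary lemmas -/

theorem s2_cast_mod {R : Type*} [CommRing R] [Algebra (ZMod 2) R] (m : ℕ) :
    ((m % 2 : ℕ) : R) = (m : R) := by
  rw [← map_natCast (algebraMap (ZMod 2) R), ZMod.natCast_mod, map_natCast]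

theorem s2_getD_range {β : Type*} (f : ℕ → β) (d : β) {n c : ℕ} (hc : c < n) :
    ((List.range n).map f).getD c d = f c := by
  rw [List.getD_eq_getElem?_getD]
  simp [hc]

theorem s2_repv_nil {R : Type*} [CommRing R] (θ : R) (s : ℕ) : repv θ s [] = 0 := by
  simp [repv]

theorem s2_sum {R : Type*} [CommRing R] (θ : R) (s : ℕ) {β : Type*} (g : β → ℕ) (h : β → ℕ → ℕ)
    (l : List β) :
    ∑ k ∈ Finset.range s, (((l.map (fun a => g a * h a k)).sum : ℕ) : R) * θ ^ k =
      (l.map (fun a => (g a : R) * ∑ k ∈ Finset.range s, (h a k : R) * θ ^ k)).sum := by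
  induction l with
  | nil => simp
  | cons a l ih =>
    simp only [List.map_cons, List.sum_cons, Nat.cast_add, Nat.cast_mul, add_mul,
      Finset.sum_add_distrib]
    rw [ih, Finset.mul_sum]
    congr 1
    exact Finset.sum_congr rfl fun k _ => by ring

/-- The nullity over the small field. -/
theorem s2_finrank {K : Type*} [Field K] [Algebra (ZMod 2) K] {θ : K} {s : ℕ} {f : List ℕ}
    {b : Basis (Fin s) (ZMod 2) K} (_h : IsExt θ s f b) {N : ℕ} (W : Submodule K (Fin N → K)) :
    finrank (ZMod 2) (W.restrictScalars (ZMod 2)) = s * finrank K W := by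
  have h1 : finrank (ZMod 2) K = s := by
    rw [Module.finrank_eq_card_basis b, Fintype.card_fin]
  have e := (Submodule.restrictScalarsEquiv (ZMod 2) K (Fin N → K) W).restrictScalars (ZMod 2)
  rw [e.finrank_eq, ← Module.finrank_mul_finrank (ZMod 2) K W, h1]

section phi

variable {K : Type*} [Field K] (n : ℕ)

/-- coordinates -/
def s2Psi : (Fin n → K) →ₗ[K] Dual K (Fin n → K) where
  toFun y := ∑ c : Fin n, y c • LinearMap.proj c
  map_add' y z := by
    simp only [Pi.add_apply, add_smul, Finset.sum_add_distrib]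
  map_smul' c y := by
    simp only [Pi.smul_apply, smul_eq_mul, mul_smul, RingHom.id_apply, Finset.smul_sum]

theorem s2Psi_apply (y : Fin n → K) : s2Psi n y = ∑ c : Fin n, y c • LinearMap.proj c := rfl

theorem s2Psi_eval (y v : Fin n → K) : s2Psi n y v = ∑ c : Fin n, y c * v c := by
  rw [s2Psi_apply, LinearMap.sum_apply]
  rfl

theorem s2Psi_single (y : Fin n → K) (c : Fin n) : s2Psi n y (Pi.single c 1) = y c := by
  rw [s2Psi_eval]
  simp [Pi.single_apply]

theorem s2Psi_bij : Function.Bijective (s2Psi (K := K) n) := by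
  constructor
  · intro y z h
    funext i
    rw [← s2Psi_single n y i, ← s2Psi_single n z i, h]
  · intro φ
    refine ⟨fun c => φ (Pi.single c 1), ?_⟩
    apply LinearMap.pi_ext'
    intro i
    apply LinearMap.ext_ring
    simp only [LinearMap.comp_apply, LinearMap.single_apply]
    rw [s2Psi_single]

/-- coordinates for the bordered matrix -/
def s2Phi : (Fin (n + 2) → K) →ₗ[K] (Dual K (Fin n → K) × K × K) where
  toFun y := (s2Psi n (fun c => y c.castSucc.castSucc),
    y (Fin.last n).castSucc, y (Fin.last (n + 1)))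
  map_add' y z := by
    have h : (fun c : Fin n => (y + z) c.castSucc.castSucc) =
      (fun c : Fin n => y c.castSucc.castSucc) + fun c : Fin n => z c.castSucc.castSucc := rfl
    rw [h, map_add]
    rfl
  map_smul' c y := by
    have h : (fun d : Fin n => (c • y) d.castSucc.castSucc) =
      c • (fun d : Fin n => y d.castSucc.castSucc) := rfl
    rw [h, map_smul]
    rfl

theorem s2Phi_apply (y : Fin (n + 2) → K) : s2Phi n y =
    (s2Psi n (fun c => y c.castSucc.castSucc),
    y (Fin.last n).castSucc, y (Fin.last (n + 1))) := rfl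

theorem s2Phi_bij : Function.Bijective (s2Phi (K := K) n) := by
  constructor
  · intro y z h
    rw [s2Phi_apply, s2Phi_apply, Prod.mk.injEq, Prod.mk.injEq] at h
    obtain ⟨h1, h2, h3⟩ := h
    funext i
    refine Fin.lastCases h3 (fun i => ?_) i
    refine Fin.lastCases h2 (fun i => ?_) i
    exact congrFun ((s2Psi_bij n).1 h1) i
  · rintro ⟨φ, s, t⟩
    obtain ⟨w, hw⟩ := (s2Psi_bij n).2 φ
    refine ⟨Fin.snoc (Fin.snoc w s) t, ?_⟩
    rw [s2Phi_apply]
    simp only [Fin.snoc_castSucc, Fin.snoc_last]
    rw [hw]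

end phi

/-- TARGET (the four statements below are one target) -/
theorem repv_entX {R : Type*} [CommRing R] [Algebra (ZMod 2) R] (θ : R) (s : ℕ)
    (lines : List (ℕ × List ℕ × List ℕ)) (x : List (List ℕ)) (r c : ℕ) :
    repv θ s (entX (List.range s) lines x r c) =
      AE lines (fun i => repv θ s (x.getD i [])) r c := by
  have h1 : repv θ s (entX (List.range s) lines x r c) =
      ∑ k ∈ Finset.range s, (((lines.map (fun l => (l.2.2.getD c 0 * l.2.1.getD r 0 +
        l.2.1.getD c 0 * l.2.2.getD r 0) * (x.getD l.1 []).getD k 0)).sum : ℕ) : R) * θ ^ k := by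
    unfold repv entX
    refine Finset.sum_congr rfl fun k hk => ?_
    rw [s2_getD_range _ _ (Finset.mem_range.1 hk), s2_cast_mod]
  rw [h1, s2_sum θ s (fun l : ℕ × List ℕ × List ℕ => l.2.2.getD c 0 * l.2.1.getD r 0 +
    l.2.1.getD c 0 * l.2.2.getD r 0) (fun l k => (x.getD l.1 []).getD k 0)]
  rfl

theorem repv_scv {R : Type*} [CommRing R] (θ : R) (s : ℕ) (hs : 0 < s) (m : ℕ) :
    repv θ s (scv (List.range s) m) = (m : R) := by
  unfold repv scv
  rw [Finset.sum_eq_single 0]
  · rw [s2_getD_range _ _ hs]
    simp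
  · intro k hk hk0
    rw [s2_getD_range _ _ (Finset.mem_range.1 hk), if_neg hk0]
    simp
  · intro h
    exact absurd (Finset.mem_range.2 hs) h

theorem nulA_eq {K : Type*} [Field K] [Algebra (ZMod 2) K] {θ : K} {s : ℕ} {f : List ℕ}
    {b : Basis (Fin s) (ZMod 2) K} (h : IsExt θ s f b) (N : ℕ)
    (lines : List (ℕ × List ℕ × List ℕ)) (x : List (List ℕ))
    (A : Dual K (Fin N → K) →ₗ[K] (Fin N → K))
    (hA : ∀ φ r, A φ r = ∑ c : Fin N, AE lines (fun i => repv θ s (x.getD i [])) r c *
      φ (Pi.single c 1)) :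
    nulM (List.range s) (List.range N) (pwl (List.range s) f (List.range (2 * s)))
      (matA (List.range s) (List.range N) lines x) = s * finrank K (LinearMap.ker A) := by
  rw [← finrank_ker_comp (s2Psi N) (s2Psi_bij N) A, ← s2_finrank h]
  refine nulM_eq h N _ _ fun y => ?_
  rw [Submodule.restrictScalars_mem, LinearMap.mem_ker, LinearMap.comp_apply]
  have hrow : ∀ r : ℕ, ∀ hr : r < N, A (s2Psi N y) ⟨r, hr⟩ = ∑ c : Fin N,
      repv θ s (((List.range N).map (fun c => entX (List.range s) lines x r c)).getD c []) *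
        y c := by
    intro r hr
    rw [hA]
    refine Finset.sum_congr rfl fun c _ => ?_
    rw [s2Psi_single, s2_getD_range _ _ c.2, repv_entX]
  unfold matA
  constructor
  · intro h1 row hrow'
    obtain ⟨r, hr, rfl⟩ := List.mem_map.1 hrow'
    rw [← hrow r (List.mem_range.1 hr), h1]
    rfl
  · intro h1
    funext r
    have h2 := h1 _ (List.mem_map.2 ⟨r, List.mem_range.2 r.2, rfl⟩)
    rw [← hrow r r.2] at h2
    exact h2

theorem nulB_eq {K : Type*} [Field K] [Algebra (ZMod 2) K] {θ : K} {s : ℕ} {f : List ℕ}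
    {b : Basis (Fin s) (ZMod 2) K} (h : IsExt θ s f b) (N : ℕ)
    (lines : List (ℕ × List ℕ × List ℕ)) (x : List (List ℕ))
    (A : Dual K (Fin N → K) →ₗ[K] (Fin N → K))
    (hA : ∀ φ r, A φ r = ∑ c : Fin N, AE lines (fun i => repv θ s (x.getD i [])) r c *
      φ (Pi.single c 1))
    {ι : Type*} (a' b' : ι → (Fin N → K)) (j k : List ℕ × List ℕ) (oj ok : Option ι)
    (haj : ∀ i : Fin N, ov a' oj i = ((j.1.getD i 0 : ℕ) : K))
    (hbj : ∀ i : Fin N, ov b' oj i = ((j.2.getD i 0 : ℕ) : K))
    (hak : ∀ i : Fin N, ov a' ok i = ((k.1.getD i 0 : ℕ) : K))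
    (hbk : ∀ i : Fin N, ov b' ok i = ((k.2.getD i 0 : ℕ) : K)) :
    nulM (List.range s) (List.range (N + 2)) (pwl (List.range s) f (List.range (2 * s)))
      (matB (List.range s) (List.range N) lines x j k) = s * nl a' b' A oj ok := by
  rw [nl, ← finrank_ker_comp (s2Phi N) (s2Phi_bij N) (TM a' b' A oj ok), ← s2_finrank h]
  refine nulM_eq h (N + 2) _ _ fun y => ?_
  rw [Submodule.restrictScalars_mem, LinearMap.mem_ker, LinearMap.comp_apply, s2Phi_apply,
    TM_apply, Prod.mk_eq_zero, Prod.mk_eq_zero]
  set w : Fin N → K := fun c => y c.castSucc.castSucc with hw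
  have hs := h.pos
  -- the long rows
  have hrow : ∀ r : ℕ, ∀ hr : r < N, (A (s2Psi N w) + y (Fin.last N).castSucc • ov a' ok +
      y (Fin.last (N + 1)) • ov b' ok) ⟨r, hr⟩ = ∑ c : Fin (N + 2),
      repv θ s (((List.range N).map (fun c => entX (List.range s) lines x r c) ++
        [scv (List.range s) (k.1.getD r 0), scv (List.range s) (k.2.getD r 0)]).getD c []) *
        y c := by
    intro r hr
    rw [Fin.sum_univ_castSucc, Fin.sum_univ_castSucc]
    simp only [Pi.add_apply, Pi.smul_apply, smul_eq_mul]
    congr 1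
    · congr 1
      · rw [hA]
        refine Finset.sum_congr rfl fun c _ => ?_
        rw [s2Psi_single]
        have e1 : ((List.range N).map (fun c => entX (List.range s) lines x r c) ++
            [scv (List.range s) (k.1.getD r 0), scv (List.range s) (k.2.getD r 0)]).getD
              ((c.castSucc.castSucc : Fin (N + 2)) : ℕ) [] =
            entX (List.range s) lines x r c := by
          rw [List.getD_append _ _ _ _ (by simp)]
          exact s2_getD_range _ _ c.2
        rw [e1, repv_entX]
      · have e1 : ((List.range N).map (fun c => entX (List.range s) lines x r c) ++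
            [scv (List.range s) (k.1.getD r 0), scv (List.range s) (k.2.getD r 0)]).getD
              (((Fin.last N).castSucc : Fin (N + 2)) : ℕ) [] =
            scv (List.range s) (k.1.getD r 0) := by
          rw [List.getD_append_right _ _ _ _ (by simp)]
          simp
        rw [e1, repv_scv θ s hs, hak ⟨r, hr⟩, mul_comm]
    · have e1 : ((List.range N).map (fun c => entX (List.range s) lines x r c) ++
          [scv (List.range s) (k.1.getD r 0), scv (List.range s) (k.2.getD r 0)]).getD
            ((Fin.last (N + 1) : Fin (N + 2)) : ℕ) [] =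
          scv (List.range s) (k.2.getD r 0) := by
        rw [List.getD_append_right _ _ _ _ (by simp)]
        simp
      rw [e1, repv_scv θ s hs, hbk ⟨r, hr⟩, mul_comm]
  -- the short rows
  have hshort : ∀ (v : Fin N → K) (u : List ℕ), (∀ i : Fin N, v i = ((u.getD i 0 : ℕ) : K)) →
      s2Psi N w v = ∑ c : Fin (N + 2),
        repv θ s (((List.range N).map (fun c => scv (List.range s) (u.getD c 0))).getD c []) *
          y c := by
    intro v u hv
    rw [Fin.sum_univ_castSucc, Fin.sum_univ_castSucc, s2Psi_eval]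
    have e1 : ((List.range N).map (fun c => scv (List.range s) (u.getD c 0))).getD
        ((Fin.last (N + 1) : Fin (N + 2)) : ℕ) [] = [] :=
      List.getD_eq_default _ _ (by simp)
    have e2 : ((List.range N).map (fun c => scv (List.range s) (u.getD c 0))).getD
        (((Fin.last N).castSucc : Fin (N + 2)) : ℕ) [] = [] :=
      List.getD_eq_default _ _ (by simp)
    rw [e1, e2, s2_repv_nil, zero_mul, zero_mul, add_zero, add_zero]
    refine Finset.sum_congr rfl fun c _ => ?_
    have e3 : ((List.range N).map (fun c => scv (List.range s) (u.getD c 0))).getD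
        ((c.castSucc.castSucc : Fin (N + 2)) : ℕ) [] = scv (List.range s) (u.getD c 0) :=
      s2_getD_range _ _ c.2
    rw [e3, repv_scv θ s hs, hv, mul_comm]
  unfold matB
  constructor
  · rintro ⟨h1, h2, h3⟩ row hrow'
    rw [List.mem_append] at hrow'
    rcases hrow' with hrow' | hrow'
    · obtain ⟨r, hr, rfl⟩ := List.mem_map.1 hrow'
      rw [← hrow r (List.mem_range.1 hr), h1]
      rfl
    · simp only [List.mem_cons, List.not_mem_nil, or_false] at hrow'
      rcases hrow' with rfl | rfl
      · rw [← hshort _ _ haj]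
        exact h2
      · rw [← hshort _ _ hbj]
        exact h3
  · intro h1
    refine ⟨?_, ?_, ?_⟩
    · funext r
      have h2 := h1 _ (List.mem_append_left _ (List.mem_map.2 ⟨r, List.mem_range.2 r.2, rfl⟩))
      rw [← hrow r r.2] at h2
      exact h2
    · have h2 := h1 ((List.range N).map (fun c => scv (List.range s) (j.1.getD c 0)))
        (List.mem_append_right _ (by simp))
      rw [← hshort _ _ haj] at h2
      exact h2
    · have h2 := h1 ((List.range N).map (fun c => scv (List.range s) (j.2.getD c 0)))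
        (List.mem_append_right _ (by simp))
      rw [← hshort _ _ hbj] at h2
      exact h2

end Pool.Agent.H203
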